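import Pool.Agent.V1188.FP8

namespace V1188.FP

open Finset Classical Filter PowerSeries

set_option linter.unusedSectionVars false

variable {X : Type} {F : Type} [Field F] (e : X ≃ F)

lemma fix_word : ∀ (n : ℕ) (g : TA X n), HasFix n g → ∃ w : W X n, act n g w = w
  | 0, _, _ => ⟨(), rfl⟩
  | n + 1, g, hg => by
    obtain ⟨u, hu, hu'⟩ := hg
    obtain ⟨w, hw⟩ := fix_word n _ hu'
    refine ⟨(u, w), ?_⟩
    show ((Wr.s g u, act n (Wr.f g u) w) : X × W X n) = (u, w)
    rw [hu, hw]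

lemma word_fix : ∀ (n : ℕ) (g : TA X n) (w : W X n), act n g w = w → HasFix n g
  | 0, _, _, _ => trivial
  | n + 1, g, w, hw => by
    have h1 : Wr.s g w.1 = w.1 := congrArg Prod.fst hw
    have h2 : act n (Wr.f g w.1) w.2 = w.2 := congrArg Prod.snd hw
    exact ⟨w.1, h1, word_fix n _ _ h2⟩

lemma cc_one : cc (1 : PowerSeries F) = 1 := by unfold cc; simp

lemma A_one (n : ℕ) : A e n 1 0 = 1 := A_triv e n 1 0 (by simp) (by simp)

lemma A_inv (n : ℕ) (a b : PowerSeries F) (ha : cc a ≠ 0) :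
    cc a⁻¹ ≠ 0 ∧ (A e n a b)⁻¹ = A e n a⁻¹ (-(a⁻¹ * b)) := by
  have h1 : a * a⁻¹ = 1 := PowerSeries.mul_inv_cancel a ha
  have h2 : cc a * cc a⁻¹ = 1 := by
    unfold cc; rw [← map_mul, h1, map_one]
  have h3 : cc a⁻¹ ≠ 0 := by
    intro h; rw [h, mul_zero] at h2; exact zero_ne_one h2
  refine ⟨h3, ?_⟩
  apply inv_eq_of_mul_eq_one_right
  rw [A_mul e n a b _ _ ha h3, h1]
  have : a * -(a⁻¹ * b) + b = 0 := by
    have : a * -(a⁻¹ * b) = -((a * a⁻¹) * b) := by ring
    rw [this, h1]; ring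
  rw [this, A_one]

lemma A_trans : ∀ (n : ℕ) (v w : W X n), ∃ b : PowerSeries F, act n (A e n 1 b) v = w
  | 0, _, _ => ⟨0, rfl⟩
  | n + 1, (x, v), (y, w) => by
    obtain ⟨b', hb'⟩ := A_trans n v w
    refine ⟨PowerSeries.C (e y - e x) + PowerSeries.X * b', ?_⟩
    obtain ⟨h1, h2⟩ := sh_unique (F := F) (a := PowerSeries.C (e y - e x) + PowerSeries.X * b') rfl
    obtain ⟨h3, h4⟩ := sh_unique (F := F) (a := 1) (s := 0) (c := 1) (by simp)
    show ((aff e (cc 1) (cc (PowerSeries.C (e y - e x) + PowerSeries.X * b')) x,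
      act n (A e n 1 (PowerSeries.C (e x) * sh 1 +
        sh (PowerSeries.C (e y - e x) + PowerSeries.X * b'))) v) : X × W X n) = (y, w)
    rw [h1, h2, h3, h4, aff_apply e one_ne_zero, mul_zero, zero_add, hb']
    congr 1
    rw [Equiv.symm_apply_eq]
    ring

/-- the affine group over the power series ring -/
noncomputable def affFam : Fam X where
  G n := {
    carrier := {g | ∃ a b : PowerSeries F, cc a ≠ 0 ∧ g = A e n a b}
    one_mem' := ⟨1, 0, by rw [cc_one]; exact one_ne_zero, (A_one e n).symm⟩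
    mul_mem' := by
      rintro g h ⟨a, b, ha, rfl⟩ ⟨c, d, hc, rfl⟩
      refine ⟨a * c, a * d + b, ?_, A_mul e n a b c d ha hc⟩
      unfold cc at *
      rw [map_mul]
      exact mul_ne_zero ha hc
    inv_mem' := by
      rintro g ⟨a, b, ha, rfl⟩
      obtain ⟨h1, h2⟩ := A_inv e n a b ha
      exact ⟨_, _, h1, h2⟩ }
  compat n := by
    ext g
    rw [Subgroup.mem_map]
    constructor
    · rintro ⟨_, ⟨a, b, ha, rfl⟩, rfl⟩
      exact ⟨a, b, ha, A_tr e n a b⟩
    · rintro ⟨a, b, ha, rfl⟩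
      exact ⟨_, ⟨a, b, ha, rfl⟩, A_tr e n a b⟩
  trans n v w := by
    obtain ⟨b, hb⟩ := A_trans e n v w
    exact ⟨_, ⟨1, b, by rw [cc_one]; exact one_ne_zero, rfl⟩, hb⟩

lemma mem_affFam {n : ℕ} {g : TA X n} :
    g ∈ (affFam e).G n ↔ ∃ a b : PowerSeries F, cc a ≠ 0 ∧ g = A e n a b := Iff.rfl

lemma aff_sec (u : X) (n : ℕ) : ((affFam e).sec u).G n = (affFam e).G n := by
  ext h
  constructor
  · rintro ⟨g, ⟨a, b, ha, rfl⟩, hgu, rfl⟩
    exact ⟨a, _, ha, rfl⟩
  · rintro ⟨a, b', ha, rfl⟩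
    set b : PowerSeries F := PowerSeries.C (e u - cc a * e u) +
      PowerSeries.X * (b' - PowerSeries.C (e u) * sh a) with hb
    obtain ⟨h1, h2⟩ := sh_unique hb
    refine ⟨A e (n + 1) a b, ⟨a, b, ha, rfl⟩, ?_, ?_⟩
    · show aff e (cc a) (cc b) u = u
      rw [aff_apply e ha, h1, Equiv.symm_apply_eq]
      ring
    · show A e n a (PowerSeries.C (e u) * sh a + sh b) = A e n a b'
      rw [h2]
      congr 1
      ring

lemma unit_cancel {n : ℕ} {p q : PowerSeries F} (hq : cc q ≠ 0)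
    (h : PowerSeries.X ^ n ∣ p * q) : PowerSeries.X ^ n ∣ p := by
  have h1 : q * q⁻¹ = 1 := PowerSeries.mul_inv_cancel q hq
  obtain ⟨r, hr⟩ := h
  refine ⟨r * q⁻¹, ?_⟩
  calc p = p * (q * q⁻¹) := by rw [h1, mul_one]
    _ = (p * q) * q⁻¹ := by ring
    _ = _ := by rw [hr]; ring

lemma aff_Sep (n : ℕ) : Sep (HasFix n) ((affFam e).G (n + 1)) := by
  rintro g ⟨a, b, ha, rfl⟩ u v huv hu hFu hv hFv
  obtain ⟨w, hw⟩ := fix_word n _ hFu
  obtain ⟨w', hw'⟩ := fix_word n _ hFv
  have h1 : act (n + 1) (A e (n + 1) a b) (u, w) = (u, w) := Prod.ext hu (by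
    show act n (Wr.f (A e (n + 1) a b) u) w = w
    exact hw)
  have h2 : act (n + 1) (A e (n + 1) a b) (v, w') = (v, w') := Prod.ext hv (by
    show act n (Wr.f (A e (n + 1) a b) v) w' = w'
    exact hw')
  have h3 := act_ev e (n + 1) a b (u, w) ha
  have h4 := act_ev e (n + 1) a b (v, w') ha
  rw [h1] at h3
  rw [h2] at h4
  set p : PowerSeries F := ev e (n + 1) (u, w) with hp
  set p' : PowerSeries F := ev e (n + 1) (v, w') with hp'
  have hpp : cc (p - p') ≠ 0 := by
    have e1 : cc p = e u := (sh_unique (a := p) (s := ev e n w) (c := e u) rfl).1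
    have e2 : cc p' = e v := (sh_unique (a := p') (s := ev e n w') (c := e v) rfl).1
    have e3 : cc (p - p') = cc p - cc p' := by unfold cc; rw [map_sub]
    rw [e3, e1, e2, sub_ne_zero]
    exact fun h => huv (e.injective h)
  have h5 : PowerSeries.X ^ (n + 1) ∣ (a - 1) * (p - p') := by
    have := dvd_sub h4 h3
    have e1 : p' - (a * p' + b) - (p - (a * p + b)) = (a - 1) * (p - p') := by ring
    rwa [e1] at this
  have h6 := unit_cancel hpp h5
  apply A_triv e (n + 1) a b h6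
  have h7 : PowerSeries.X ^ (n + 1) ∣ (a - 1) * p := h6.mul_right _
  have := dvd_add h7 h3
  have e1 : (a - 1) * p + (p - (a * p + b)) = -b := by ring
  rw [e1, dvd_neg] at this
  exact this

variable [Fintype X] [Nonempty X]

lemma a_zero_le (G : Fam X) : G.a 0 ≤ 1 := by
  have h : G.a 0 ≤ (univ : Finset (TA X 0)).card := by
    unfold Fam.a cnt
    exact Finset.card_le_card (Finset.subset_univ _)
  exact h

/-- number of elements of the rigid stabiliser type subgroup -/
noncomputable def Fam.r (G : Fam X) (n : ℕ) (u : X) : ℕ :=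
  cnt (G.G (n + 1)) (fun g => Wr.s g u = u ∧ Wr.f g u = 1)

lemma r_zero (u : X) : Fintype.card X - 1 ≤ (affFam e).r 0 u := by
  have hF : Finite F := Finite.of_equiv X e
  have : Fintype F := Fintype.ofFinite F
  have hc : ((univ : Finset F).erase 0).card = Fintype.card X - 1 := by
    rw [Finset.card_erase_of_mem (mem_univ 0), Finset.card_univ, Fintype.card_congr e]
  rw [← hc]
  unfold Fam.r cnt
  apply Finset.card_le_card_of_injOn
    (fun α => A e 1 (PowerSeries.C α) (PowerSeries.C (e u - α * e u)))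
  · intro α hα
    have hα0 : α ≠ 0 := by simpa using hα
    have hcc : ∀ c : F, cc (PowerSeries.C c) = c := by intro c; unfold cc; simp
    simp only [coe_filter, mem_univ, true_and, Set.mem_ofPred_eq]
    refine ⟨⟨_, _, by rw [hcc]; exact hα0, rfl⟩, ?_, rfl⟩
    show aff e (cc (PowerSeries.C α)) (cc (PowerSeries.C (e u - α * e u))) u = u
    rw [hcc, hcc, aff_apply e hα0, Equiv.symm_apply_eq]
    ring
  · intro α hα β hβ hab
    have hα0 : α ≠ 0 := by simpa using hα
    have hβ0 : β ≠ 0 := by simpa using hβ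
    have hcc : ∀ c : F, cc (PowerSeries.C c) = c := by intro c; unfold cc; simp
    have := A_inj_a e 0 _ _ _ _ (by rw [hcc]; exact hα0) (by rw [hcc]; exact hβ0) hab
    rw [PowerSeries.X_pow_dvd_iff] at this
    have := this 0 (by norm_num)
    simpa [sub_eq_zero] using this

lemma r_succ (n : ℕ) (u : X) : Fintype.card X ≤ (affFam e).r (n + 1) u := by
  have hF : Finite F := Finite.of_equiv X e
  have : Fintype F := Fintype.ofFinite F
  rw [Fintype.card_congr e, ← Finset.card_univ]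
  unfold Fam.r cnt
  have ha : ∀ α : F, (1 + PowerSeries.X ^ (n + 1) * PowerSeries.C α : PowerSeries F) =
      PowerSeries.C 1 + PowerSeries.X * (PowerSeries.X ^ n * PowerSeries.C α) := by
    intro α; rw [map_one]; ring
  have hb : ∀ α : F, (-(PowerSeries.X ^ (n + 1) * PowerSeries.C (α * e u)) : PowerSeries F) =
      PowerSeries.C 0 + PowerSeries.X * (-(PowerSeries.X ^ n * PowerSeries.C (α * e u))) := by
    intro α; rw [map_zero]; ring
  have ha0 : ∀ α : F, cc (1 + PowerSeries.X ^ (n + 1) * PowerSeries.C α : PowerSeries F) ≠ 0 := by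
    intro α
    rw [(sh_unique (ha α)).1]
    exact one_ne_zero
  apply Finset.card_le_card_of_injOn
    (fun α => A e (n + 2) (1 + PowerSeries.X ^ (n + 1) * PowerSeries.C α)
      (-(PowerSeries.X ^ (n + 1) * PowerSeries.C (α * e u))))
  · intro α _
    simp only [coe_filter, mem_univ, true_and, Set.mem_ofPred_eq]
    obtain ⟨h1, h2⟩ := sh_unique (ha α)
    obtain ⟨h3, h4⟩ := sh_unique (hb α)
    refine ⟨⟨_, _, ha0 α, rfl⟩, ?_, ?_⟩
    · show aff e (cc (1 + PowerSeries.X ^ (n + 1) * PowerSeries.C α))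
        (cc (-(PowerSeries.X ^ (n + 1) * PowerSeries.C (α * e u)))) u = u
      rw [h1, h3, aff_apply e one_ne_zero, Equiv.symm_apply_eq]
      ring
    · show A e (n + 1) (1 + PowerSeries.X ^ (n + 1) * PowerSeries.C α)
        (PowerSeries.C (e u) * sh (1 + PowerSeries.X ^ (n + 1) * PowerSeries.C α) +
          sh (-(PowerSeries.X ^ (n + 1) * PowerSeries.C (α * e u)))) = 1
      apply A_triv
      · exact ⟨PowerSeries.C α, by ring⟩
      · rw [h2, h4, map_mul]
        exact ⟨0, by ring⟩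
  · intro α _ β _ hab
    have := A_inj_a e (n + 1) _ _ _ _ (ha0 α) (ha0 β) hab
    rw [PowerSeries.X_pow_dvd_iff] at this
    have h1 := this (n + 1) (by omega)
    have h2 : (1 + PowerSeries.X ^ (n + 1) * PowerSeries.C α -
      (1 + PowerSeries.X ^ (n + 1) * PowerSeries.C β) : PowerSeries F) =
      PowerSeries.X ^ (n + 1) * PowerSeries.C (α - β) := by rw [map_sub]; ring
    rw [h2, PowerSeries.coeff_X_pow_mul'] at h1
    simpa [sub_eq_zero] using h1

/-- counting with separated fixed points -/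
lemma sum_le (G : Fam X) (n : ℕ) (hsep : Sep (HasFix n) (G.G (n + 1))) :
    ∑ u : X, cnt (G.G (n + 1)) (fun g => Wr.s g u = u ∧ HasFix n (Wr.f g u)) ≤
      G.fx (n + 1) + (Fintype.card X - 1) := by
  set Γ : Finset (TA X (n + 1)) := univ.filter (fun g => g ∈ G.G (n + 1) ∧ HasFix (n + 1) g) with hΓ
  have h1 : ∀ u : X, cnt (G.G (n + 1)) (fun g => Wr.s g u = u ∧ HasFix n (Wr.f g u)) =
      ∑ g ∈ Γ, if (Wr.s g u = u ∧ HasFix n (Wr.f g u)) then 1 else 0 := by
    intro u
    rw [← Finset.card_filter]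
    unfold cnt
    congr 1
    ext g
    simp only [mem_filter, mem_univ, true_and, hΓ]
    constructor
    · rintro ⟨hg, hg1, hg2⟩
      exact ⟨⟨hg, ⟨u, hg1, hg2⟩⟩, hg1, hg2⟩
    · rintro ⟨⟨hg, -⟩, hg1, hg2⟩
      exact ⟨hg, hg1, hg2⟩
  rw [Finset.sum_congr rfl (fun u _ => h1 u), Finset.sum_comm]
  have h1Γ : (1 : TA X (n + 1)) ∈ Γ := by
    simp only [hΓ, mem_filter, mem_univ, true_and]
    exact ⟨Subgroup.one_mem _, hasFix_one (n + 1)⟩
  have hΓc : Γ.card = G.fx (n + 1) := by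
    unfold Fam.fx cnt; rfl
  rw [← Finset.add_sum_erase _ _ h1Γ]
  have h2 : ∑ u : X, (if (Wr.s (1 : TA X (n + 1)) u = u ∧
      HasFix n (Wr.f (1 : TA X (n + 1)) u)) then 1 else 0) ≤ Fintype.card X := by
    calc _ ≤ ∑ _u : X, 1 := Finset.sum_le_sum (fun u _ => by split_ifs <;> norm_num)
      _ = _ := by simp
  have h3 : ∑ g ∈ Γ.erase 1, ∑ u : X, (if (Wr.s g u = u ∧ HasFix n (Wr.f g u)) then 1 else 0) ≤
      Γ.card - 1 := by
    rw [← Finset.card_erase_of_mem h1Γ]
    calc _ ≤ ∑ _g ∈ Γ.erase 1, 1 := Finset.sum_le_sum (fun g hg => by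
          rw [← Finset.card_filter, Finset.card_le_one]
          intro u hu v hv
          simp only [mem_filter, mem_univ, true_and] at hu hv
          simp only [mem_erase, hΓ, mem_filter, mem_univ, true_and] at hg
          by_contra huv
          exact hg.1 (hsep g hg.2.1 u v huv hu.1 hu.2 hv.1 hv.2))
      _ = _ := by simp
  have h4 : 1 ≤ Γ.card := Finset.card_pos.mpr ⟨1, h1Γ⟩
  have h5 : 1 ≤ Fintype.card X := Fintype.card_pos
  omega

lemma aff_good (d : ℕ) (hd : d = Fintype.card X) (hd2 : 2 ≤ d) : (affFam e).Good d := by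
  have hdZ : (2 : ℤ) ≤ d := by exact_mod_cast hd2
  set G := affFam e with hG
  obtain ⟨u0⟩ := ‹Nonempty X›
  have hsecfx : ∀ (u : X) (n : ℕ), (G.sec u).fx n = G.fx n := by
    intro u n; unfold Fam.fx; rw [hG, aff_sec]
  have hseca : ∀ (u : X) (n : ℕ), (G.sec u).a n = G.a n := by
    intro u n; unfold Fam.a; rw [hG, aff_sec]
  have ha : ∀ (u : X) (n : ℕ), G.a (n + 1) = d * (G.r n u * G.a n) := by
    intro u n
    rw [← hseca u n, hd]
    exact a_eq G n u
  have hr : ∀ (u : X) (n : ℕ), G.r n u = G.r n u0 := by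
    intro u n
    have h1 := ha u n
    rw [ha u0 n] at h1
    have h2 := Nat.eq_of_mul_eq_mul_left (by omega) h1
    exact (Nat.eq_of_mul_eq_mul_right (a_pos G n) h2).symm
  have hf : ∀ n : ℕ, d * (G.r n u0 * G.fx n) ≤ G.fx (n + 1) + (d - 1) := by
    intro n
    have h1 := sum_le G n (aff_Sep e n)
    have h2 : ∀ u : X, cnt (G.G (n + 1)) (fun g => Wr.s g u = u ∧ HasFix n (Wr.f g u)) =
        G.r n u0 * G.fx n := by
      intro u
      rw [← hr u n, ← hsecfx u n]
      exact sec_count (G.G (n + 1)) u (HasFix n)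
    rw [Finset.sum_congr rfl (fun u _ => h2 u), Finset.sum_const, Finset.card_univ, ← hd] at h1
    simpa using h1
  have hD : ∀ n : ℕ, ((d : ℤ) - 1) ≤
      ((d : ℤ) ^ 2 - 1) * G.fx (n + 1) - ((d : ℤ) ^ 2 - d - 1) * G.a (n + 1) := by
    intro n
    induction n with
    | zero =>
      have h1 := hf 0
      have h2 := ha u0 0
      have ha0 : G.a 0 = 1 := by
        have : G.a 0 ≤ 1 := a_zero_le G
        have := a_pos G 0
        omega
      have hf0 : G.fx 0 = 1 := by
        have h3 := fx_le_a G 0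
        have h4 := fx_pos G 0
        omega
      have h3 : d - 1 ≤ G.r 0 u0 := by rw [hd]; exact r_zero e u0
      rw [hf0] at h1
      rw [ha0] at h2
      zify [show 1 ≤ d by omega] at h1 h2 h3
      rw [h2]
      set r := (G.r 0 u0 : ℤ)
      have h5 : ((d : ℤ) ^ 2 - 1) * (d * r) ≤ ((d : ℤ) ^ 2 - 1) * (G.fx (0 + 1) + (d - 1)) := by
        apply mul_le_mul_of_nonneg_left _ (by nlinarith)
        linarith
      have h6 : (d : ℤ) ^ 2 * (d - 1) ≤ d ^ 2 * r := mul_le_mul_of_nonneg_left h3 (by positivity)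
      nlinarith
    | succ n ih =>
      have h1 := hf (n + 1)
      have h2 := ha u0 (n + 1)
      have h3 : d ≤ G.r (n + 1) u0 := by
        have := r_succ e n u0
        rw [← hd] at this
        exact this
      zify [show 1 ≤ d by omega] at h1 h2 h3
      rw [h2]
      set r := (G.r (n + 1) u0 : ℤ)
      set f := (G.fx (n + 1) : ℤ)
      set a := (G.a (n + 1) : ℤ)
      have h5 : ((d : ℤ) ^ 2 - 1) * (d * (r * f)) ≤
          ((d : ℤ) ^ 2 - 1) * (G.fx (n + 1 + 1) + (d - 1)) :=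
        mul_le_mul_of_nonneg_left h1 (by nlinarith)
      have h6 : ((d : ℤ) * r) * ((d : ℤ) - 1) ≤ (d * r) *
          (((d : ℤ) ^ 2 - 1) * f - ((d : ℤ) ^ 2 - d - 1) * a) :=
        mul_le_mul_of_nonneg_left ih (by positivity)
      have h7 : ((d : ℤ) * d) * (d - 1) ≤ (d * r) * (d - 1) :=
        mul_le_mul_of_nonneg_right (mul_le_mul_of_nonneg_left h3 (by linarith)) (by linarith)
      nlinarith
  intro n
  cases n with
  | zero =>
    have h1 := fx_pos G 0
    have h2 : G.a 0 ≤ 1 := a_zero_le G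
    have h3 := a_pos G 0
    have h4 : G.a 0 = 1 := by omega
    have h5 : G.fx 0 = 1 := by
      have := fx_le_a G 0
      omega
    rw [h4, h5]
    push_cast
    linarith
  | succ n =>
    have := hD n
    linarith

end V1188.FP
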