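import Mathlib

namespace V1188.FP

open Finset

/-- Permutational wreath product of a group `H` with the symmetric group of `X`. -/
@[ext] structure Wr (X : Type) (H : Type) where
  s : Equiv.Perm X
  f : X → H

variable {X : Type} {H : Type} {H' : Type}

namespace Wr

variable [Group H] [Group H']

instance : Mul (Wr X H) := ⟨fun a b => ⟨a.s * b.s, fun x => a.f (b.s x) * b.f x⟩⟩
instance : One (Wr X H) := ⟨⟨1, fun _ => 1⟩⟩
instance : Inv (Wr X H) := ⟨fun a => ⟨a.s⁻¹, fun x => (a.f (a.s⁻¹ x))⁻¹⟩⟩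

@[simp] lemma mul_s (a b : Wr X H) : (a * b).s = a.s * b.s := rfl
@[simp] lemma mul_f (a b : Wr X H) (x : X) : (a * b).f x = a.f (b.s x) * b.f x := rfl
@[simp] lemma one_s : (1 : Wr X H).s = 1 := rfl
@[simp] lemma one_f (x : X) : (1 : Wr X H).f x = 1 := rfl
@[simp] lemma inv_s (a : Wr X H) : (a⁻¹).s = a.s⁻¹ := rfl
@[simp] lemma inv_f (a : Wr X H) (x : X) : (a⁻¹).f x = (a.f (a.s⁻¹ x))⁻¹ := rfl

instance : Group (Wr X H) where
  mul_assoc a b c := by
    ext x <;> simp [mul_assoc]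
  one_mul a := by
    ext x <;> simp
  mul_one a := by
    ext x <;> simp
  inv_mul_cancel a := by
    ext x <;> simp

instance [Finite X] [Finite H] : Finite (Wr X H) :=
  Finite.of_injective (fun g : Wr X H => (g.s, g.f)) (by
    intro a b h
    simp only [Prod.mk.injEq] at h
    exact Wr.ext h.1 h.2)

/-- Functoriality in the base group. -/
def map (T : H →* H') : Wr X H →* Wr X H' where
  toFun g := ⟨g.s, fun x => T (g.f x)⟩
  map_one' := by ext x <;> simp
  map_mul' a b := by ext x <;> simp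

@[simp] lemma map_s (T : H →* H') (g : Wr X H) : (map T g).s = g.s := rfl
@[simp] lemma map_f (T : H →* H') (g : Wr X H) (x : X) : (map T g).f x = T (g.f x) := rfl

/-- Some coordinate is fixed and the section there satisfies `Fx`. -/
def Fix (Fx : H → Prop) (g : Wr X H) : Prop := ∃ u, g.s u = u ∧ Fx (g.f u)

/-- Sections at `u` of the elements of `G` fixing `u`. -/
def sec (G : Subgroup (Wr X H)) (u : X) : Subgroup H where
  carrier := {h | ∃ g ∈ G, g.s u = u ∧ g.f u = h}
  one_mem' := ⟨1, G.one_mem, rfl, rfl⟩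
  mul_mem' := by
    rintro a b ⟨g, hg, hgu, rfl⟩ ⟨k, hk, hku, rfl⟩
    exact ⟨g * k, G.mul_mem hg hk, by simp [hku, hgu], by simp [hku]⟩
  inv_mem' := by
    rintro a ⟨g, hg, hgu, rfl⟩
    have h1 : (g.s)⁻¹ u = u := by
      rw [Equiv.Perm.inv_eq_iff_eq]; exact hgu.symm
    exact ⟨g⁻¹, G.inv_mem hg, by simpa using h1, by simp [h1]⟩

lemma mem_sec {G : Subgroup (Wr X H)} {u : X} {h : H} :
    h ∈ sec G u ↔ ∃ g ∈ G, g.s u = u ∧ g.f u = h := Iff.rfl

end Wr

section counting

open Classical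

variable {A B : Type} [Group A] [Fintype A] [Group B] [Fintype B]

lemma fiber_count (S : Subgroup A) (φ : A → B)
    (hφ : ∀ g ∈ S, ∀ h ∈ S, φ (g * h) = φ g * φ h) (C : B → Prop) :
    (univ.filter (fun g : A => g ∈ S ∧ C (φ g))).card =
      (univ.filter (fun g : A => g ∈ S ∧ φ g = 1)).card *
        (univ.filter (fun b : B => (∃ g ∈ S, φ g = b) ∧ C b)).card := by
  have h1 : φ 1 = 1 := by
    have := hφ 1 S.one_mem 1 S.one_mem
    rw [mul_one] at this
    exact (left_eq_mul.mp this)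
  have hinv : ∀ g ∈ S, φ g⁻¹ = (φ g)⁻¹ := by
    intro g hg
    have := hφ g⁻¹ (S.inv_mem hg) g hg
    rw [inv_mul_cancel, h1] at this
    exact (eq_inv_of_mul_eq_one_left this.symm)
  rw [Finset.card_eq_sum_card_fiberwise (f := φ)
    (t := univ.filter (fun b : B => (∃ g ∈ S, φ g = b) ∧ C b))]
  · rw [Finset.sum_const_nat (m := (univ.filter (fun g : A => g ∈ S ∧ φ g = 1)).card)]
    · rw [mul_comm]
    · intro b hb
      simp only [mem_filter, mem_univ, true_and] at hb
      obtain ⟨⟨g0, hg0, rfl⟩, hC⟩ := hb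
      apply Finset.card_bij (fun g _ => g0⁻¹ * g)
      · intro g hg
        simp only [mem_filter, mem_univ, true_and] at hg ⊢
        refine ⟨S.mul_mem (S.inv_mem hg0) hg.1.1, ?_⟩
        rw [hφ _ (S.inv_mem hg0) _ hg.1.1, hinv _ hg0, hg.2, inv_mul_cancel]
      · intro a _ b _ hab
        exact mul_left_cancel hab
      · intro k hk
        simp only [mem_filter, mem_univ, true_and] at hk
        refine ⟨g0 * k, ?_, by group⟩
        simp only [mem_filter, mem_univ, true_and]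
        have : φ (g0 * k) = φ g0 := by rw [hφ _ hg0 _ hk.1, hk.2, mul_one]
        exact ⟨⟨S.mul_mem hg0 hk.1, by rw [this]; exact hC⟩, this⟩
  · intro g hg
    simp only [coe_filter, mem_univ, true_and, Set.mem_ofPred_eq] at hg ⊢
    exact ⟨⟨g, hg.1, rfl⟩, hg.2⟩

/-- The inequality behind the whole argument (integers). -/
lemma key_ineq {ι : Type} (Γ : Finset ι) (W : ι → ℕ) (e : ι) (he : e ∈ Γ) (d : ℕ) (hd : 2 ≤ d)
    (hWe : W e = d) (hW : ∀ g ∈ Γ, g ≠ e → W g + 1 ≤ d) (hsum : ∑ g ∈ Γ, W g = Γ.card) :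
    (∑ g ∈ Γ, (W g : ℤ) * ((W g : ℤ) - 1)) ≤
      ((d : ℤ) - 1) * (((Γ.filter (fun g => W g = 0)).card : ℤ) + 1) := by
  have hd0 : (2 : ℤ) ≤ d := by exact_mod_cast hd
  -- pointwise inequality
  have hpt : ∀ g ∈ Γ, ((d : ℤ) - 1) * (((W g : ℤ) - 1) * ((W g : ℤ) - d)) + (W g : ℤ) * ((W g : ℤ) - 1)
      ≤ (if W g = 0 then ((d : ℤ) - 1) * d else 0) + (if g = e then (d : ℤ) * (d - 1) else 0) := by
    intro g hg
    by_cases hge : g = e
    · subst hge
      rw [hWe]
      have : ¬ (d = 0) := by omega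
      simp [this]
    · rw [if_neg hge]
      by_cases h0 : W g = 0
      · rw [if_pos h0, h0]
        push_cast
        nlinarith
      · rw [if_neg h0]
        have h1 : (1 : ℤ) ≤ W g := by exact_mod_cast Nat.one_le_iff_ne_zero.mpr h0
        have h2 : (W g : ℤ) + 1 ≤ d := by exact_mod_cast hW g hg hge
        have h3 : 0 ≤ ((W g : ℤ) - 1) := by linarith
        have h4 : 0 ≤ ((d : ℤ) - 1) * ((d : ℤ) - W g) - W g := by nlinarith
        nlinarith [mul_nonneg h3 h4]
  have hs := Finset.sum_le_sum hpt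
  rw [Finset.sum_add_distrib, Finset.sum_add_distrib, ← Finset.mul_sum] at hs
  rw [← Finset.sum_filter, Finset.sum_const, Finset.sum_ite_eq' Γ e, if_pos he] at hs
  have hsumZ : (∑ g ∈ Γ, (W g : ℤ)) = Γ.card := by exact_mod_cast hsum
  have hexp : (∑ g ∈ Γ, ((W g : ℤ) - 1) * ((W g : ℤ) - d)) = ∑ g ∈ Γ, (W g : ℤ) * ((W g : ℤ) - 1) := by
    have : ∀ g ∈ Γ, ((W g : ℤ) - 1) * ((W g : ℤ) - d) =
        (W g : ℤ) * ((W g : ℤ) - 1) - d * (W g : ℤ) + d * 1 := by
      intro g _; ring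
    rw [Finset.sum_congr rfl this, Finset.sum_add_distrib, Finset.sum_sub_distrib, ← Finset.mul_sum,
      ← Finset.mul_sum, hsumZ]
    simp
  rw [hexp] at hs
  simp only [nsmul_eq_mul] at hs
  set Q := ∑ g ∈ Γ, (W g : ℤ) * ((W g : ℤ) - 1) with hQ
  set δ := ((Γ.filter (fun g => W g = 0)).card : ℤ) with hδ
  have h5 : (d : ℤ) * Q ≤ d * (((d : ℤ) - 1) * (δ + 1)) := by nlinarith
  exact le_of_mul_le_mul_left h5 (by linarith)

/-- Double counting of pairs. -/
lemma pair_sum {ι X : Type} [Fintype X] (Γ : Finset ι) (P : ι → X → Prop) :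
    (∑ g ∈ Γ, (((univ.filter (P g)).card : ℤ)) * (((univ.filter (P g)).card : ℤ) - 1)) =
      ∑ p ∈ (univ : Finset X).offDiag, ((Γ.filter (fun g => P g p.1 ∧ P g p.2)).card : ℤ) := by
  have h1 : ∀ g ∈ Γ, (((univ.filter (P g)).card : ℤ)) * (((univ.filter (P g)).card : ℤ) - 1) =
      ∑ p ∈ (univ : Finset X).offDiag, (if P g p.1 ∧ P g p.2 then (1 : ℤ) else 0) := by
    intro g _
    have h2 : ((univ.filter (P g)).offDiag.card : ℤ) =
        (((univ.filter (P g)).card : ℤ)) * (((univ.filter (P g)).card : ℤ) - 1) := by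
      rw [Finset.offDiag_card]
      rw [Nat.cast_sub (Nat.le_mul_self _)]
      push_cast
      ring
    rw [← h2, ← Finset.sum_filter, Finset.sum_const, nsmul_eq_mul, mul_one]
    congr 2
    ext p
    simp only [mem_offDiag, mem_filter, mem_univ, true_and]
    tauto
  rw [Finset.sum_congr rfl h1, Finset.sum_comm]
  apply Finset.sum_congr rfl
  intro p _
  rw [← Finset.sum_filter, Finset.sum_const, nsmul_eq_mul, mul_one]

end counting

section step

set_option linter.unusedSectionVars false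

open Classical

variable {X H H' : Type} [Fintype X] [Group H] [Fintype H] [Group H'] [Fintype H']

noncomputable instance instFintypeWr : Fintype (Wr X H) := Fintype.ofFinite _

/-- number of elements of `G` with property `P` -/
noncomputable def cnt {A : Type} [Group A] [Fintype A] (G : Subgroup A) (P : A → Prop) : ℕ :=
  (univ.filter (fun g : A => g ∈ G ∧ P g)).card

lemma cnt_one_pos {A : Type} [Group A] [Fintype A] (G : Subgroup A) (P : A → Prop) (h : P 1) :
    0 < cnt G P := by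
  unfold cnt
  apply Finset.card_pos.mpr
  exact ⟨1, by simp [G.one_mem, h]⟩

lemma cnt_mono {A : Type} [Group A] [Fintype A] (G : Subgroup A) {P Q : A → Prop}
    (h : ∀ g ∈ G, P g → Q g) : cnt G P ≤ cnt G Q := by
  unfold cnt
  apply Finset.card_le_card
  intro g hg
  simp only [mem_filter, mem_univ, true_and] at hg ⊢
  exact ⟨hg.1, h g hg.1 hg.2⟩

lemma cnt_congr {A : Type} [Group A] [Fintype A] (G : Subgroup A) {P Q : A → Prop}
    (h : ∀ g ∈ G, (P g ↔ Q g)) : cnt G P = cnt G Q :=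
  le_antisymm (cnt_mono G fun g hg => (h g hg).1) (cnt_mono G fun g hg => (h g hg).2)

/-- conjugation invariance -/
lemma cnt_conj {A : Type} [Group A] [Fintype A] (G : Subgroup A) {P Q : A → Prop} {c : A}
    (hc : c ∈ G) (h : ∀ g ∈ G, P g → Q (c * g * c⁻¹)) : cnt G P ≤ cnt G Q := by
  unfold cnt
  apply Finset.card_le_card_of_injOn (fun g => c * g * c⁻¹)
  · intro g hg
    simp only [coe_filter, mem_univ, true_and, Set.mem_ofPred_eq] at hg ⊢
    exact ⟨G.mul_mem (G.mul_mem hc hg.1) (G.inv_mem hc), h g hg.1 hg.2⟩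
  · intro a _ b _ hab
    simpa using hab

/-- the stabiliser of `u` -/
def stab (G : Subgroup (Wr X H)) (u : X) : Subgroup (Wr X H) where
  carrier := {g | g ∈ G ∧ g.s u = u}
  one_mem' := ⟨G.one_mem, rfl⟩
  mul_mem' := by
    rintro a b ⟨ha, hau⟩ ⟨hb, hbu⟩
    exact ⟨G.mul_mem ha hb, by simp [hau, hbu]⟩
  inv_mem' := by
    rintro a ⟨ha, hau⟩
    refine ⟨G.inv_mem ha, ?_⟩
    rw [Wr.inv_s, Equiv.Perm.inv_eq_iff_eq]; exact hau.symm

lemma cnt_stab (G : Subgroup (Wr X H)) (u : X) (P : Wr X H → Prop) :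
    cnt (stab G u) P = cnt G (fun g => g.s u = u ∧ P g) := by
  unfold cnt
  congr 1
  ext g
  simp only [mem_filter, mem_univ, true_and]
  show (g ∈ G ∧ g.s u = u) ∧ P g ↔ _
  tauto

lemma sec_count (G : Subgroup (Wr X H)) (u : X) (C : H → Prop) :
    cnt G (fun g => g.s u = u ∧ C (g.f u)) =
      cnt G (fun g => g.s u = u ∧ g.f u = 1) * cnt (Wr.sec G u) C := by
  have h := fiber_count (stab G u) (fun g : Wr X H => g.f u) (by
    rintro g ⟨_, _⟩ h ⟨_, hh⟩
    simp [hh]) C
  have e1 : (univ.filter (fun g : Wr X H => g ∈ stab G u ∧ C (g.f u))).card =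
      cnt G (fun g => g.s u = u ∧ C (g.f u)) := cnt_stab G u (fun g => C (g.f u))
  have e2 : (univ.filter (fun g : Wr X H => g ∈ stab G u ∧ g.f u = 1)).card =
      cnt G (fun g => g.s u = u ∧ g.f u = 1) := cnt_stab G u (fun g => g.f u = 1)
  rw [e1, e2] at h
  rw [h]
  congr 1
  unfold cnt
  congr 1
  ext b
  simp only [mem_filter, mem_univ, true_and, Wr.mem_sec]
  constructor
  · rintro ⟨⟨g, ⟨h1, h2⟩, h3⟩, h4⟩
    exact ⟨⟨g, h1, h2, h3⟩, h4⟩
  · rintro ⟨⟨g, h1, h2, h3⟩, h4⟩
    exact ⟨⟨g, ⟨h1, h2⟩, h3⟩, h4⟩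

/-- orbit-stabiliser for a group transitive on `X`. -/
lemma orbit_stab (G : Subgroup (Wr X H)) (htr : ∀ u v, ∃ g ∈ G, g.s u = v) (u : X) :
    cnt G (fun _ => True) = Fintype.card X * cnt G (fun g => g.s u = u) := by
  unfold cnt
  rw [Finset.card_eq_sum_card_fiberwise (f := fun g : Wr X H => g.s u) (t := (univ : Finset X))
    (by intro g _; simp)]
  rw [Finset.sum_const_nat (m := (univ.filter (fun g : Wr X H => g ∈ G ∧ g.s u = u)).card)]
  · rw [Finset.card_univ]
  · intro v _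
    obtain ⟨c, hc, hcu⟩ := htr u v
    symm
    apply Finset.card_bij (fun g _ => c * g)
    · intro g hg
      simp only [mem_filter, mem_univ, true_and] at hg ⊢
      exact ⟨⟨G.mul_mem hc hg.1, trivial⟩, by simp [hg.2, hcu]⟩
    · intro a _ b _ hab
      exact mul_left_cancel hab
    · intro k hk
      simp only [mem_filter, mem_univ, true_and] at hk
      refine ⟨c⁻¹ * k, ?_, by group⟩
      simp only [mem_filter, mem_univ, true_and]
      refine ⟨G.mul_mem (G.inv_mem hc) hk.1.1, ?_⟩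
      rw [Wr.mul_s, Equiv.Perm.mul_apply, hk.2, Wr.inv_s, Equiv.Perm.inv_eq_iff_eq]
      exact hcu.symm

/-- the kernel of the truncation, inside `G`. -/
def ker (T : H →* H') (G : Subgroup (Wr X H)) : Subgroup (Wr X H) := G ⊓ (Wr.map (X := X) T).ker

lemma mem_ker {T : H →* H'} {G : Subgroup (Wr X H)} {g : Wr X H} :
    g ∈ ker T G ↔ g ∈ G ∧ Wr.map T g = 1 := by
  unfold ker
  rw [Subgroup.mem_inf, MonoidHom.mem_ker]

lemma cnt_ker (T : H →* H') (G : Subgroup (Wr X H)) (P : Wr X H → Prop) :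
    cnt (ker T G) P = cnt G (fun g => Wr.map T g = 1 ∧ P g) := by
  unfold cnt
  congr 1
  ext g
  simp only [mem_filter, mem_univ, true_and, mem_ker]
  tauto

lemma map_eq_one {T : H →* H'} {g : Wr X H} (h : Wr.map T g = 1) :
    g.s = 1 ∧ ∀ u, T (g.f u) = 1 := by
  constructor
  · have := congrArg Wr.s h
    simpa using this
  · intro u
    have := congrFun (congrArg Wr.f h) u
    simpa using this

lemma map_count (T : H →* H') (G : Subgroup (Wr X H)) (C : Wr X H' → Prop) :
    cnt G (fun g => C (Wr.map T g)) =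
      cnt (ker T G) (fun _ => True) * cnt (G.map (Wr.map T)) C := by
  have h := fiber_count G (fun g : Wr X H => Wr.map T g) (by intro g _ h _; exact map_mul _ _ _) C
  have e1 : (univ.filter (fun g : Wr X H => g ∈ G ∧ C (Wr.map T g))).card =
      cnt G (fun g => C (Wr.map T g)) := rfl
  have e2 : (univ.filter (fun g : Wr X H => g ∈ G ∧ Wr.map T g = 1)).card =
      cnt (ker T G) (fun _ => True) := by
    rw [cnt_ker]
    unfold cnt
    congr 1
    ext g
    simp
  rw [e1, e2] at h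
  rw [h]
  congr 1
  unfold cnt
  congr 1
  ext b
  simp [Subgroup.mem_map]

end step

end V1188.FP
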