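import Pool.Agent.V1188.FP1

namespace V1188.FP

open Finset Classical

set_option linter.unusedSectionVars false

variable {X H H' : Type} [Fintype X] [Group H] [Fintype H] [Group H'] [Fintype H']

/-- fixed vertices occur in at most one first-level subtree unless `g = 1`. -/
def Sep (Fx : H → Prop) (G : Subgroup (Wr X H)) : Prop :=
  ∀ g ∈ G, ∀ u v, u ≠ v → g.s u = u → Fx (g.f u) → g.s v = v → Fx (g.f v) → g = 1

/-- Consequence of the counting for a finite group with a family of subgroups. -/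
lemma kernel_arith {A : Type} [Group A] [Fintype A] (K : Subgroup A) (P : A → X → Prop)
    (d r : ℕ) (hd : d = Fintype.card X) (hd2 : 2 ≤ d)
    (hP1 : ∀ u, P 1 u) (hPall : ∀ g ∈ K, (∀ u, P g u) → g = 1)
    (hr : ∀ u, cnt K (fun g => P g u) = r) (hN : cnt K (fun _ => True) = d * r)
    (hpair : ∀ u v, u ≠ v → r ≤ d * cnt K (fun g => P g u ∧ P g v))
    (hδ : (d + 1) * cnt K (fun g => ∀ u, ¬ P g u) ≤ d * r) :
    r = d ∧ cnt K (fun g => ∀ u, ¬ P g u) = d - 1 ∧
      ∀ g ∈ K, ∀ u v, u ≠ v → P g u → P g v → g = 1 := by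
  set Γ : Finset A := univ.filter (fun g : A => g ∈ K) with hΓ
  set W : A → ℕ := fun g => (univ.filter (fun u : X => P g u)).card with hW
  set δ := cnt K (fun g => ∀ u, ¬ P g u) with hδdef
  have hΓc : Γ.card = d * r := by
    rw [← hN]; unfold cnt; congr 1; ext g; simp [hΓ]
  have h1Γ : (1 : A) ∈ Γ := by simp [hΓ, K.one_mem]
  have hW1 : W 1 = d := by
    simp only [hW]
    rw [Finset.filter_true_of_mem (by intro u _; exact hP1 u), Finset.card_univ, hd]
  have hWlt : ∀ g ∈ Γ, g ≠ 1 → W g + 1 ≤ d := by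
    intro g hg hg1
    by_contra hcon
    push Not at hcon
    have hle : W g ≤ d := by
      simp only [hW]
      calc _ ≤ (univ : Finset X).card := Finset.card_filter_le _ _
        _ = d := by rw [Finset.card_univ, hd]
    have hWd : W g = d := by omega
    have : univ.filter (fun u : X => P g u) = univ := by
      apply Finset.eq_univ_of_card
      rw [← hd]; exact hWd
    exact hg1 (hPall g (by simpa [hΓ] using hg) (fun u => by
      have := Finset.mem_univ u
      rw [← ‹univ.filter (fun u : X => P g u) = univ›] at this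
      simpa using this))
  have hsum : ∑ g ∈ Γ, W g = Γ.card := by
    have h1 : ∑ g ∈ Γ, W g = ∑ u : X, cnt K (fun g => P g u) := by
      simp only [hW, Finset.card_filter]
      rw [Finset.sum_comm]
      apply Finset.sum_congr rfl
      intro u _
      rw [← Finset.card_filter]
      unfold cnt
      congr 1
      ext g
      simp [hΓ]
    rw [h1, Finset.sum_congr rfl (fun u _ => hr u), Finset.sum_const, Finset.card_univ, ← hd, hΓc]
    simp
  have hkey := key_ineq Γ W 1 h1Γ d hd2 hW1 hWlt hsum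
  have hδeq : ((Γ.filter (fun g => W g = 0)).card : ℤ) = δ := by
    rw [hδdef]
    unfold cnt
    congr 2
    ext g
    simp [hΓ, hW, Finset.filter_eq_empty_iff]
  rw [hδeq] at hkey
  have hpairs : (∑ g ∈ Γ, (W g : ℤ) * ((W g : ℤ) - 1)) =
      ∑ p ∈ (univ : Finset X).offDiag, ((cnt K (fun g => P g p.1 ∧ P g p.2) : ℕ) : ℤ) := by
    rw [pair_sum Γ P]
    apply Finset.sum_congr rfl
    intro p _
    unfold cnt
    congr 2
    ext g
    simp [hΓ]
  rw [hpairs] at hkey
  have hoff : (((univ : Finset X).offDiag.card : ℕ) : ℤ) = (d : ℤ) * (d - 1) := by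
    rw [Finset.offDiag_card, Finset.card_univ, ← hd, Nat.cast_sub (Nat.le_mul_self _)]
    push_cast; ring
  have hpos : ∀ p ∈ (univ : Finset X).offDiag,
      (1 : ℤ) ≤ ((cnt K (fun g => P g p.1 ∧ P g p.2) : ℕ) : ℤ) := by
    intro p _
    have := cnt_one_pos K (fun g => P g p.1 ∧ P g p.2) ⟨hP1 _, hP1 _⟩
    exact_mod_cast this
  have hdZ : (2 : ℤ) ≤ d := by exact_mod_cast hd2
  have hδZ : ((d : ℤ) + 1) * δ ≤ d * r := by exact_mod_cast hδ
  -- lower bounds for the pair sum
  have hL1 : (d : ℤ) * (d - 1) ≤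
      ∑ p ∈ (univ : Finset X).offDiag, ((cnt K (fun g => P g p.1 ∧ P g p.2) : ℕ) : ℤ) := by
    have := Finset.card_nsmul_le_sum _ _ 1 hpos
    rw [nsmul_eq_mul, mul_one, hoff] at this
    exact this
  have hL2 : ((d : ℤ) - 1) * r ≤
      ∑ p ∈ (univ : Finset X).offDiag, ((cnt K (fun g => P g p.1 ∧ P g p.2) : ℕ) : ℤ) := by
    have h1 : ∀ p ∈ (univ : Finset X).offDiag,
        (r : ℤ) ≤ d * ((cnt K (fun g => P g p.1 ∧ P g p.2) : ℕ) : ℤ) := by
      intro p hp
      rw [mem_offDiag] at hp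
      exact_mod_cast hpair p.1 p.2 hp.2.2
    have h2 := Finset.card_nsmul_le_sum _ _ _ h1
    rw [← Finset.mul_sum, nsmul_eq_mul, hoff] at h2
    have h3 : (d : ℤ) * (((d : ℤ) - 1) * r) ≤ d *
      ∑ p ∈ (univ : Finset X).offDiag, ((cnt K (fun g => P g p.1 ∧ P g p.2) : ℕ) : ℤ) := by
      linarith
    exact le_of_mul_le_mul_left h3 (by linarith)
  set S := ∑ p ∈ (univ : Finset X).offDiag, ((cnt K (fun g => P g p.1 ∧ P g p.2) : ℕ) : ℤ) with hS
  -- r ≤ δ + 1, d ≤ δ + 1
  have hA : (r : ℤ) ≤ δ + 1 := by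
    have : ((d : ℤ) - 1) * r ≤ ((d : ℤ) - 1) * (δ + 1) := le_trans hL2 hkey
    exact le_of_mul_le_mul_left this (by linarith)
  have hB : (d : ℤ) ≤ δ + 1 := by
    have : ((d : ℤ) - 1) * d ≤ ((d : ℤ) - 1) * (δ + 1) := by linarith
    exact le_of_mul_le_mul_left this (by linarith)
  have hC : (r : ℤ) ≤ d + 1 := by nlinarith
  have hD : (d : ℤ) ≤ r := by
    by_contra hcon
    push Not at hcon
    have h1 : (r : ℤ) ≤ d - 1 := by linarith
    nlinarith
  have hrd : (r : ℤ) = d := by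
    by_contra hne
    have hr1 : (r : ℤ) = d + 1 := by
      have : (d : ℤ) + 1 ≤ r := by
        rcases lt_or_eq_of_le hD with h | h
        · linarith
        · exact absurd h.symm hne
      linarith
    have h2 : ∀ p ∈ (univ : Finset X).offDiag,
        (2 : ℤ) ≤ ((cnt K (fun g => P g p.1 ∧ P g p.2) : ℕ) : ℤ) := by
      intro p hp
      rw [mem_offDiag] at hp
      have h3 : (r : ℤ) ≤ d * ((cnt K (fun g => P g p.1 ∧ P g p.2) : ℕ) : ℤ) := by
        exact_mod_cast hpair p.1 p.2 hp.2.2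
      by_contra hcon
      push Not at hcon
      have h4 : ((cnt K (fun g => P g p.1 ∧ P g p.2) : ℕ) : ℤ) ≤ 1 := by linarith
      nlinarith
    have h5 := Finset.card_nsmul_le_sum _ _ _ h2
    rw [nsmul_eq_mul, hoff] at h5
    have h6 : ((d : ℤ) - 1) * (2 * d) ≤ ((d : ℤ) - 1) * (δ + 1) := by
      calc ((d : ℤ) - 1) * (2 * d) = (d : ℤ) * (d - 1) * 2 := by ring
        _ ≤ S := h5
        _ ≤ _ := hkey
    have h7 : (2 : ℤ) * d ≤ δ + 1 := le_of_mul_le_mul_left h6 (by linarith)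
    have h8 : (δ : ℤ) ≤ d := by
      have : ((d : ℤ) + 1) * δ ≤ ((d : ℤ) + 1) * d := by rw [hr1] at hδZ; linarith
      exact le_of_mul_le_mul_left this (by linarith)
    linarith
  have hδ1 : (δ : ℤ) ≤ d - 1 := by
    by_contra hcon
    push Not at hcon
    have : (d : ℤ) ≤ δ := by linarith
    rw [hrd] at hδZ
    nlinarith
  have hδ2 : (δ : ℤ) = d - 1 := by linarith
  refine ⟨by exact_mod_cast hrd, by omega, ?_⟩
  intro g hg u v huv hgu hgv
  by_contra hne
  have hmem : (u, v) ∈ (univ : Finset X).offDiag := by simp [huv]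
  have h2 : (2 : ℤ) ≤ ((cnt K (fun g => P g u ∧ P g v) : ℕ) : ℤ) := by
    have : 1 < cnt K (fun g => P g u ∧ P g v) := by
      unfold cnt
      apply Finset.one_lt_card.mpr
      exact ⟨1, by simp [K.one_mem, hP1], g, by simp [hg, hgu, hgv], fun h => hne h.symm⟩
    exact_mod_cast this
  have hsplit : S = ((cnt K (fun g => P g u ∧ P g v) : ℕ) : ℤ) +
      ∑ p ∈ (univ : Finset X).offDiag.erase (u, v),
        ((cnt K (fun g => P g p.1 ∧ P g p.2) : ℕ) : ℤ) := by
    rw [hS, ← Finset.add_sum_erase _ _ hmem]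
  have hrest : ((d : ℤ) * (d - 1) - 1) ≤ ∑ p ∈ (univ : Finset X).offDiag.erase (u, v),
        ((cnt K (fun g => P g p.1 ∧ P g p.2) : ℕ) : ℤ) := by
    have := Finset.card_nsmul_le_sum ((univ : Finset X).offDiag.erase (u, v))
      (fun p => ((cnt K (fun g => P g p.1 ∧ P g p.2) : ℕ) : ℤ)) 1
      (fun p hp => hpos p (Finset.mem_of_mem_erase hp))
    rw [nsmul_eq_mul, mul_one, Finset.card_erase_of_mem hmem] at this
    have hc : (((univ : Finset X).offDiag.card - 1 : ℕ) : ℤ) = (d : ℤ) * (d - 1) - 1 := by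
      rw [Nat.cast_sub (Finset.card_pos.mpr ⟨_, hmem⟩), hoff]; simp
    rw [hc] at this
    exact this
  have : S ≤ ((d : ℤ) - 1) * d := by
    calc S ≤ ((d : ℤ) - 1) * (δ + 1) := hkey
      _ = ((d : ℤ) - 1) * d := by rw [hδ2]; ring
  linarith

lemma cnt_true {A : Type} [Group A] [Fintype A] (S : Subgroup A) :
    cnt S (fun _ => True) = Nat.card S := by
  unfold cnt
  rw [Nat.card_eq_fintype_card, Fintype.card_subtype]
  congr 1
  ext g
  simp

lemma cnt_split {A : Type} [Group A] [Fintype A] (S : Subgroup A) (P Q : A → Prop) :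
    cnt S P = cnt S (fun g => P g ∧ Q g) + cnt S (fun g => P g ∧ ¬ Q g) := by
  unfold cnt
  rw [← Finset.card_union_of_disjoint]
  · congr 1
    ext g
    simp only [mem_filter, mem_univ, true_and, mem_union]
    tauto
  · rw [Finset.disjoint_left]
    intro g hg hg'
    simp only [mem_filter, mem_univ, true_and] at hg hg'
    exact hg'.2.2 hg.2.2

/-- number of values -/
noncomputable def img {A B : Type} [Group A] [Fintype B] (S : Subgroup A) (φ : A → B)
    (C : B → Prop) : ℕ := (univ.filter (fun b : B => (∃ g ∈ S, φ g = b) ∧ C b)).card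

lemma fiber_count' {A B : Type} [Group A] [Fintype A] [Group B] [Fintype B]
    (S : Subgroup A) (φ : A → B)
    (hφ : ∀ g ∈ S, ∀ h ∈ S, φ (g * h) = φ g * φ h) (C : B → Prop) :
    cnt S (fun g => C (φ g)) = cnt S (fun g => φ g = 1) * img S φ C := by
  have h := fiber_count S φ hφ C
  unfold cnt img
  convert h

/-- elements of `G` fixing `u` with trivial section there -/
def rist (G : Subgroup (Wr X H)) (u : X) : Subgroup (Wr X H) where
  carrier := {g | g ∈ G ∧ g.s u = u ∧ g.f u = 1}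
  one_mem' := ⟨G.one_mem, rfl, rfl⟩
  mul_mem' := by
    rintro a b ⟨ha, hau, hau'⟩ ⟨hb, hbu, hbu'⟩
    exact ⟨G.mul_mem ha hb, by simp [hau, hbu], by simp [hbu, hau', hbu']⟩
  inv_mem' := by
    rintro a ⟨ha, hau, hau'⟩
    have h1 : (a.s)⁻¹ u = u := by rw [Equiv.Perm.inv_eq_iff_eq]; exact hau.symm
    exact ⟨G.inv_mem ha, by simpa using h1, by simp [h1, hau']⟩

lemma mem_rist {G : Subgroup (Wr X H)} {u : X} {g : Wr X H} :
    g ∈ rist G u ↔ g ∈ G ∧ g.s u = u ∧ g.f u = 1 := Iff.rfl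

lemma cnt_rist (G : Subgroup (Wr X H)) (u : X) (P : Wr X H → Prop) :
    cnt (rist G u) P = cnt G (fun g => (g.s u = u ∧ g.f u = 1) ∧ P g) := by
  unfold cnt
  congr 1
  ext g
  simp only [mem_filter, mem_univ, true_and, mem_rist]
  tauto

lemma conj_f {c g : Wr X H} (hg : g.s = 1) {u v : X} (hc : c.s u = v) :
    (c * g * c⁻¹).f v = c.f u * g.f u * (c.f u)⁻¹ := by
  have h1 : (c.s)⁻¹ v = u := by rw [Equiv.Perm.inv_eq_iff_eq]; exact hc.symm
  simp [h1, hg]

lemma step (T : H →* H') (Fx : H → Prop) (Fx' : H' → Prop) (hFT : ∀ h, Fx h → Fx' (T h))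
    (hFx1 : Fx 1) (G : Subgroup (Wr X H)) (d : ℕ) (hd : d = Fintype.card X)
    (hd2 : 2 ≤ d) (htr : ∀ u v, ∃ g ∈ G, g.s u = v)
    (h1 : ∀ u, cnt (Wr.sec G u) (fun _ => True) = cnt (G.map (Wr.map T)) (fun _ => True))
    (h2 : ∀ u, cnt (Wr.sec G u) (fun h => T h = 1 ∧ ¬ Fx h) = d - 1)
    (h3 : Sep Fx' (G.map (Wr.map T)))
    (h4 : ((d : ℤ) ^ 2 - 1) * cnt (G.map (Wr.map T)) (Wr.Fix Fx') =
      ((d : ℤ) ^ 2 - d - 1) * cnt (G.map (Wr.map T)) (fun _ => True) + (d - 1))
    (h5 : ((d : ℤ) ^ 2 - d - 1) * cnt G (fun _ => True) ≤ ((d : ℤ) ^ 2 - 1) * cnt G (Wr.Fix Fx)) :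
    cnt G (fun _ => True) = d ^ 2 * cnt (G.map (Wr.map T)) (fun _ => True) ∧
    cnt G (fun g => Wr.map T g = 1 ∧ ¬ Wr.Fix Fx g) = d - 1 ∧
    Sep Fx G ∧
    ((d : ℤ) ^ 2 - 1) * cnt G (Wr.Fix Fx) =
      ((d : ℤ) ^ 2 - d - 1) * cnt G (fun _ => True) + (d - 1) := by
  set K := ker T G with hK
  set N := cnt K (fun _ => True) with hN
  set a' := cnt (G.map (Wr.map T)) (fun _ => True) with ha'
  set F' := cnt (G.map (Wr.map T)) (Wr.Fix Fx') with hF'
  set F := cnt G (Wr.Fix Fx) with hF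
  set a := cnt G (fun _ => True) with ha
  have hne : Nonempty X := by
    rw [← Fintype.card_pos_iff, ← hd]; omega
  obtain ⟨u0⟩ := hne
  have haN : a = N * a' := map_count T G (fun _ => True)
  have ha'pos : 0 < a' := cnt_one_pos _ _ trivial
  have hNpos : 0 < N := cnt_one_pos _ _ trivial
  set r := cnt G (fun g => g.s u0 = u0 ∧ g.f u0 = 1) with hr
  have hNr' : ∀ u, N = d * cnt G (fun g => g.s u = u ∧ g.f u = 1) := by
    intro u
    have e1 := sec_count G u (fun _ => True)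
    have e2 : cnt G (fun g => g.s u = u ∧ True) = cnt G (fun g => g.s u = u) :=
      cnt_congr G (fun g _ => by simp)
    rw [e2, h1 u] at e1
    have e3 := orbit_stab G htr u
    rw [e1, ← hd, ← ha, haN] at e3
    have : N * a' = (d * cnt G (fun g => g.s u = u ∧ g.f u = 1)) * a' := by rw [e3]; ring
    exact Nat.eq_of_mul_eq_mul_right ha'pos this
  have hNr : N = d * r := hNr' u0
  have hru : ∀ u, cnt G (fun g => g.s u = u ∧ g.f u = 1) = r := by
    intro u
    have := hNr' u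
    rw [hNr] at this
    exact (Nat.eq_of_mul_eq_mul_left (by omega) this).symm
  have hrpos : 0 < r := by
    rcases Nat.eq_zero_or_pos r with h | h
    · rw [h] at hNr; omega
    · exact h
  have hZ : ∀ u, cnt G (fun g => g.s u = u ∧ (T (g.f u) = 1 ∧ ¬ Fx (g.f u))) = r * (d - 1) := by
    intro u
    rw [sec_count G u (fun h => T h = 1 ∧ ¬ Fx h), hru u, h2 u]
  -- κ
  set κ := cnt K (fun g => g.f u0 = 1) with hκ
  have hκle : ∀ u v, cnt K (fun g => g.f u = 1) ≤ cnt K (fun g => g.f v = 1) := by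
    intro u v
    obtain ⟨c, hc, hcu⟩ := htr u v
    rw [hK, cnt_ker, cnt_ker]
    apply cnt_conj G hc
    rintro g hg ⟨hg1, hg2⟩
    have hs := (map_eq_one hg1).1
    refine ⟨?_, ?_⟩
    · rw [map_mul, map_mul, hg1, map_inv]; group
    · rw [conj_f hs hcu, hg2]; group
  have hκu : ∀ u, cnt K (fun g => g.f u = 1) = κ := fun u =>
    le_antisymm (hκle u u0) (hκle u0 u)
  have hκr : κ ∣ r := by
    have e1 : κ = Nat.card (K ⊓ rist G u0 : Subgroup (Wr X H)) := by
      rw [← cnt_true, hκ]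
      unfold cnt
      congr 1
      ext g
      simp only [mem_filter, mem_univ, true_and, Subgroup.mem_inf, mem_rist, and_true]
      constructor
      · rintro ⟨hg, hg'⟩
        have := mem_ker.mp hg
        refine ⟨hg, this.1, ?_, hg'⟩
        rw [(map_eq_one this.2).1]; rfl
      · rintro ⟨hg, -, -, hg'⟩
        exact ⟨hg, hg'⟩
    have e2 : r = Nat.card (rist G u0) := by
      rw [← cnt_true, cnt_rist]
      exact cnt_congr G (fun g _ => by simp)
    rw [e1, e2]
    exact Subgroup.card_dvd_of_le inf_le_right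
  have hκpos : 0 < κ := cnt_one_pos K (fun g => g.f u0 = 1) rfl
  -- multiplicativity of sections on K
  have hKs : ∀ g ∈ K, g.s = 1 := fun g hg => (map_eq_one (mem_ker.mp hg).2).1
  have hKT : ∀ g ∈ K, ∀ u, T (g.f u) = 1 := fun g hg => (map_eq_one (mem_ker.mp hg).2).2
  have hKm : ∀ u, ∀ g ∈ K, ∀ h ∈ K, (g * h).f u = g.f u * h.f u := by
    intro u g _ h hh
    simp [hKs h hh]
  -- z
  have hzj : ∀ u, ∃ j, j ≤ d - 1 ∧ cnt K (fun g => ¬ Fx (g.f u)) = κ * j := by
    intro u
    have e := fiber_count K (fun g : Wr X H => g.f u) (hKm u) (fun b => ¬ Fx b)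
    refine ⟨(univ.filter (fun b : H => (∃ g ∈ K, g.f u = b) ∧ ¬ Fx b)).card, ?_, ?_⟩
    · rw [← h2 u]
      unfold cnt
      apply Finset.card_le_card
      intro b hb
      simp only [mem_filter, mem_univ, true_and] at hb ⊢
      obtain ⟨⟨g, hg, rfl⟩, hb2⟩ := hb
      exact ⟨⟨g, (mem_ker.mp hg).1, by rw [hKs g hg]; rfl, rfl⟩, hKT g hg u, hb2⟩
    · rw [← hκu u]
      unfold cnt
      convert e
  -- Lost
  set L := cnt G (fun g => Wr.Fix Fx' (Wr.map T g) ∧ ¬ Wr.Fix Fx g) with hL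
  have hFixT : ∀ g : Wr X H, Wr.Fix Fx g → Wr.Fix Fx' (Wr.map T g) := by
    rintro g ⟨u, hu, hu'⟩
    exact ⟨u, hu, hFT _ hu'⟩
  have hFL : N * F' = F + L := by
    rw [← map_count T G (Wr.Fix Fx'), cnt_split G _ (Wr.Fix Fx)]
    congr 1
    exact cnt_congr G (fun g _ => ⟨fun h => h.2, fun h => ⟨hFixT g h, h⟩⟩)
  have hdZ : (2 : ℤ) ≤ d := by exact_mod_cast hd2
  have hLN : (d + 1) * L ≤ N := by
    have e1 : (N : ℤ) * F' = F + L := by exact_mod_cast hFL
    have e2 : (a : ℤ) = N * a' := by exact_mod_cast haN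
    have e3 : ((d : ℤ) - 1) * (((d : ℤ) + 1) * L) ≤ ((d : ℤ) - 1) * N := by
      have : ((d : ℤ) ^ 2 - 1) * L = N * (((d : ℤ) ^ 2 - 1) * F') - ((d : ℤ) ^ 2 - 1) * F := by
        have : (L : ℤ) = N * F' - F := by linarith
        rw [this]; ring
      rw [h4] at this
      have e4 : ((d : ℤ) - 1) * (((d : ℤ) + 1) * L) = ((d : ℤ) ^ 2 - 1) * L := by ring
      rw [e4, this]
      rw [e2] at h5
      nlinarith
    have := le_of_mul_le_mul_left e3 (by linarith)
    exact_mod_cast this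
  -- lower bound for L
  set δ := cnt G (fun g => Wr.map T g = 1 ∧ ¬ Wr.Fix Fx g) with hδ
  set Zs : X → Finset (Wr X H) := fun u => univ.filter (fun g => g ∈ G ∧
    ((g.s u = u ∧ (T (g.f u) = 1 ∧ ¬ Fx (g.f u))) ∧ ¬ (Wr.map T g = 1))) with hZs
  have hZc : ∀ u, (Zs u).card + cnt K (fun g => ¬ Fx (g.f u)) = r * (d - 1) := by
    intro u
    rw [← hZ u, cnt_split G _ (fun g => Wr.map T g = 1), add_comm]
    have ez : (Zs u).card = cnt G (fun g => (g.s u = u ∧ (T (g.f u) = 1 ∧ ¬ Fx (g.f u))) ∧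
        ¬ (Wr.map T g = 1)) := by
      unfold cnt
      simp only [hZs]
    rw [ez]
    congr 1
    rw [hK, cnt_ker]
    apply cnt_congr
    intro g hg
    constructor
    · rintro ⟨hg1, hg2⟩
      have := map_eq_one hg1
      exact ⟨⟨by rw [this.1]; rfl, this.2 u, hg2⟩, hg1⟩
    · rintro ⟨⟨_, _, hg2⟩, hg1⟩
      exact ⟨hg1, hg2⟩
  have hlow : ∑ u, (Zs u).card + δ ≤ L := by
    have hdisj : ∀ u ∈ (univ : Finset X), ∀ v ∈ (univ : Finset X), u ≠ v →
        Disjoint (Zs u) (Zs v) := by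
      intro u _ v _ huv
      rw [Finset.disjoint_left]
      intro g hgu hgv
      simp only [hZs, mem_filter, mem_univ, true_and] at hgu hgv
      apply hgu.2.2
      refine h3 _ ⟨g, hgu.1, rfl⟩ u v huv hgu.2.1.1 ?_ hgv.2.1.1 ?_
      · rw [Wr.map_f, hgu.2.1.2.1, ← map_one T]; exact hFT 1 hFx1
      · rw [Wr.map_f, hgv.2.1.2.1, ← map_one T]; exact hFT 1 hFx1
    rw [← Finset.card_biUnion hdisj]
    have hδ' : δ = (univ.filter (fun g : Wr X H => g ∈ G ∧ (Wr.map T g = 1 ∧ ¬ Wr.Fix Fx g))).card := by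
      rw [hδ]; unfold cnt; congr
    rw [hδ', ← Finset.card_union_of_disjoint]
    · rw [hL]
      unfold cnt
      apply Finset.card_le_card
      intro g hg
      rw [mem_union] at hg
      rcases hg with hg | hg
      · rw [mem_biUnion] at hg
        obtain ⟨u, -, hg⟩ := hg
        simp only [hZs, mem_filter, mem_univ, true_and] at hg ⊢
        refine ⟨hg.1, ?_, ?_⟩
        · exact ⟨u, hg.2.1.1, by rw [Wr.map_f, hg.2.1.2.1, ← map_one T]; exact hFT 1 hFx1⟩
        · rintro ⟨v, hv, hv'⟩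
          by_cases huv : u = v
          · subst huv
            exact hg.2.1.2.2 hv'
          · apply hg.2.2
            refine h3 _ ⟨g, hg.1, rfl⟩ u v huv hg.2.1.1 ?_ hv ?_
            · rw [Wr.map_f, hg.2.1.2.1, ← map_one T]; exact hFT 1 hFx1
            · exact hFT _ hv'
      · simp only [mem_filter, mem_univ, true_and] at hg ⊢
        refine ⟨hg.1, ?_, hg.2.2⟩
        rw [hg.2.1]
        exact ⟨u0, rfl, by rw [Wr.one_f, ← map_one T]; exact hFT 1 hFx1⟩
    · rw [Finset.disjoint_left]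
      intro g hg hg'
      rw [mem_biUnion] at hg
      obtain ⟨u, -, hg⟩ := hg
      simp only [hZs, mem_filter, mem_univ, true_and] at hg hg'
      exact hg.2.2 hg'.2.1
  -- κ = r
  obtain ⟨m, hm⟩ := hκr
  have hd1 : d = (d - 1) + 1 := by omega
  have hκr' : κ = r := by
    by_contra hne
    have hm2 : 2 ≤ m := by
      rcases m with _ | _ | m
      · rw [hm] at hrpos; simp at hrpos
      · exact absurd (by rw [hm]; ring) hne
      · omega
    have h2κ : 2 * κ ≤ r := by rw [hm]; nlinarith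
    have hZlow : ∀ u, (d - 1) * r ≤ (Zs u).card + (d - 1) * κ := by
      intro u
      obtain ⟨j, hj, hj'⟩ := hzj u
      have := hZc u
      rw [hj'] at this
      have h6 : κ * j ≤ (d - 1) * κ := by rw [mul_comm κ j]; exact Nat.mul_le_mul_right _ hj
      calc (d - 1) * r = r * (d - 1) := mul_comm _ _
        _ = (Zs u).card + κ * j := this.symm
        _ ≤ _ := by omega
    have hsumlow : d * ((d - 1) * r) ≤ ∑ u, (Zs u).card + d * ((d - 1) * κ) := by
      have := Finset.sum_le_sum (s := (univ : Finset X)) (fun u _ => hZlow u)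
      rw [Finset.sum_add_distrib, Finset.sum_const, Finset.sum_const, Finset.card_univ, ← hd] at this
      simpa using this
    obtain ⟨e, he⟩ : ∃ e, d = e + 1 := ⟨d - 1, hd1⟩
    rw [he] at hsumlow hLN hNr
    simp only [Nat.add_sub_cancel] at hsumlow
    have he1 : 1 ≤ e := by omega
    have hLl : ∑ u, (Zs u).card ≤ L := by omega
    rw [hNr] at hLN
    nlinarith [mul_pos (show 0 < e by omega) hrpos, Nat.mul_le_mul_left ((e+1)*e) h2κ,
      Nat.mul_le_mul_left (e+1+1) hsumlow, Nat.mul_le_mul_left (e+1+1) hLl]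
  have hzu : ∀ u, cnt K (fun g => ¬ Fx (g.f u)) = (d - 1) * r := by
    intro u
    obtain ⟨j, hj, hj'⟩ := hzj u
    rcases Nat.lt_or_ge j (d - 1) with hlt | hge
    · exfalso
      have hz := hZc u
      rw [hj', hκr'] at hz
      have h6 : r * j + r ≤ r * (d - 1) := by
        have : r * (j + 1) ≤ r * (d - 1) := Nat.mul_le_mul_left _ hlt
        linarith
      have h7 : r ≤ (Zs u).card := by omega
      have h8 : (Zs u).card ≤ ∑ v, (Zs v).card :=
        Finset.single_le_sum (f := fun v => (Zs v).card) (fun _ _ => Nat.zero_le _) (mem_univ u)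
      have h9 : r ≤ L := by omega
      rw [hNr] at hLN
      nlinarith
    · have : j = d - 1 := le_antisymm hj hge
      rw [hj', this, hκr', mul_comm]
  have hdich : ∀ g ∈ K, ∀ u, g.f u = 1 ∨ ¬ Fx (g.f u) := by
    intro g hg u
    by_contra hcon
    push Not at hcon
    have e1 : cnt K (fun g => g.f u = 1) + cnt K (fun g => ¬ Fx (g.f u)) = N := by
      rw [hκu u, hzu u, hκr', hNr]
      obtain ⟨e, he⟩ : ∃ e, d = e + 1 := ⟨d - 1, hd1⟩
      rw [he]; simp only [Nat.add_sub_cancel]; ring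
    have e2 : N = cnt K (fun g => True ∧ g.f u = 1) + cnt K (fun g => True ∧ ¬ g.f u = 1) :=
      cnt_split K _ (fun g => g.f u = 1)
    have e3 : cnt K (fun g => True ∧ ¬ g.f u = 1) =
      cnt K (fun g => (True ∧ ¬ g.f u = 1) ∧ ¬ Fx (g.f u)) +
      cnt K (fun g => (True ∧ ¬ g.f u = 1) ∧ ¬ ¬ Fx (g.f u)) :=
      cnt_split K _ (fun g => ¬ Fx (g.f u))
    have e4 : cnt K (fun g => (True ∧ ¬ g.f u = 1) ∧ ¬ Fx (g.f u)) =
        cnt K (fun g => ¬ Fx (g.f u)) := by
      apply cnt_congr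
      intro k _
      constructor
      · exact fun h => h.2
      · intro h
        exact ⟨⟨trivial, fun h' => h (by rw [h']; exact hFx1)⟩, h⟩
    have e5 : cnt K (fun g => True ∧ g.f u = 1) = cnt K (fun g => g.f u = 1) :=
      cnt_congr K (fun k _ => by simp)
    have e6 : 0 < cnt K (fun g => (True ∧ ¬ g.f u = 1) ∧ ¬ ¬ Fx (g.f u)) := by
      unfold cnt
      apply Finset.card_pos.mpr
      exact ⟨g, by simp [hg, hcon.1, hcon.2]⟩
    omega
  -- pairs
  have hpair : ∀ u v, u ≠ v → r ≤ d * cnt K (fun g => g.f u = 1 ∧ g.f v = 1) := by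
    intro u v _
    have e1 := fiber_count' (K ⊓ rist G u) (fun g : Wr X H => g.f v)
      (fun g hg h hh => hKm v g hg.1 h hh.1) (fun _ => True)
    have e2 : cnt (K ⊓ rist G u) (fun _ => True) = r := by
      rw [← hκr', ← hκu u]
      unfold cnt
      congr 1
      ext g
      simp only [mem_filter, mem_univ, true_and, Subgroup.mem_inf, mem_rist, and_true]
      constructor
      · rintro ⟨hg, -, -, hg'⟩
        exact ⟨hg, hg'⟩
      · rintro ⟨hg, hg'⟩
        exact ⟨hg, (mem_ker.mp hg).1, by rw [hKs g hg]; rfl, hg'⟩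
    have e3 : cnt (K ⊓ rist G u) (fun g => g.f v = 1) =
        cnt K (fun g => g.f u = 1 ∧ g.f v = 1) := by
      unfold cnt
      congr 1
      ext g
      simp only [mem_filter, mem_univ, true_and, Subgroup.mem_inf, mem_rist]
      constructor
      · rintro ⟨⟨hg, -, -, hg'⟩, hg2⟩
        exact ⟨hg, hg', hg2⟩
      · rintro ⟨hg, hg', hg2⟩
        exact ⟨⟨hg, (mem_ker.mp hg).1, by rw [hKs g hg]; rfl, hg'⟩, hg2⟩
    rw [e2, e3] at e1
    have f1 := fiber_count' K (fun g : Wr X H => g.f v) (hKm v) (fun _ => True)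
    rw [hκu v, hκr', ← hN, hNr, mul_comm r] at f1
    have f4 := Nat.eq_of_mul_eq_mul_right hrpos f1
    have f5 : img (K ⊓ rist G u) (fun g : Wr X H => g.f v) (fun _ => True) ≤ d := by
      rw [f4]
      unfold img
      apply Finset.card_le_card
      intro b hb
      simp only [mem_filter, mem_univ, true_and, and_true] at hb ⊢
      obtain ⟨g, hg, hg'⟩ := hb
      exact ⟨g, hg.1, hg'⟩
    rw [e1, mul_comm d]
    exact Nat.mul_le_mul_left _ f5
  have hδK : cnt K (fun g => ∀ u, ¬ g.f u = 1) = δ := by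
    rw [hδ, hK, cnt_ker]
    apply cnt_congr
    intro g hg
    constructor
    · rintro ⟨hg1, hg2⟩
      refine ⟨hg1, ?_⟩
      rintro ⟨u, hu, hu'⟩
      rcases hdich g (mem_ker.mpr ⟨hg, hg1⟩) u with h | h
      · exact hg2 u h
      · exact h hu'
    · rintro ⟨hg1, hg2⟩
      refine ⟨hg1, ?_⟩
      intro u hu
      apply hg2
      exact ⟨u, by rw [(map_eq_one hg1).1]; rfl, by rw [hu]; exact hFx1⟩
  have hδL : (d + 1) * δ ≤ d * r := by
    rw [← hNr]
    calc (d + 1) * δ ≤ (d + 1) * L := Nat.mul_le_mul_left _ (by omega)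
      _ ≤ N := hLN
  obtain ⟨hrd, hδd, hsep⟩ := kernel_arith K (fun g u => g.f u = 1) d r hd hd2 (fun _ => rfl)
    (by
      intro g hg hall
      ext x
      · rw [hKs g hg]; rfl
      · exact hall x)
    (fun u => by rw [hκu u, hκr']) (by rw [← hNr]) hpair (by rw [hδK]; exact hδL)
  rw [hδK] at hδd
  have hN2 : N = d ^ 2 := by rw [hNr, hrd]; ring
  have hLd : L = d - 1 := by
    have e1 : δ ≤ L := by omega
    have e2 : L ≤ d - 1 := by
      by_contra hcon
      push Not at hcon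
      have : d ≤ L := by omega
      rw [hN2] at hLN
      nlinarith
    omega
  refine ⟨by rw [haN, hN2], hδd, ?_, ?_⟩
  · intro g hg u v huv hu hFu hv hFv
    have hg1 : Wr.map T g = 1 := h3 _ ⟨g, hg, rfl⟩ u v huv hu (hFT _ hFu) hv (hFT _ hFv)
    have hgK : g ∈ K := mem_ker.mpr ⟨hg, hg1⟩
    have hu1 : g.f u = 1 := by
      rcases hdich g hgK u with h | h
      · exact h
      · exact absurd hFu h
    have hv1 : g.f v = 1 := by
      rcases hdich g hgK v with h | h
      · exact h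
      · exact absurd hFv h
    exact hsep g hgK u v huv hu1 hv1
  · have e1 : (N : ℤ) * F' = F + L := by exact_mod_cast hFL
    have e2 : (a : ℤ) = N * a' := by exact_mod_cast haN
    have e3 : (N : ℤ) = d ^ 2 := by exact_mod_cast hN2
    have e4 : (L : ℤ) = d - 1 := by rw [hLd]; push_cast [Nat.cast_sub (show 1 ≤ d by omega)]; ring
    have e5 : (F : ℤ) = d ^ 2 * F' - (d - 1) := by rw [← e3, e1, e4]; ring
    rw [e5, e2, e3]
    have : ((d : ℤ) ^ 2 - 1) * (d ^ 2 * F' - (d - 1)) =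
      d ^ 2 * (((d : ℤ) ^ 2 - 1) * F') - ((d : ℤ) ^ 2 - 1) * (d - 1) := by ring
    rw [this, h4]; ring

end V1188.FP
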