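import Pool.Agent.V1188.FP2

namespace V1188.FP

open Finset Classical

set_option linter.unusedSectionVars false

section base

variable {X H : Type} [Fintype X] [Group H] [Fintype H]

/-- arithmetic of a finite group `G` acting transitively, at the first level -/
lemma base_arith {A : Type} [Group A] [Fintype A] (K : Subgroup A) (P : A → X → Prop)
    (d r : ℕ) (hd : d = Fintype.card X) (hd2 : 2 ≤ d)
    (hP1 : ∀ u, P 1 u) (hPall : ∀ g ∈ K, (∀ u, P g u) → g = 1)
    (hr : ∀ u, cnt K (fun g => P g u) = r) (hN : cnt K (fun _ => True) = d * r)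
    (hpair : ∀ u v, u ≠ v → r ≤ (d - 1) * cnt K (fun g => P g u ∧ P g v))
    (hδ : (d ^ 2 - 1) * cnt K (fun g => ∀ u, ¬ P g u) ≤ d ^ 2 * r) :
    r = d - 1 ∧ cnt K (fun g => ∀ u, ¬ P g u) = d - 1 ∧
      ∀ g ∈ K, ∀ u v, u ≠ v → P g u → P g v → g = 1 := by
  set Γ : Finset A := univ.filter (fun g : A => g ∈ K) with hΓ
  set W : A → ℕ := fun g => (univ.filter (fun u : X => P g u)).card with hW
  set δ := cnt K (fun g => ∀ u, ¬ P g u) with hδdef
  have hΓc : Γ.card = d * r := by
    rw [← hN]; unfold cnt; congr 1; ext g; simp [hΓ]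
  have h1Γ : (1 : A) ∈ Γ := by simp [hΓ, K.one_mem]
  have hW1 : W 1 = d := by
    simp only [hW]
    rw [Finset.filter_true_of_mem (by intro u _; exact hP1 u), Finset.card_univ, hd]
  have hWlt : ∀ g ∈ Γ, g ≠ 1 → W g + 1 ≤ d := by
    intro g hg hg1
    by_contra hcon
    push Not at hcon
    have hle : W g ≤ d := by
      simp only [hW]
      calc _ ≤ (univ : Finset X).card := Finset.card_filter_le _ _
        _ = d := by rw [Finset.card_univ, hd]
    have hWd : W g = d := by omega
    have : univ.filter (fun u : X => P g u) = univ := by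
      apply Finset.eq_univ_of_card
      rw [← hd]; exact hWd
    exact hg1 (hPall g (by simpa [hΓ] using hg) (fun u => by
      have := Finset.mem_univ u
      rw [← ‹univ.filter (fun u : X => P g u) = univ›] at this
      simpa using this))
  have hsum : ∑ g ∈ Γ, W g = Γ.card := by
    have h1 : ∑ g ∈ Γ, W g = ∑ u : X, cnt K (fun g => P g u) := by
      simp only [hW, Finset.card_filter]
      rw [Finset.sum_comm]
      apply Finset.sum_congr rfl
      intro u _
      rw [← Finset.card_filter]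
      unfold cnt
      congr 1
      ext g
      simp [hΓ]
    rw [h1, Finset.sum_congr rfl (fun u _ => hr u), Finset.sum_const, Finset.card_univ, ← hd, hΓc]
    simp
  have hkey := key_ineq Γ W 1 h1Γ d hd2 hW1 hWlt hsum
  have hδeq : ((Γ.filter (fun g => W g = 0)).card : ℤ) = δ := by
    rw [hδdef]
    unfold cnt
    congr 2
    ext g
    simp [hΓ, hW, Finset.filter_eq_empty_iff]
  rw [hδeq] at hkey
  have hpairs : (∑ g ∈ Γ, (W g : ℤ) * ((W g : ℤ) - 1)) =
      ∑ p ∈ (univ : Finset X).offDiag, ((cnt K (fun g => P g p.1 ∧ P g p.2) : ℕ) : ℤ) := by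
    rw [pair_sum Γ P]
    apply Finset.sum_congr rfl
    intro p _
    unfold cnt
    congr 2
    ext g
    simp [hΓ]
  rw [hpairs] at hkey
  have hoff : (((univ : Finset X).offDiag.card : ℕ) : ℤ) = (d : ℤ) * (d - 1) := by
    rw [Finset.offDiag_card, Finset.card_univ, ← hd, Nat.cast_sub (Nat.le_mul_self _)]
    push_cast; ring
  have hpos : ∀ p ∈ (univ : Finset X).offDiag,
      (1 : ℤ) ≤ ((cnt K (fun g => P g p.1 ∧ P g p.2) : ℕ) : ℤ) := by
    intro p _
    have := cnt_one_pos K (fun g => P g p.1 ∧ P g p.2) ⟨hP1 _, hP1 _⟩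
    exact_mod_cast this
  have hdZ : (2 : ℤ) ≤ d := by exact_mod_cast hd2
  have hd21 : 1 ≤ d ^ 2 := by nlinarith
  have hδZ : ((d : ℤ) ^ 2 - 1) * δ ≤ d ^ 2 * r := by
    have := hδ
    zify [hd21] at this
    exact this
  have hL1 : (d : ℤ) * (d - 1) ≤
      ∑ p ∈ (univ : Finset X).offDiag, ((cnt K (fun g => P g p.1 ∧ P g p.2) : ℕ) : ℤ) := by
    have := Finset.card_nsmul_le_sum _ _ 1 hpos
    rw [nsmul_eq_mul, mul_one, hoff] at this
    exact this
  have hL2 : (d : ℤ) * r ≤
      ∑ p ∈ (univ : Finset X).offDiag, ((cnt K (fun g => P g p.1 ∧ P g p.2) : ℕ) : ℤ) := by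
    have h1 : ∀ p ∈ (univ : Finset X).offDiag,
        (r : ℤ) ≤ (d - 1) * ((cnt K (fun g => P g p.1 ∧ P g p.2) : ℕ) : ℤ) := by
      intro p hp
      rw [mem_offDiag] at hp
      have := hpair p.1 p.2 hp.2.2
      zify [show 1 ≤ d by omega] at this
      exact this
    have h2 := Finset.card_nsmul_le_sum _ _ _ h1
    rw [← Finset.mul_sum, nsmul_eq_mul, hoff] at h2
    have h3 : ((d : ℤ) - 1) * ((d : ℤ) * r) ≤ (d - 1) *
      ∑ p ∈ (univ : Finset X).offDiag, ((cnt K (fun g => P g p.1 ∧ P g p.2) : ℕ) : ℤ) := by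
      linarith
    exact le_of_mul_le_mul_left h3 (by linarith)
  set S := ∑ p ∈ (univ : Finset X).offDiag, ((cnt K (fun g => P g p.1 ∧ P g p.2) : ℕ) : ℤ) with hS
  have hB : (d : ℤ) ≤ δ + 1 := by
    have : ((d : ℤ) - 1) * d ≤ ((d : ℤ) - 1) * (δ + 1) := by linarith
    exact le_of_mul_le_mul_left this (by linarith)
  have hA : (d : ℤ) * r ≤ (d - 1) * (δ + 1) := le_trans hL2 hkey
  have hC : (r : ℤ) ≤ d - 1 := by
    by_contra hcon
    push Not at hcon
    have h1 : (d : ℤ) ≤ r := by linarith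
    have h2 : ((d : ℤ) + 1) * (d * r) ≤ (d + 1) * ((d - 1) * (δ + 1)) :=
      mul_le_mul_of_nonneg_left hA (by linarith)
    nlinarith
  have hD : (d : ℤ) - 1 ≤ r := by
    by_contra hcon
    push Not at hcon
    have h1 : (r : ℤ) ≤ d - 2 := by linarith
    have h2 : ((d : ℤ) ^ 2 - 1) * (d - 1) ≤ d ^ 2 * r := by
      have : ((d : ℤ) ^ 2 - 1) * (d - 1) ≤ ((d : ℤ) ^ 2 - 1) * δ :=
        mul_le_mul_of_nonneg_left (by linarith) (by nlinarith)
      linarith
    have h3 : (d : ℤ) ^ 2 * r ≤ d ^ 2 * (d - 2) := mul_le_mul_of_nonneg_left h1 (by positivity)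
    nlinarith
  have hrd : (r : ℤ) = d - 1 := le_antisymm hC hD
  have hδ1 : (δ : ℤ) ≤ d - 1 := by
    by_contra hcon
    push Not at hcon
    have h1 : (d : ℤ) ≤ δ := by linarith
    have h2 : ((d : ℤ) ^ 2 - 1) * d ≤ ((d : ℤ) ^ 2 - 1) * δ :=
      mul_le_mul_of_nonneg_left h1 (by nlinarith)
    rw [hrd] at hδZ
    nlinarith
  have hδ2 : (δ : ℤ) = d - 1 := by linarith
  refine ⟨by omega, by omega, ?_⟩
  intro g hg u v huv hgu hgv
  by_contra hne
  have hmem : (u, v) ∈ (univ : Finset X).offDiag := by simp [huv]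
  have h2 : (2 : ℤ) ≤ ((cnt K (fun g => P g u ∧ P g v) : ℕ) : ℤ) := by
    have : 1 < cnt K (fun g => P g u ∧ P g v) := by
      unfold cnt
      apply Finset.one_lt_card.mpr
      exact ⟨1, by simp [K.one_mem, hP1], g, by simp [hg, hgu, hgv], fun h => hne h.symm⟩
    exact_mod_cast this
  have hsplit : S = ((cnt K (fun g => P g u ∧ P g v) : ℕ) : ℤ) +
      ∑ p ∈ (univ : Finset X).offDiag.erase (u, v),
        ((cnt K (fun g => P g p.1 ∧ P g p.2) : ℕ) : ℤ) := by
    rw [hS, ← Finset.add_sum_erase _ _ hmem]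
  have hrest : ((d : ℤ) * (d - 1) - 1) ≤ ∑ p ∈ (univ : Finset X).offDiag.erase (u, v),
        ((cnt K (fun g => P g p.1 ∧ P g p.2) : ℕ) : ℤ) := by
    have := Finset.card_nsmul_le_sum ((univ : Finset X).offDiag.erase (u, v))
      (fun p => ((cnt K (fun g => P g p.1 ∧ P g p.2) : ℕ) : ℤ)) 1
      (fun p hp => hpos p (Finset.mem_of_mem_erase hp))
    rw [nsmul_eq_mul, mul_one, Finset.card_erase_of_mem hmem] at this
    have hc : (((univ : Finset X).offDiag.card - 1 : ℕ) : ℤ) = (d : ℤ) * (d - 1) - 1 := by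
      rw [Nat.cast_sub (Finset.card_pos.mpr ⟨_, hmem⟩), hoff]; simp
    rw [hc] at this
    exact this
  have : S ≤ ((d : ℤ) - 1) * d := by
    calc S ≤ ((d : ℤ) - 1) * (δ + 1) := hkey
      _ = ((d : ℤ) - 1) * d := by rw [hδ2]; ring
  linarith

/-- two-point stabilisers have index at most `d - 1` in point stabilisers -/
lemma two_stab (G : Subgroup (Wr X H)) (u v : X) (huv : u ≠ v) :
    cnt G (fun g => g.s u = u) ≤
      (Fintype.card X - 1) * cnt G (fun g => g.s u = u ∧ g.s v = v) := by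
  have h0 : cnt G (fun g => g.s u = u) =
      (univ.filter (fun g : Wr X H => g ∈ G ∧ g.s u = u)).card := by
    unfold cnt; congr
  rw [h0, Finset.card_eq_sum_card_fiberwise (f := fun g : Wr X H => g.s v) (t := univ.erase u)]
  · have h1 : ∀ w ∈ (univ : Finset X).erase u,
        ((univ.filter (fun g : Wr X H => g ∈ G ∧ g.s u = u)).filter (fun g => g.s v = w)).card ≤
          cnt G (fun g => g.s u = u ∧ g.s v = v) := by
      intro w _
      by_cases hex : ∃ g0 ∈ G, g0.s u = u ∧ g0.s v = w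
      · obtain ⟨g0, hg0, hg0u, hg0v⟩ := hex
        unfold cnt
        apply Finset.card_le_card_of_injOn (fun g => g0⁻¹ * g)
        · intro g hg
          simp only [coe_filter, mem_filter, mem_univ, true_and, Set.mem_ofPred_eq] at hg ⊢
          refine ⟨G.mul_mem (G.inv_mem hg0) hg.1.1, ?_, ?_⟩
          · rw [Wr.mul_s, Equiv.Perm.mul_apply, hg.1.2, Wr.inv_s, Equiv.Perm.inv_eq_iff_eq]
            exact hg0u.symm
          · rw [Wr.mul_s, Equiv.Perm.mul_apply, hg.2, Wr.inv_s, Equiv.Perm.inv_eq_iff_eq]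
            exact hg0v.symm
        · intro a _ b _ hab
          exact mul_left_cancel hab
      · have : ((univ.filter (fun g : Wr X H => g ∈ G ∧ g.s u = u)).filter
            (fun g => g.s v = w)) = ∅ := by
          rw [Finset.filter_eq_empty_iff]
          intro g hg hgv
          simp only [mem_filter, mem_univ, true_and] at hg
          exact hex ⟨g, hg.1, hg.2, hgv⟩
        rw [this]
        simp
    calc _ ≤ ∑ _w ∈ (univ : Finset X).erase u, cnt G (fun g => g.s u = u ∧ g.s v = v) :=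
          Finset.sum_le_sum h1
      _ = _ := by
        rw [Finset.sum_const, Finset.card_erase_of_mem (mem_univ u), Finset.card_univ]
        simp
  · intro g hg
    simp only [coe_filter, mem_univ, true_and, Set.mem_ofPred_eq] at hg
    simp only [coe_erase, coe_univ, Set.mem_diff, Set.mem_univ, true_and, Set.mem_singleton_iff]
    intro h
    apply huv
    rw [← hg.2] at h
    exact (g.s.injective h).symm

/-- first level: groups with a large proportion of elements fixing a point -/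
lemma base (G : Subgroup (Wr X H)) (hH : ∀ h : H, h = 1) (d : ℕ) (hd : d = Fintype.card X)
    (hd2 : 2 ≤ d) (htr : ∀ u v, ∃ g ∈ G, g.s u = v)
    (h5 : ((d : ℤ) ^ 2 - d - 1) * cnt G (fun _ => True) ≤
      ((d : ℤ) ^ 2 - 1) * cnt G (Wr.Fix (fun _ : H => True))) :
    cnt G (fun _ => True) = d * (d - 1) ∧
    cnt G (fun g => ¬ Wr.Fix (fun _ : H => True) g) = d - 1 ∧
    Sep (fun _ : H => True) G ∧
    ((d : ℤ) ^ 2 - 1) * cnt G (Wr.Fix (fun _ : H => True)) =
      ((d : ℤ) ^ 2 - d - 1) * cnt G (fun _ => True) + (d - 1) := by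
  have hne : Nonempty X := by
    rw [← Fintype.card_pos_iff, ← hd]; omega
  obtain ⟨u0⟩ := hne
  set r := cnt G (fun g => g.s u0 = u0) with hr
  have hN : ∀ u, cnt G (fun _ => True) = d * cnt G (fun g => g.s u = u) := by
    intro u; rw [hd]; exact orbit_stab G htr u
  have hru : ∀ u, cnt G (fun g => g.s u = u) = r := by
    intro u
    have h1 := hN u
    rw [hN u0] at h1
    exact (Nat.eq_of_mul_eq_mul_left (by omega) h1).symm
  have hsplit : cnt G (fun _ => True) =
      cnt G (Wr.Fix (fun _ : H => True)) + cnt G (fun g => ¬ Wr.Fix (fun _ : H => True) g) := by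
    rw [cnt_split G _ (Wr.Fix (fun _ : H => True))]
    congr 1
    · exact cnt_congr G (fun g _ => by simp)
    · exact cnt_congr G (fun g _ => by simp)
  have hδ : cnt G (fun g => ¬ Wr.Fix (fun _ : H => True) g) = cnt G (fun g => ∀ u, ¬ g.s u = u) := by
    apply cnt_congr
    intro g _
    unfold Wr.Fix
    simp
  have hd21 : 1 ≤ d ^ 2 := by nlinarith
  obtain ⟨h1, h2, h3⟩ := base_arith G (fun g u => g.s u = u) d r hd hd2 (fun _ => rfl)
    (by
      intro g hg hall
      ext x
      · exact hall x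
      · rw [hH (g.f x)]; rfl)
    hru (hN u0)
    (by
      intro u v huv
      rw [← hru u, hd]
      exact two_stab G u v huv)
    (by
      rw [← hδ]
      zify [hd21]
      have e1 : (cnt G (fun _ => True) : ℤ) = d * r := by exact_mod_cast hN u0
      have e2 : (cnt G (fun _ => True) : ℤ) =
        cnt G (Wr.Fix (fun _ : H => True)) + cnt G (fun g => ¬ Wr.Fix (fun _ : H => True) g) := by
        exact_mod_cast hsplit
      nlinarith)
  rw [← hδ] at h2
  have hZ1 : (cnt G (fun _ => True) : ℤ) = d * (d - 1) := by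
    rw [hN u0, ← hr, h1]; push_cast [Nat.cast_sub (show 1 ≤ d by omega)]; ring
  refine ⟨by rw [hN u0, ← hr, h1], h2, ?_, ?_⟩
  · intro g hg u v huv hu _ hv _
    exact h3 g hg u v huv hu hv
  · have e2 : (cnt G (fun _ => True) : ℤ) =
        cnt G (Wr.Fix (fun _ : H => True)) + cnt G (fun g => ¬ Wr.Fix (fun _ : H => True) g) := by
        exact_mod_cast hsplit
    have e3 : (cnt G (fun g => ¬ Wr.Fix (fun _ : H => True) g) : ℤ) = d - 1 := by
      rw [h2]; push_cast [Nat.cast_sub (show 1 ≤ d by omega)]; ring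
    have e4 : (cnt G (Wr.Fix (fun _ : H => True)) : ℤ) = d * (d - 1) - (d - 1) := by
      rw [← hZ1, e2, e3]; ring
    rw [e4, hZ1]; ring

end base

end V1188.FP
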