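import Pool.Agent.V1188.FP3

namespace V1188.FP

open Finset Classical

set_option linter.unusedSectionVars false

/-- iterated wreath products: automorphisms of the finite tree of depth `n` -/
def TA (X : Type) : ℕ → Type
  | 0 => Unit
  | n + 1 => Wr X (TA X n)

instance taGroup (X : Type) : (n : ℕ) → Group (TA X n)
  | 0 => inferInstanceAs (Group Unit)
  | n + 1 => @Wr.instGroup X (TA X n) (taGroup X n)

noncomputable instance taFintype (X : Type) [Fintype X] : (n : ℕ) → Fintype (TA X n)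
  | 0 => inferInstanceAs (Fintype Unit)
  | n + 1 => @instFintypeWr X (TA X n) _ (taFintype X n)

/-- restriction to one level less -/
def tr {X : Type} : (n : ℕ) → TA X (n + 1) →* TA X n
  | 0 => 1
  | n + 1 => Wr.map (tr n)

/-- some word of length `n` is fixed -/
def HasFix {X : Type} : (n : ℕ) → TA X n → Prop
  | 0 => fun _ => True
  | n + 1 => Wr.Fix (HasFix n)

/-- words of length `n` -/
def W (X : Type) : ℕ → Type
  | 0 => Unit
  | n + 1 => X × W X n

/-- the action on words of length `n` -/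
def act {X : Type} : (n : ℕ) → TA X n → W X n → W X n
  | 0 => fun _ w => w
  | n + 1 => fun g w => (Wr.s g w.1, act n (Wr.f g w.1) w.2)

section
variable {X : Type}

lemma hasFix_tr : ∀ (n : ℕ) (h : TA X (n + 1)), HasFix (n + 1) h → HasFix n (tr n h)
  | 0, _, _ => trivial
  | n + 1, h, hh => by
    obtain ⟨u, hu, hu'⟩ := hh
    exact ⟨u, hu, hasFix_tr n _ hu'⟩

lemma hasFix_one [Nonempty X] : ∀ n : ℕ, HasFix n (1 : TA X n)
  | 0 => trivial
  | n + 1 => ⟨Classical.arbitrary X, rfl, hasFix_one n⟩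

lemma conj_f' {H : Type} [Group H] {c g : Wr X H} {u v : X} (hc : c.s u = v) (hg : g.s u = u) :
    (c * g * c⁻¹).f v = c.f u * g.f u * (c.f u)⁻¹ := by
  have h1 : (c.s)⁻¹ v = u := by rw [Equiv.Perm.inv_eq_iff_eq]; exact hc.symm
  simp [h1, hg]

lemma conj_s' {H : Type} [Group H] {c g : Wr X H} {u v : X} (hc : c.s u = v) (hg : g.s u = u) :
    (c * g * c⁻¹).s v = v := by
  have h1 : (c.s)⁻¹ v = u := by rw [Equiv.Perm.inv_eq_iff_eq]; exact hc.symm
  rw [Wr.mul_s, Wr.mul_s, Wr.inv_s, Equiv.Perm.mul_apply, Equiv.Perm.mul_apply, h1, hg, hc]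

lemma hasFix_conj : ∀ (n : ℕ) (c g : TA X n), HasFix n g → HasFix n (c * g * c⁻¹)
  | 0, _, _, _ => trivial
  | n + 1, c, g, hg => by
    obtain ⟨u, hu, hu'⟩ := hg
    refine ⟨Wr.s c u, conj_s' (c := c) (g := g) rfl hu, ?_⟩
    have := conj_f' (c := c) (g := g) rfl hu
    rw [show (Wr.f (c * g * c⁻¹) (Wr.s c u)) = _ from this]
    exact hasFix_conj n _ _ hu'

/-- A level-transitive group of tree automorphisms, given by its finite quotients. -/
structure Fam (X : Type) where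
  G : (n : ℕ) → Subgroup (TA X n)
  compat : ∀ n, (G (n + 1)).map (tr n) = G n
  trans : ∀ n, ∀ v w : W X n, ∃ g ∈ G n, act n g v = w

/-- the family of sections at `u` -/
def Fam.sec (F : Fam X) (u : X) : Fam X where
  G n := Wr.sec (F.G (n + 1)) u
  compat n := by
    ext h
    rw [Subgroup.mem_map]
    constructor
    · rintro ⟨k, ⟨g, hg, hgu, rfl⟩, rfl⟩
      refine ⟨tr (n + 1) g, ?_, hgu, rfl⟩
      rw [← F.compat (n + 1)]
      exact ⟨g, hg, rfl⟩
    · rintro ⟨g, hg, hgu, rfl⟩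
      rw [← F.compat (n + 1)] at hg
      obtain ⟨g', hg', rfl⟩ := hg
      exact ⟨Wr.f g' u, ⟨g', hg', hgu, rfl⟩, rfl⟩
  trans n v w := by
    obtain ⟨g, hg, hgv⟩ := F.trans (n + 1) (u, v) (u, w)
    have h1 : Wr.s g u = u := congrArg Prod.fst hgv
    have h2 : act n (Wr.f g u) v = w := congrArg Prod.snd hgv
    exact ⟨Wr.f g u, ⟨g, hg, h1, rfl⟩, h2⟩

variable [Fintype X]

noncomputable def Fam.a (F : Fam X) (n : ℕ) : ℕ := cnt (F.G n) (fun _ => True)
noncomputable def Fam.fx (F : Fam X) (n : ℕ) : ℕ := cnt (F.G n) (HasFix n)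

lemma W_nonempty [Nonempty X] : ∀ n, Nonempty (W X n)
  | 0 => ⟨()⟩
  | n + 1 => ⟨(Classical.arbitrary X, (W_nonempty n).some)⟩

lemma Fam.trans1 [Nonempty X] (F : Fam X) (n : ℕ) (u v : X) : ∃ g ∈ F.G (n + 1), Wr.s g u = v := by
  obtain ⟨w⟩ := W_nonempty (X := X) n
  obtain ⟨g, hg, hgv⟩ := F.trans (n + 1) (u, w) (v, w)
  exact ⟨g, hg, congrArg Prod.fst hgv⟩

/-- never below the threshold -/
def Fam.Good (F : Fam X) (d : ℕ) : Prop :=
  ∀ n, ((d : ℤ) ^ 2 - d - 1) * F.a n ≤ ((d : ℤ) ^ 2 - 1) * F.fx n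

lemma fx_le (F : Fam X) [Nonempty X] (n : ℕ) (u : X) :
    F.fx (n + 1) ≤ Fintype.card X * (cnt (F.G (n + 1)) (fun g => Wr.s g u = u ∧ Wr.f g u = 1) *
      (F.sec u).fx n) := by
  have hu : ∀ v, cnt (F.G (n + 1)) (fun g => Wr.s g v = v ∧ HasFix n (Wr.f g v)) ≤
      cnt (F.G (n + 1)) (fun g => Wr.s g u = u ∧ HasFix n (Wr.f g u)) := by
    intro v
    obtain ⟨c, hc, hcv⟩ := F.trans1 n v u
    apply cnt_conj (F.G (n + 1)) hc
    rintro g hg ⟨hg1, hg2⟩
    refine ⟨conj_s' (c := c) (g := g) hcv hg1, ?_⟩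
    rw [show (Wr.f (c * g * c⁻¹) u) = _ from conj_f' (c := c) (g := g) hcv hg1]
    exact hasFix_conj n _ _ hg2
  have hs : cnt (F.G (n + 1)) (fun g => Wr.s g u = u ∧ HasFix n (Wr.f g u)) =
      cnt (F.G (n + 1)) (fun g => Wr.s g u = u ∧ Wr.f g u = 1) * (F.sec u).fx n :=
    sec_count (F.G (n + 1)) u (HasFix n)
  rw [← hs]
  have h1 : F.fx (n + 1) ≤
      ∑ v : X, cnt (F.G (n + 1)) (fun g => Wr.s g v = v ∧ HasFix n (Wr.f g v)) := by
    have e : ∀ v : X, cnt (F.G (n + 1)) (fun g => Wr.s g v = v ∧ HasFix n (Wr.f g v)) =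
        (univ.filter (fun g : TA X (n + 1) => g ∈ F.G (n + 1) ∧
        (Wr.s g v = v ∧ HasFix n (Wr.f g v)))).card := by
      intro v; unfold cnt; congr
    rw [Finset.sum_congr rfl (fun v _ => e v)]
    refine le_trans ?_ Finset.card_biUnion_le
    unfold Fam.fx cnt
    apply Finset.card_le_card
    intro g hg
    simp only [mem_filter, mem_univ, true_and, mem_biUnion] at hg ⊢
    obtain ⟨hg1, v, hv1, hv2⟩ := hg
    exact ⟨v, hg1, hv1, hv2⟩
  refine le_trans h1 ?_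
  refine le_trans (Finset.sum_le_sum (fun v _ => hu v)) ?_
  simp

lemma a_eq (F : Fam X) [Nonempty X] (n : ℕ) (u : X) :
    F.a (n + 1) = Fintype.card X * (cnt (F.G (n + 1)) (fun g => Wr.s g u = u ∧ Wr.f g u = 1) *
      (F.sec u).a n) := by
  have h1 : F.a (n + 1) = Fintype.card X * cnt (F.G (n + 1)) (fun g => Wr.s g u = u) :=
    orbit_stab (F.G (n + 1)) (F.trans1 n) u
  have h2 := sec_count (F.G (n + 1)) u (fun _ => True)
  have h3 : cnt (F.G (n + 1)) (fun g => Wr.s g u = u ∧ True) =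
      cnt (F.G (n + 1)) (fun g => Wr.s g u = u) := cnt_congr _ (fun g _ => by simp)
  rw [h1, ← h3]
  congr 1

lemma Fam.Good.sec {F : Fam X} [Nonempty X] {d : ℕ} (hF : F.Good d) (hd : d = Fintype.card X)
    (hd2 : 2 ≤ d) (u : X) : (F.sec u).Good d := by
  intro n
  have h1 := hF (n + 1)
  have h2 := fx_le F n u
  rw [a_eq F n u] at h1
  set r := cnt (F.G (n + 1)) (fun g => Wr.s g u = u ∧ Wr.f g u = 1) with hr
  have hrpos : 0 < r := cnt_one_pos _ _ ⟨rfl, rfl⟩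
  rw [← hd] at h1 h2
  have h2' : (F.fx (n + 1) : ℤ) ≤ d * (r * (F.sec u).fx n) := by exact_mod_cast h2
  have hdZ : (2 : ℤ) ≤ d := by exact_mod_cast hd2
  have hrZ : (0 : ℤ) < r := by exact_mod_cast hrpos
  have h3 : ((d : ℤ) ^ 2 - 1) * (F.fx (n + 1)) ≤
      ((d : ℤ) ^ 2 - 1) * (d * (r * (F.sec u).fx n)) :=
    mul_le_mul_of_nonneg_left h2' (by nlinarith)
  push_cast at h1
  have h4 : ((d : ℤ) * r) * (((d : ℤ) ^ 2 - d - 1) * (F.sec u).a n) ≤
      ((d : ℤ) * r) * (((d : ℤ) ^ 2 - 1) * (F.sec u).fx n) := by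
    calc _ = ((d : ℤ) ^ 2 - d - 1) * (d * (r * (F.sec u).a n)) := by ring
      _ ≤ ((d : ℤ) ^ 2 - 1) * (F.fx (n + 1)) := h1
      _ ≤ _ := h3
      _ = _ := by ring
  exact le_of_mul_le_mul_left h4 (by positivity)

/-- what a good family looks like at level `n + 1` -/
def Hyp (F : Fam X) (d n : ℕ) : Prop :=
  F.a (n + 1) = (d - 1) * d ^ (2 * n + 1) ∧
  cnt (F.G (n + 1)) (fun g => tr n g = 1 ∧ ¬ HasFix (n + 1) g) = d - 1 ∧
  Sep (HasFix n) (F.G (n + 1)) ∧
  ((d : ℤ) ^ 2 - 1) * F.fx (n + 1) = ((d : ℤ) ^ 2 - d - 1) * F.a (n + 1) + (d - 1)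

lemma hyp_all [Nonempty X] (d : ℕ) (hd : d = Fintype.card X) (hd2 : 2 ≤ d) :
    ∀ n, ∀ F : Fam X, F.Good d → Hyp F d n
  | 0, F, hF => by
    obtain ⟨h1, h2, h3, h4⟩ := base (X := X) (H := TA X 0) (F.G 1) (fun _ => rfl) d hd hd2
      (F.trans1 0) (hF 1)
    refine ⟨?_, ?_, h3, h4⟩
    · show cnt (F.G 1) (fun _ => True) = _
      have : (cnt (F.G 1) (fun _ => True) : ℕ) = d * (d - 1) := h1
      rw [this]; simp [mul_comm]
    · rw [← h2]
      apply cnt_congr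
      intro g _
      constructor
      · rintro ⟨_, h⟩; exact h
      · intro h; exact ⟨rfl, h⟩
  | n + 1, F, hF => by
    have ih := hyp_all d hd hd2 n F hF
    have hmap : (F.G (n + 2)).map (Wr.map (tr n)) = F.G (n + 1) := F.compat (n + 1)
    obtain ⟨h1, h2, h3, h4⟩ := step (X := X) (H := TA X (n + 1)) (H' := TA X n) (tr n)
      (HasFix (n + 1)) (HasFix n) (hasFix_tr n) (hasFix_one (n + 1)) (F.G (n + 2)) d hd hd2
      (F.trans1 (n + 1))
      (by
        intro u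
        have e1 := (hyp_all d hd hd2 n (F.sec u) (hF.sec hd hd2 u)).1
        have e2 := ih.1
        rw [hmap]
        exact e1.trans e2.symm)
      (by
        intro u
        exact (hyp_all d hd hd2 n (F.sec u) (hF.sec hd hd2 u)).2.1)
      (by rw [hmap]; exact ih.2.2.1)
      (by rw [hmap]; exact ih.2.2.2)
      (hF (n + 2))
    rw [hmap] at h1
    refine ⟨?_, h2, h3, h4⟩
    show cnt (F.G (n + 2)) (fun _ => True) = _
    have e2 : cnt (F.G (n + 1)) (fun _ => True) = (d - 1) * d ^ (2 * n + 1) := ih.1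
    have h1' : cnt (F.G (n + 2)) (fun _ => True) = d ^ 2 * cnt (F.G (n + 1)) (fun _ => True) := h1
    rw [h1', e2]
    ring

end

end V1188.FP
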