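import Pool.Agent.V1188.FP4

namespace V1188.FP

open Finset Classical Filter

set_option linter.unusedSectionVars false

/-- A finite group of degree `d` and order `d (d-1)` with `d-1` derangements in which only the
identity fixes two points has prime power degree. -/
lemma sharp2 {A X : Type} [Group A] [Fintype A] (K : Subgroup A) (σ : A →* Equiv.Perm X)
    (d : ℕ) (hd2 : 2 ≤ d) (hN : cnt K (fun _ => True) = d * (d - 1))
    (hD : cnt K (fun g => ∀ u, σ g u ≠ u) = d - 1)
    (hsep : ∀ g ∈ K, ∀ u v, u ≠ v → σ g u = u → σ g v = v → g = 1) [Nonempty X] :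
    IsPrimePow d := by
  set D : Finset A := univ.filter (fun g => g ∈ K ∧ ∀ u, σ g u ≠ u) with hDdef
  have hDc : D.card = d - 1 := hD
  have hmD : ∀ g, g ∈ D ↔ g ∈ K ∧ ∀ u, σ g u ≠ u := by intro g; simp [hDdef]
  have hcom : ∀ n ∈ D, ∀ z ∈ K, z * n = n * z → z = 1 ∨ z ∈ D := by
    intro n hn z hz hzn
    by_cases h : ∀ u, σ z u ≠ u
    · right; exact (hmD z).2 ⟨hz, h⟩
    · left
      push Not at h
      obtain ⟨u, hu⟩ := h
      apply hsep z hz u (σ n u) (Ne.symm (((hmD n).1 hn).2 u)) hu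
      rw [← Equiv.Perm.mul_apply, ← map_mul, hzn, map_mul, Equiv.Perm.mul_apply, hu]
  have hconjD : ∀ g ∈ K, ∀ n ∈ D, g * n * g⁻¹ ∈ D := by
    intro g hg n hn
    rw [hmD] at hn ⊢
    refine ⟨K.mul_mem (K.mul_mem hg hn.1) (K.inv_mem hg), ?_⟩
    intro u hu
    apply hn.2 ((σ g)⁻¹ u)
    rw [map_mul, map_mul, map_inv, Equiv.Perm.mul_apply, Equiv.Perm.mul_apply] at hu
    rw [Equiv.Perm.eq_inv_iff_eq]
    exact hu
  set C : A → Finset A := fun n => univ.filter (fun z => z ∈ K ∧ z * n = n * z) with hCdef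
  have hmC : ∀ n z, z ∈ C n ↔ z ∈ K ∧ z * n = n * z := by intro n z; simp [hCdef]
  have hCle : ∀ n ∈ D, (C n).card ≤ d := by
    intro n hn
    have h1 : C n ⊆ insert 1 D := by
      intro z hz
      rw [hmC] at hz
      rw [mem_insert]
      exact hcom n hn z hz.1 hz.2
    calc (C n).card ≤ (insert 1 D).card := Finset.card_le_card h1
      _ ≤ D.card + 1 := Finset.card_insert_le _ _
      _ = d := by omega
  have hfib : ∀ n ∈ D, ∀ m, ((univ.filter (fun g => g ∈ K)).filter
      (fun g => g * n * g⁻¹ = m)).card ≤ (C n).card := by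
    intro n hn m
    by_cases hex : ∃ g0 ∈ K, g0 * n * g0⁻¹ = m
    · obtain ⟨g0, hg0, hg0m⟩ := hex
      apply Finset.card_le_card_of_injOn (fun g => g0⁻¹ * g)
      · intro g hg
        simp only [coe_filter, mem_filter, mem_univ, true_and, Set.mem_ofPred_eq] at hg
        rw [mem_coe, hmC]
        refine ⟨K.mul_mem (K.inv_mem hg0) hg.1, ?_⟩
        have h1 : g * n * g⁻¹ = g0 * n * g0⁻¹ := by rw [hg.2, hg0m]
        calc g0⁻¹ * g * n = g0⁻¹ * (g * n * g⁻¹) * g := by group
          _ = g0⁻¹ * (g0 * n * g0⁻¹) * g := by rw [h1]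
          _ = n * (g0⁻¹ * g) := by group
      · intro a _ b _ hab
        exact mul_left_cancel hab
    · have : ((univ.filter (fun g => g ∈ K)).filter (fun g => g * n * g⁻¹ = m)) = ∅ := by
        rw [Finset.filter_eq_empty_iff]
        intro g hg hgv
        simp only [mem_filter, mem_univ, true_and] at hg
        exact hex ⟨g, hg, hgv⟩
      rw [this]
      simp
  have hNc : (univ.filter (fun g : A => g ∈ K)).card = d * (d - 1) := by
    rw [← hN]; unfold cnt; congr 1; ext g; simp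
  have hmain : ∀ n ∈ D, (C n).card = d ∧ ∀ m ∈ D, ∃ g ∈ K, g * n * g⁻¹ = m := by
    intro n hn
    have h1 : (univ.filter (fun g : A => g ∈ K)).card =
        ∑ m ∈ D, ((univ.filter (fun g => g ∈ K)).filter (fun g => g * n * g⁻¹ = m)).card := by
      apply Finset.card_eq_sum_card_fiberwise
      intro g hg
      simp only [coe_filter, mem_univ, true_and, Set.mem_ofPred_eq] at hg
      exact hconjD g hg n hn
    have h2 : ∑ m ∈ D, ((univ.filter (fun g => g ∈ K)).filter (fun g => g * n * g⁻¹ = m)).card ≤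
        (d - 1) * (C n).card := by
      calc _ ≤ ∑ _m ∈ D, (C n).card := Finset.sum_le_sum (fun m _ => hfib n hn m)
        _ = (d - 1) * (C n).card := by rw [Finset.sum_const, hDc]; simp
    have h3 : (C n).card = d := by
      apply le_antisymm (hCle n hn)
      rw [← h1, hNc, mul_comm] at h2
      exact Nat.le_of_mul_le_mul_left h2 (by omega)
    refine ⟨h3, ?_⟩
    intro m hm
    by_contra hcon
    push Not at hcon
    have h4 : ((univ.filter (fun g => g ∈ K)).filter (fun g => g * n * g⁻¹ = m)) = ∅ := by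
      rw [Finset.filter_eq_empty_iff]
      intro g hg hgv
      simp only [mem_filter, mem_univ, true_and] at hg
      exact hcon g hg hgv
    have h5 : ∑ m ∈ D, ((univ.filter (fun g => g ∈ K)).filter (fun g => g * n * g⁻¹ = m)).card ≤
        (d - 2) * d := by
      rw [← Finset.add_sum_erase _ _ hm, h4, Finset.card_empty, zero_add]
      calc _ ≤ ∑ _m ∈ D.erase m, d := Finset.sum_le_sum (fun k _ => by
            rw [← h3]; exact hfib n hn k)
        _ = (d - 2) * d := by
          rw [Finset.sum_const, Finset.card_erase_of_mem hm, hDc]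
          simp; left; omega
    rw [← h1, hNc, mul_comm] at h5
    have := Nat.le_of_mul_le_mul_right h5 (by omega)
    omega
  -- an element of prime order
  obtain ⟨n0, hn0⟩ : D.Nonempty := by rw [← Finset.card_pos]; omega
  have hn01 : n0 ≠ 1 := by
    rintro rfl
    obtain ⟨u⟩ := ‹Nonempty X›
    exact ((hmD 1).1 hn0).2 u (by rw [map_one]; rfl)
  have hord : orderOf n0 ≠ 1 := by rwa [Ne, orderOf_eq_one_iff]
  set p := (orderOf n0).minFac with hp
  have hpp : p.Prime := Nat.minFac_prime hord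
  have hpd : p ∣ orderOf n0 := Nat.minFac_dvd _
  have hopos : 0 < orderOf n0 := orderOf_pos n0
  set n := n0 ^ (orderOf n0 / p) with hn
  have hnord : orderOf n = p := by
    rw [hn, orderOf_pow_of_dvd (by
      have := Nat.div_pos (Nat.le_of_dvd hopos hpd) hpp.pos
      omega) (Nat.div_dvd_of_dvd hpd), Nat.div_div_self hpd (by omega)]
  have hnD : n ∈ D := by
    have h1 : n ∈ K := K.pow_mem ((hmD n0).1 hn0).1 _
    rcases hcom n0 hn0 n h1 (by rw [hn, ← pow_succ, ← pow_succ']) with h | h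
    · exfalso
      rw [h, orderOf_one] at hnord
      exact hpp.one_lt.ne hnord
    · exact h
  obtain ⟨hc1, hc2⟩ := hmain n hnD
  -- the centraliser as a group
  let S : Subgroup A := K ⊓ Subgroup.centralizer {n}
  have hSm : ∀ z, z ∈ S ↔ z ∈ C n := by
    intro z
    rw [hmC, Subgroup.mem_inf, Subgroup.mem_centralizer_iff]
    simp only [Set.mem_singleton_iff, forall_eq]
    constructor
    · rintro ⟨h1, h2⟩; exact ⟨h1, h2.symm⟩
    · rintro ⟨h1, h2⟩; exact ⟨h1, h2.symm⟩
  have hScard : Nat.card S = d := by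
    rw [Nat.card_eq_fintype_card, Fintype.card_subtype, ← hc1]
    congr 1
    ext z
    simp [hSm]
  have : Fact p.Prime := ⟨hpp⟩
  have hpow : ∀ z ∈ C n, z ^ p = 1 := by
    intro z hz
    have hz' := (hmC n z).1 hz
    rcases hcom n hnD z hz'.1 hz'.2 with h | h
    · rw [h, one_pow]
    · obtain ⟨g, _, hgz⟩ := hc2 z h
      rw [← hgz, conj_pow, ← hnord, pow_orderOf_eq_one]
      group
  have hPG : IsPGroup p S := by
    intro z
    refine ⟨1, ?_⟩
    rw [pow_one]
    ext
    rw [Subgroup.coe_pow, hpow z.1 ((hSm _).1 z.2)]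
    rfl
  obtain ⟨k, hk⟩ := IsPGroup.iff_card.mp hPG
  rw [hScard] at hk
  have hk0 : k ≠ 0 := by
    rintro rfl
    rw [pow_zero] at hk
    omega
  rw [hk]
  exact hpp.isPrimePow.pow hk0

variable {X : Type} [Fintype X] [Nonempty X]

/-- proportion of elements with a fixed word at level `n` -/
noncomputable def Fam.P (F : Fam X) (n : ℕ) : ℝ := F.fx n / F.a n

lemma a_pos (F : Fam X) (n : ℕ) : 0 < F.a n := cnt_one_pos _ _ trivial

lemma fx_pos (F : Fam X) (n : ℕ) : 0 < F.fx n := cnt_one_pos _ _ (hasFix_one n)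

lemma fx_le_a (F : Fam X) (n : ℕ) : F.fx n ≤ F.a n := cnt_mono _ (fun _ _ _ => trivial)

lemma P_anti (F : Fam X) : Antitone F.P := by
  apply antitone_nat_of_succ_le
  intro n
  unfold Fam.P
  have h1 := fiber_count' (F.G (n + 1)) (fun g => tr n g) (by intro g _ h _; exact map_mul _ _ _)
    (HasFix n)
  have h2 := fiber_count' (F.G (n + 1)) (fun g => tr n g) (by intro g _ h _; exact map_mul _ _ _)
    (fun _ => True)
  have h3 : ∀ C : TA X n → Prop, img (F.G (n + 1)) (fun g => tr n g) C = cnt (F.G n) C := by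
    intro C
    unfold img cnt
    congr 1
    ext b
    simp only [mem_filter, mem_univ, true_and]
    rw [← F.compat n, Subgroup.mem_map]
  rw [h3] at h1 h2
  have h4 : F.fx (n + 1) ≤ cnt (F.G (n + 1)) (fun g => tr n g = 1) * F.fx n := by
    unfold Fam.fx
    rw [← h1]
    exact cnt_mono _ (fun g _ hg => hasFix_tr n g hg)
  have h5 : F.a (n + 1) = cnt (F.G (n + 1)) (fun g => tr n g = 1) * F.a n := h2
  have hN : 0 < cnt (F.G (n + 1)) (fun g => tr n g = 1) := cnt_one_pos _ _ (map_one _)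
  rw [div_le_div_iff₀ (by exact_mod_cast a_pos F (n + 1)) (by exact_mod_cast a_pos F n)]
  rw [h5]
  have : F.fx (n + 1) * F.a n ≤
      F.fx n * (cnt (F.G (n + 1)) (fun g => tr n g = 1) * F.a n) := by nlinarith
  exact_mod_cast this

lemma P_nonneg (F : Fam X) (n : ℕ) : 0 ≤ F.P n := by unfold Fam.P; positivity

lemma P_le_one (F : Fam X) (n : ℕ) : F.P n ≤ 1 := by
  unfold Fam.P
  rw [div_le_one (by exact_mod_cast a_pos F n)]
  exact_mod_cast fx_le_a F n

lemma P_lim (F : Fam X) : ∃ c, Tendsto F.P atTop (nhds c) :=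
  ⟨_, tendsto_atTop_ciInf (P_anti F) ⟨0, by rintro x ⟨n, rfl⟩; exact P_nonneg F n⟩⟩

/-- the bound -/
noncomputable def bd (d : ℕ) : ℝ := ((d : ℝ) ^ 2 - d - 1) / ((d : ℝ) ^ 2 - 1)

lemma d2_pos {d : ℕ} (hd2 : 2 ≤ d) : (0 : ℝ) < (d : ℝ) ^ 2 - 1 := by
  have : (2 : ℝ) ≤ d := by exact_mod_cast hd2
  nlinarith

lemma good_iff (F : Fam X) (d : ℕ) (hd2 : 2 ≤ d) : F.Good d ↔ ∀ n, bd d ≤ F.P n := by
  unfold Fam.Good
  apply forall_congr'
  intro n
  unfold bd Fam.P
  rw [div_le_div_iff₀ (d2_pos hd2) (by exact_mod_cast a_pos F n)]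
  rw [mul_comm (F.fx n : ℝ)]
  constructor
  · intro h; exact_mod_cast h
  · intro h; exact_mod_cast h

lemma good_lim (F : Fam X) (d : ℕ) (hd : d = Fintype.card X) (hd2 : 2 ≤ d) (hF : F.Good d) :
    Tendsto F.P atTop (nhds (bd d)) := by
  have hP : ∀ n, F.P (n + 1) = bd d + ((d : ℝ) - 1) / ((d : ℝ) ^ 2 - 1) / F.a (n + 1) := by
    intro n
    have h := (hyp_all d hd hd2 n F hF).2.2.2
    have h' : ((d : ℝ) ^ 2 - 1) * F.fx (n + 1) =
      ((d : ℝ) ^ 2 - d - 1) * F.a (n + 1) + (d - 1) := by exact_mod_cast h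
    unfold Fam.P bd
    have h1 := d2_pos hd2
    have h2 : (0 : ℝ) < F.a (n + 1) := by exact_mod_cast a_pos F (n + 1)
    field_simp
    linarith
  rw [← tendsto_add_atTop_iff_nat 1]
  have h1 : Tendsto (fun n => (F.a (n + 1) : ℝ)) atTop atTop := by
    apply tendsto_natCast_atTop_atTop.comp
    apply tendsto_atTop_mono (f := fun n => n) _ tendsto_id
    intro n
    rw [(hyp_all d hd hd2 n F hF).1]
    have h2 : n < d ^ n := Nat.lt_pow_self (by omega)
    have h3 : d ^ n ≤ d ^ (2 * n + 1) := Nat.pow_le_pow_right (by omega) (by omega)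
    have h4 : 1 ≤ d - 1 := by omega
    calc n ≤ d ^ (2 * n + 1) := by omega
      _ = 1 * d ^ (2 * n + 1) := by ring
      _ ≤ _ := Nat.mul_le_mul_right _ h4
  have h2 := (tendsto_const_nhds (x := ((d : ℝ) - 1) / ((d : ℝ) ^ 2 - 1)) (f := atTop)).div_atTop h1
  have h3 := (tendsto_const_nhds (x := bd d) (f := atTop)).add h2
  rw [add_zero] at h3
  exact h3.congr (fun n => (hP n).symm)

lemma lim_le_P (F : Fam X) {c : ℝ} (hc : Tendsto F.P atTop (nhds c)) (n : ℕ) : c ≤ F.P n :=
  (P_anti F).le_of_tendsto hc n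

/-- the upper bound, and equality forces the family to be good -/
lemma lim_le (F : Fam X) (d : ℕ) (hd : d = Fintype.card X) (hd2 : 2 ≤ d) {c : ℝ}
    (hc : Tendsto F.P atTop (nhds c)) : c ≤ bd d ∧ (c = bd d → F.Good d) := by
  by_cases h : F.Good d
  · refine ⟨?_, fun _ => h⟩
    exact le_of_eq (tendsto_nhds_unique hc (good_lim F d hd hd2 h))
  · rw [good_iff F d hd2] at h
    push Not at h
    obtain ⟨n, hn⟩ := h
    have := lim_le_P F hc n
    refine ⟨by linarith, fun h => by linarith⟩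

/-- good families exist only in prime power degree -/
lemma good_prime (F : Fam X) (d : ℕ) (hd : d = Fintype.card X) (hd2 : 2 ≤ d) (hF : F.Good d) :
    IsPrimePow d := by
  obtain ⟨h1, h2, h3, -⟩ := hyp_all d hd hd2 0 F hF
  let σ : TA X 1 →* Equiv.Perm X := ⟨⟨fun g => Wr.s g, rfl⟩, fun _ _ => rfl⟩
  apply sharp2 (F.G 1) σ d hd2
  · have : cnt (F.G 1) (fun _ => True) = (d - 1) * d ^ (2 * 0 + 1) := h1
    rw [this]; ring
  · rw [← h2]
    apply cnt_congr
    intro g _
    constructor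
    · intro h
      refine ⟨rfl, ?_⟩
      rintro ⟨u, hu, -⟩
      exact h u hu
    · rintro ⟨-, h⟩ u hu
      exact h ⟨u, hu, trivial⟩
  · intro g hg u v huv hu hv
    exact h3 g hg u v huv hu trivial hv trivial

end V1188.FP
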