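import Pool.Agent.V1188.FP5

namespace V1188.FP

open Finset Classical Filter

set_option linter.unusedSectionVars false

variable {X : Type} [Fintype X] [Nonempty X]

lemma full_act : ∀ (n : ℕ) (v w : W X n), ∃ g : TA X n, act n g v = w
  | 0, _, _ => ⟨1, rfl⟩
  | n + 1, (x, v), (y, w) => by
    obtain ⟨g, hg⟩ := full_act n v w
    refine ⟨(⟨Equiv.swap x y, fun _ => g⟩ : Wr X (TA X n)), ?_⟩
    show ((Equiv.swap x y) x, act n g v) = (y, w)
    rw [Equiv.swap_apply_left, hg]

lemma tr_surj : ∀ (n : ℕ) (h : TA X n), ∃ g : TA X (n + 1), tr n g = h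
  | 0, _ => ⟨1, rfl⟩
  | n + 1, h => by
    choose k hk using tr_surj n
    refine ⟨(⟨Wr.s h, fun x => k (Wr.f h x)⟩ : Wr X (TA X (n + 1))), ?_⟩
    show (⟨Wr.s h, fun x => tr n (k (Wr.f h x))⟩ : Wr X (TA X n)) = h
    apply Wr.ext
    · rfl
    · funext x; exact hk _

/-- the family of the full automorphism group -/
def fullFam (X : Type) [Fintype X] [Nonempty X] : Fam X where
  G _ := ⊤
  compat n := by
    ext h
    simp only [Subgroup.mem_map, Subgroup.mem_top, true_and, iff_true]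
    exact tr_surj n h
  trans n v w := by
    obtain ⟨g, hg⟩ := full_act n v w
    exact ⟨g, Subgroup.mem_top _, hg⟩

lemma ultra_const {α : Type} [Finite α] (U : Ultrafilter ℕ) (f : ℕ → α) :
    ∃ a, ∀ᶠ k in (U : Filter ℕ), f k = a := by
  by_contra hcon
  rw [not_exists] at hcon
  have h1 : ∀ a, ∀ᶠ k in (U : Filter ℕ), f k ≠ a := by
    intro a
    exact Ultrafilter.eventually_not.mpr (hcon a)
  have h2 : ∀ᶠ k in (U : Filter ℕ), ∀ a, f k ≠ a := eventually_all.mpr h1
  obtain ⟨k, hk⟩ := h2.exists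
  exact hk (f k) rfl

lemma P_congr (F F' : Fam X) (n : ℕ) (h : F.G n = F'.G n) : F.P n = F'.P n := by
  unfold Fam.P Fam.fx Fam.a
  rw [h]

/-- compactness: the supremum is attained -/
lemma exists_max (X : Type) [Fintype X] [Nonempty X] :
    ∃ (F : Fam X) (c : ℝ), Tendsto F.P atTop (nhds c) ∧
      ∀ (F' : Fam X) (c' : ℝ), Tendsto F'.P atTop (nhds c') → c' ≤ c := by
  set S : Set ℝ := {c | ∃ F : Fam X, Tendsto F.P atTop (nhds c)} with hS
  have hne : S.Nonempty := by
    obtain ⟨c, hc⟩ := P_lim (fullFam X)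
    exact ⟨c, fullFam X, hc⟩
  have hbd : BddAbove S := by
    refine ⟨1, ?_⟩
    rintro c ⟨F, hc⟩
    exact (lim_le_P F hc 0).trans (P_le_one F 0)
  have hex : ∀ k : ℕ, ∃ F : Fam X, ∀ n, sSup S - 1 / ((k : ℝ) + 1) < F.P n := by
    intro k
    have hk : (0 : ℝ) < 1 / ((k : ℝ) + 1) := by positivity
    obtain ⟨c, ⟨F, hF⟩, hc⟩ := exists_lt_of_lt_csSup hne (sub_lt_self (sSup S) hk)
    exact ⟨F, fun n => lt_of_lt_of_le hc (lim_le_P F hF n)⟩
  choose Fk hFk using hex
  set U : Ultrafilter ℕ := hyperfilter ℕ with hU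
  have hfin : ∀ n, Finite (Subgroup (TA X n)) := fun n => inferInstance
  have hG : ∀ n, ∃ S : Subgroup (TA X n), ∀ᶠ k in (U : Filter ℕ), (Fk k).G n = S := by
    intro n
    have := hfin n
    exact ultra_const U (fun k => (Fk k).G n)
  choose Gs hGs using hG
  let F : Fam X := {
    G := Gs
    compat := by
      intro n
      obtain ⟨k, hk1, hk2⟩ := ((hGs n).and (hGs (n + 1))).exists
      rw [← hk1, ← hk2]
      exact (Fk k).compat n
    trans := by
      intro n v w
      obtain ⟨k, hk1⟩ := (hGs n).exists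
      rw [← hk1]
      exact (Fk k).trans n v w }
  have hP : ∀ n, sSup S ≤ F.P n := by
    intro n
    apply le_of_forall_pos_lt_add
    intro ε hε
    have h1 : ∀ᶠ k : ℕ in (U : Filter ℕ), 1 / ((k : ℝ) + 1) < ε := by
      have h2 : ∀ᶠ k : ℕ in atTop, 1 / ((k : ℝ) + 1) < ε := by
        have := tendsto_one_div_add_atTop_nhds_zero_nat (𝕜 := ℝ)
        exact this.eventually (gt_mem_nhds hε)
      have h3 : (U : Filter ℕ) ≤ atTop := by
        rw [hU]
        exact hyperfilter_le_cofinite.trans Nat.cofinite_eq_atTop.le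
      exact h3 h2
    obtain ⟨k, hk1, hk2⟩ := (h1.and (hGs n)).exists
    have h4 : (Fk k).P n = F.P n := P_congr _ _ n hk2
    have h5 := hFk k n
    rw [h4] at h5
    linarith
  obtain ⟨c, hc⟩ := P_lim F
  refine ⟨F, c, hc, ?_⟩
  intro F' c' hc'
  have h1 : sSup S ≤ c := ge_of_tendsto' hc hP
  exact (le_csSup hbd ⟨F', hc'⟩).trans h1

end V1188.FP
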