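import Pool.Agent.V1188.FP6

namespace V1188.FP

open Finset Classical Filter

set_option linter.unusedSectionVars false

lemma ap_inv {α : Type} (f : Equiv.Perm α) (x : α) : f (f⁻¹ x) = x := by
  rw [← Equiv.Perm.mul_apply, mul_inv_cancel]; rfl

lemma inv_ap {α : Type} (f : Equiv.Perm α) (x : α) : f⁻¹ (f x) = x := by
  rw [← Equiv.Perm.mul_apply, inv_mul_cancel]; rfl

/-- The automorphism group of the rooted tree of finite words over `X`: permutations of the
set of words which preserve length and commute with taking initial segments. -/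
def AutT (X : Type) : Subgroup (Equiv.Perm (List X)) where
  carrier := {g | (∀ w, (g w).length = w.length) ∧ ∀ w n, g (w.take n) = (g w).take n}
  one_mem' := ⟨fun _ => rfl, fun _ _ => rfl⟩
  mul_mem' := by
    rintro g h ⟨hg1, hg2⟩ ⟨hh1, hh2⟩
    refine ⟨fun w => ?_, fun w n => ?_⟩
    · rw [Equiv.Perm.mul_apply, hg1, hh1]
    · rw [Equiv.Perm.mul_apply, Equiv.Perm.mul_apply, hh2, hg2]
  inv_mem' := by
    rintro g ⟨hg1, hg2⟩
    refine ⟨fun w => ?_, fun w n => ?_⟩
    · rw [← hg1 (g⁻¹ w), ap_inv]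
    · rw [Equiv.Perm.inv_eq_iff_eq, hg2, ap_inv]

/-- words of length `n` -/
def Lev (X : Type) (n : ℕ) : Type := {w : List X // w.length = n}

/-- the permutation induced on the words of length `n` -/
def lev (X : Type) (n : ℕ) : AutT X →* Equiv.Perm (Lev X n) where
  toFun g :=
    { toFun := fun w => ⟨g.1 w.1, by rw [g.2.1, w.2]⟩
      invFun := fun w => ⟨(g⁻¹).1 w.1, by rw [(g⁻¹).2.1, w.2]⟩
      left_inv := fun w => Subtype.ext (by
        show (g⁻¹).1 (g.1 w.1) = w.1
        rw [Subgroup.coe_inv, inv_ap])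
      right_inv := fun w => Subtype.ext (by
        show g.1 ((g⁻¹).1 w.1) = w.1
        rw [Subgroup.coe_inv, ap_inv]) }
  map_one' := by ext w; rfl
  map_mul' g h := by ext w; rfl

variable {X : Type}

lemma g_nil (g : AutT X) : g.1 [] = [] := by
  have := g.2.1 []
  exact List.length_eq_zero_iff.mp this

/-- action on letters -/
def rt (g : AutT X) (x : X) : X := (g.1 [x]).headD x

lemma g_single (g : AutT X) (x : X) : g.1 [x] = [rt g x] := by
  have h := g.2.1 [x]
  obtain ⟨y, hy⟩ := List.length_eq_one_iff.mp h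
  unfold rt
  rw [hy]
  rfl

lemma g_cons (g : AutT X) (x : X) (w : List X) : g.1 (x :: w) = rt g x :: (g.1 (x :: w)).tail := by
  have h := g.2.1 (x :: w)
  have h1 := g.2.2 (x :: w) 1
  rw [show (x :: w).take 1 = [x] from rfl, g_single] at h1
  cases hgw : g.1 (x :: w) with
  | nil => rw [hgw] at h; simp at h
  | cons a w' =>
    rw [hgw, show (a :: w').take 1 = [a] from rfl] at h1
    have : rt g x = a := by simpa using h1
    rw [this]; rfl

lemma rt_mul (g h : AutT X) (x : X) : rt (g * h) x = rt g (rt h x) := by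
  have h1 := g_single (g * h) x
  have h2 : (g * h).1 [x] = g.1 (h.1 [x]) := rfl
  rw [h2, g_single h, g_single g] at h1
  simpa using h1.symm

lemma rt_one (x : X) : rt (1 : AutT X) x = x := rfl

/-- the section at a letter -/
def sc (g : AutT X) (x : X) : AutT X :=
  ⟨{ toFun := fun w => (g.1 (x :: w)).tail
     invFun := fun w => ((g⁻¹).1 (rt g x :: w)).tail
     left_inv := fun w => by
      show ((g⁻¹).1 (rt g x :: (g.1 (x :: w)).tail)).tail = w
      rw [← g_cons, Subgroup.coe_inv, inv_ap]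
      rfl
     right_inv := fun w => by
      show (g.1 (x :: ((g⁻¹).1 (rt g x :: w)).tail)).tail = w
      have h1 := g_cons g⁻¹ (rt g x) w
      rw [← rt_mul, inv_mul_cancel, rt_one] at h1
      rw [← h1, Subgroup.coe_inv, ap_inv]
      rfl },
   by
    refine ⟨fun w => ?_, fun w n => ?_⟩
    · show ((g.1 (x :: w)).tail).length = w.length
      rw [List.length_tail, g.2.1]; rfl
    · show (g.1 (x :: w.take n)).tail = ((g.1 (x :: w)).tail).take n
      have h1 := g.2.2 (x :: w) (n + 1)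
      rw [List.take_succ_cons] at h1
      rw [h1, g_cons g x w, List.take_succ_cons, List.tail_cons, List.tail_cons]⟩

lemma sc_apply (g : AutT X) (x : X) (w : List X) : (sc g x).1 w = (g.1 (x :: w)).tail := rfl

lemma g_cons' (g : AutT X) (x : X) (w : List X) : g.1 (x :: w) = rt g x :: (sc g x).1 w :=
  g_cons g x w

/-- the wreath recursion -/
def Ψ : AutT X →* Wr X (AutT X) where
  toFun g := ⟨⟨rt g, rt g⁻¹, fun x => by rw [← rt_mul, inv_mul_cancel, rt_one],
    fun x => by rw [← rt_mul, mul_inv_cancel, rt_one]⟩, sc g⟩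
  map_one' := by
    apply Wr.ext
    · ext x; rfl
    · funext x
      apply Subtype.ext
      ext1 w
      rfl
  map_mul' g h := by
    apply Wr.ext
    · ext x; exact rt_mul g h x
    · funext x
      apply Subtype.ext
      ext1 w
      show (g.1 (h.1 (x :: w))).tail = (sc g (rt h x)).1 ((sc h x).1 w)
      rw [g_cons' h x w, g_cons' g]
      rfl

lemma Ψ_s (g : AutT X) (x : X) : Wr.s (Ψ g) x = rt g x := rfl
lemma Ψ_f (g : AutT X) (x : X) : Wr.f (Ψ g) x = sc g x := rfl

/-- truncation of a tree automorphism at depth `n` -/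
def por : (n : ℕ) → AutT X →* TA X n
  | 0 => 1
  | n + 1 => (Wr.map (por n)).comp Ψ

lemma por_tr : ∀ (n : ℕ) (g : AutT X), tr n (por (n + 1) g) = por n g
  | 0, _ => rfl
  | n + 1, g => by
    apply Wr.ext
    · rfl
    · funext x; exact por_tr n (sc g x)

/-- words as lists -/
def toL : (n : ℕ) → W X n → List X
  | 0, _ => []
  | n + 1, w => w.1 :: toL n w.2

lemma toL_length : ∀ (n : ℕ) (w : W X n), (toL n w).length = n
  | 0, _ => rfl
  | n + 1, w => by
    show (w.1 :: toL n w.2).length = n + 1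
    rw [List.length_cons, toL_length n]

lemma toL_inj : ∀ (n : ℕ) (v w : W X n), toL n v = toL n w → v = w
  | 0, _, _, _ => rfl
  | n + 1, v, w, h => by
    have h' : v.1 :: toL n v.2 = w.1 :: toL n w.2 := h
    rw [List.cons.injEq] at h'
    exact Prod.ext h'.1 (toL_inj n _ _ h'.2)

lemma toL_surj : ∀ (n : ℕ) (l : List X), l.length = n → ∃ w : W X n, toL n w = l
  | 0, l, hl => ⟨(), (List.length_eq_zero_iff.mp hl).symm⟩
  | n + 1, l, hl => by
    cases l with
    | nil => simp at hl
    | cons x l =>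
      obtain ⟨w, hw⟩ := toL_surj n l (by simpa using hl)
      exact ⟨(x, w), by show x :: toL n w = x :: l; rw [hw]⟩

lemma toL_act : ∀ (n : ℕ) (g : AutT X) (w : W X n), toL n (act n (por n g) w) = g.1 (toL n w)
  | 0, g, _ => (g_nil g).symm
  | n + 1, g, w => by
    show rt g w.1 :: toL n (act n (por n (sc g w.1)) w.2) = g.1 (w.1 :: toL n w.2)
    rw [toL_act n, g_cons']

lemma act_faithful [Nonempty X] : ∀ (n : ℕ) (s t : TA X n), (∀ w, act n s w = act n t w) → s = t
  | 0, _, _, _ => rfl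
  | n + 1, s, t, h => by
    have h1 : ∀ x w, Wr.s s x = Wr.s t x ∧ act n (Wr.f s x) w = act n (Wr.f t x) w := by
      intro x w
      have := h (x, w)
      exact ⟨congrArg Prod.fst this, congrArg Prod.snd this⟩
    apply Wr.ext
    · ext x
      have : Nonempty (W X n) := by
        clear h1 h s t
        induction n with
        | zero => exact ⟨()⟩
        | succ n ih => exact ⟨(Classical.arbitrary X, ih.some)⟩
      exact (h1 x this.some).1
    · funext x
      exact act_faithful n _ _ (fun w => (h1 x w).2)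

lemma por_eq_iff [Nonempty X] (n : ℕ) (g h : AutT X) : por n g = por n h ↔ lev X n g = lev X n h := by
  constructor
  · intro heq
    ext w
    obtain ⟨v, hv⟩ := toL_surj n w.1 w.2
    apply Subtype.ext
    show g.1 w.1 = h.1 w.1
    rw [← hv, ← toL_act, ← toL_act, heq]
  · intro heq
    apply act_faithful
    intro w
    apply toL_inj
    rw [toL_act, toL_act]
    have := congrArg (fun s : Equiv.Perm (Lev X n) => (s ⟨toL n w, toL_length n w⟩).1) heq
    exact this

lemma fix_word' : ∀ (n : ℕ) (g : TA X n), HasFix n g → ∃ w : W X n, act n g w = w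
  | 0, _, _ => ⟨(), rfl⟩
  | n + 1, g, hg => by
    obtain ⟨u, hu, hu'⟩ := hg
    obtain ⟨w, hw⟩ := fix_word' n _ hu'
    refine ⟨(u, w), ?_⟩
    show ((Wr.s g u, act n (Wr.f g u) w) : X × W X n) = (u, w)
    rw [hu, hw]

lemma word_fix' : ∀ (n : ℕ) (g : TA X n) (w : W X n), act n g w = w → HasFix n g
  | 0, _, _, _ => trivial
  | n + 1, g, w, hw => by
    have h1 : Wr.s g w.1 = w.1 := congrArg Prod.fst hw
    have h2 : act n (Wr.f g w.1) w.2 = w.2 := congrArg Prod.snd hw
    exact ⟨w.1, h1, word_fix' n _ _ h2⟩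

lemma hasFix_iff (n : ℕ) (g : AutT X) : HasFix n (por n g) ↔ ∃ v, lev X n g v = v := by
  constructor
  · intro h
    obtain ⟨w, hw⟩ := fix_word' n _ h
    refine ⟨⟨toL n w, toL_length n w⟩, Subtype.ext ?_⟩
    show g.1 (toL n w) = toL n w
    rw [← toL_act, hw]
  · rintro ⟨v, hv⟩
    obtain ⟨w, hw⟩ := toL_surj n v.1 v.2
    apply word_fix' n _ w
    apply toL_inj
    rw [toL_act, hw]
    exact congrArg Subtype.val hv

/-- comparing two quotients of the same group -/
lemma card_two {Γ A B : Type} [Group Γ] [Group A] [Group B] (G : Subgroup Γ) (α : Γ →* A)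
    (β : Γ →* B) (hker : ∀ g h, α g = α h ↔ β g = β h) (P : A → Prop) (Q : B → Prop)
    (hPQ : ∀ g, P (α g) ↔ Q (β g)) :
    Nat.card {a // a ∈ G.map α ∧ P a} = Nat.card {b // b ∈ G.map β ∧ Q b} := by
  have hch : ∀ a : {a // a ∈ G.map α ∧ P a}, ∃ g ∈ G, α g = a.1 := fun a => a.2.1
  choose k hk1 hk2 using hch
  apply Nat.card_congr
  apply Equiv.ofBijective (fun a => ⟨β (k a), ⟨k a, hk1 a, rfl⟩, (hPQ _).1 (by rw [hk2]; exact a.2.2)⟩)
  constructor
  · intro a b hab
    apply Subtype.ext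
    have := congrArg Subtype.val hab
    rw [← hk2 a, ← hk2 b]
    exact (hker _ _).2 this
  · rintro ⟨b, ⟨g, hg, rfl⟩, hb⟩
    refine ⟨⟨α g, ⟨g, hg, rfl⟩, (hPQ g).2 hb⟩, ?_⟩
    apply Subtype.ext
    exact (hker _ _).1 (hk2 ⟨α g, ⟨g, hg, rfl⟩, (hPQ g).2 hb⟩)

/-- level-transitive groups of tree automorphisms -/
def LevelTransitive (G : Subgroup (AutT X)) : Prop :=
  ∀ n, ∀ v w : Lev X n, ∃ g ∈ G, lev X n g v = w

/-- the proportion of elements of the finite group induced on level `n` fixing a vertex there -/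
noncomputable def fpRatio (G : Subgroup (AutT X)) (n : ℕ) : ℝ :=
  (Nat.card {s : Equiv.Perm (Lev X n) // s ∈ G.map (lev X n) ∧ ∃ v, s v = v} : ℝ) /
    (Nat.card (G.map (lev X n)) : ℝ)

/-- `c` is the fixed-point proportion of `G` -/
def IsFPP (G : Subgroup (AutT X)) (c : ℝ) : Prop := Tendsto (fpRatio G) atTop (nhds c)

/-- the family of finite quotients -/
def famOf (G : Subgroup (AutT X)) (hG : LevelTransitive G) : Fam X where
  G n := G.map (por n)
  compat n := by
    ext h
    simp only [Subgroup.mem_map]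
    constructor
    · rintro ⟨_, ⟨g, hg, rfl⟩, rfl⟩
      exact ⟨g, hg, (por_tr n g).symm⟩
    · rintro ⟨g, hg, rfl⟩
      exact ⟨_, ⟨g, hg, rfl⟩, por_tr n g⟩
  trans n v w := by
    obtain ⟨g, hg, hgv⟩ := hG n ⟨toL n v, toL_length n v⟩ ⟨toL n w, toL_length n w⟩
    refine ⟨por n g, ⟨g, hg, rfl⟩, ?_⟩
    apply toL_inj
    rw [toL_act]
    exact congrArg Subtype.val hgv

variable [Fintype X] [Nonempty X]

lemma cnt_natcard {A : Type} [Group A] [Fintype A] (S : Subgroup A) (P : A → Prop) :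
    cnt S P = Nat.card {a // a ∈ S ∧ P a} := by
  unfold cnt
  rw [Nat.card_eq_fintype_card, Fintype.card_subtype]

lemma ratio_eq (G : Subgroup (AutT X)) (F : Fam X) (n : ℕ) (h : F.G n = G.map (por n)) :
    fpRatio G n = F.P n := by
  unfold fpRatio Fam.P Fam.fx Fam.a
  rw [h, cnt_natcard, cnt_natcard]
  rw [card_two G (por n) (lev X n) (por_eq_iff n) (HasFix n) (fun s => ∃ v, s v = v) (hasFix_iff n)]
  rw [card_two G (por n) (lev X n) (por_eq_iff n) (fun _ => True) (fun _ => True) (fun _ => Iff.rfl)]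
  congr 2
  apply Nat.card_congr
  exact Equiv.subtypeEquivRight (fun s => by simp)

/-- gluing a compatible sequence of finite automorphisms -/
def glue : (t : (n : ℕ) → TA X n) → List X → List X
  | _, [] => []
  | t, x :: w => Wr.s (t 1) x :: glue (fun n => Wr.f (t (n + 1)) x) w

def Compat (t : (n : ℕ) → TA X n) : Prop := ∀ n, tr n (t (n + 1)) = t n

lemma Compat.s {t : (n : ℕ) → TA X n} (ht : Compat t) : ∀ n, Wr.s (t (n + 1)) = Wr.s (t 1)
  | 0 => rfl
  | n + 1 => by
    rw [← ht.s n, ← ht (n + 1)]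
    rfl

lemma Compat.f {t : (n : ℕ) → TA X n} (ht : Compat t) (x : X) :
    Compat (fun n => Wr.f (t (n + 1)) x) := by
  intro n
  show tr n (Wr.f (t (n + 2)) x) = Wr.f (t (n + 1)) x
  rw [← ht (n + 1)]
  rfl

lemma Compat.inv {t : (n : ℕ) → TA X n} (ht : Compat t) : Compat (fun n => (t n)⁻¹) := by
  intro n
  show tr n (t (n + 1))⁻¹ = (t n)⁻¹
  rw [map_inv, ht n]

lemma glue_length : ∀ (t : (n : ℕ) → TA X n) (w : List X), (glue t w).length = w.length
  | _, [] => rfl
  | t, x :: w => by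
    show (Wr.s (t 1) x :: glue (fun n => Wr.f (t (n + 1)) x) w).length = (x :: w).length
    rw [List.length_cons, glue_length, List.length_cons]

lemma glue_take : ∀ (t : (n : ℕ) → TA X n) (w : List X) (n : ℕ),
    glue t (w.take n) = (glue t w).take n
  | _, [], n => by simp [glue]
  | t, x :: w, 0 => rfl
  | t, x :: w, n + 1 => by
    rw [List.take_succ_cons]
    show Wr.s (t 1) x :: glue (fun n => Wr.f (t (n + 1)) x) (w.take n) =
      (Wr.s (t 1) x :: glue (fun n => Wr.f (t (n + 1)) x) w).take (n + 1)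
    rw [List.take_succ_cons, glue_take]

lemma glue_inv : ∀ (w : List X) (t : (n : ℕ) → TA X n) (_ : Compat t),
    glue (fun n => (t n)⁻¹) (glue t w) = w
  | [], _, _ => rfl
  | x :: w, t, ht => by
    show (Wr.s (t 1)⁻¹ (Wr.s (t 1) x)) ::
      glue (fun n => Wr.f (t (n + 1))⁻¹ (Wr.s (t 1) x)) (glue (fun n => Wr.f (t (n + 1)) x) w) = x :: w
    have h1 : (Wr.s (t 1)⁻¹ (Wr.s (t 1) x)) = x := by
      show ((Wr.s (t 1))⁻¹ (Wr.s (t 1) x)) = x
      rw [inv_ap]
    have h2 : (fun n => Wr.f (t (n + 1))⁻¹ (Wr.s (t 1) x)) = fun n => (Wr.f (t (n + 1)) x)⁻¹ := by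
      funext n
      show (Wr.f (t (n + 1)) ((Wr.s (t (n + 1)))⁻¹ (Wr.s (t 1) x)))⁻¹ = _
      rw [← ht.s n, inv_ap]
    rw [h1, h2, glue_inv w (fun n => Wr.f (t (n + 1)) x) (ht.f x)]

/-- the tree automorphism with given truncations -/
def glueAut (t : (n : ℕ) → TA X n) (ht : Compat t) : AutT X :=
  ⟨{ toFun := glue t
     invFun := glue (fun n => (t n)⁻¹)
     left_inv := fun w => glue_inv w t ht
     right_inv := fun w => by
      have := glue_inv w (fun n => (t n)⁻¹) ht.inv
      simpa only [inv_inv] using this },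
   fun w => glue_length t w, fun w n => glue_take t w n⟩

lemma por_glue : ∀ (n : ℕ) (t : (n : ℕ) → TA X n) (ht : Compat t), por n (glueAut t ht) = t n
  | 0, _, _ => rfl
  | n + 1, t, ht => by
    apply Wr.ext
    · rw [ht.s n]
      ext x
      rfl
    · funext x
      show por n (sc (glueAut t ht) x) = Wr.f (t (n + 1)) x
      have : sc (glueAut t ht) x = glueAut (fun n => Wr.f (t (n + 1)) x) (ht.f x) := by
        apply Subtype.ext
        ext1 w
        rfl
      rw [this, por_glue n]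

/-- truncate or extend trivially -/
def res : (n k : ℕ) → TA X n → TA X k
  | _, 0, _ => 1
  | 0, _ + 1, _ => 1
  | n + 1, k + 1, g => (⟨Wr.s g, fun x => res n k (Wr.f g x)⟩ : Wr X (TA X k))

lemma res_self : ∀ (n : ℕ) (g : TA X n), res n n g = g
  | 0, _ => rfl
  | n + 1, g => by
    apply Wr.ext
    · rfl
    · funext x; exact res_self n _

lemma res_tr : ∀ (n k : ℕ) (g : TA X n), k + 1 ≤ n → tr k (res n (k + 1) g) = res n k g
  | 0, _, _, h => by omega
  | n + 1, 0, _, _ => rfl
  | n + 1, k + 1, g, h => by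
    apply Wr.ext
    · rfl
    · funext x; exact res_tr n k _ (by omega)

lemma res_mem (F : Fam X) (n : ℕ) (g : TA X n) (hg : g ∈ F.G n) :
    ∀ m k : ℕ, k + m = n → res n k g ∈ F.G k := by
  intro m
  induction m with
  | zero =>
    intro k hk
    rw [add_zero] at hk
    subst hk
    rw [res_self]; exact hg
  | succ m ih =>
    intro k hk
    rw [← res_tr n k g (by omega), ← F.compat k]
    exact ⟨_, ih (k + 1) (by omega), rfl⟩

lemma lift_seq (F : Fam X) (n : ℕ) (h : TA X n) (hh : h ∈ F.G n) :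
    ∃ t : (k : ℕ) → TA X k, Compat t ∧ (∀ k, t k ∈ F.G k) ∧ t n = h := by
  have hstep : ∀ k, ∀ s : {s : TA X k // s ∈ F.G k ∧ (k ≤ n → s = res n k h)},
      ∃ s' : {s : TA X (k + 1) // s ∈ F.G (k + 1) ∧ (k + 1 ≤ n → s = res n (k + 1) h)},
        tr k s'.1 = s.1 := by
    rintro k ⟨s, hs1, hs2⟩
    by_cases hk : k + 1 ≤ n
    · refine ⟨⟨res n (k + 1) h, res_mem F n h hh (n - (k + 1)) (k + 1) (by omega), fun _ => rfl⟩, ?_⟩
      show tr k (res n (k + 1) h) = s
      rw [res_tr n k h hk, hs2 (by omega)]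
    · rw [← F.compat k] at hs1
      obtain ⟨s', hs', hs''⟩ := hs1
      exact ⟨⟨s', hs', fun h => absurd h hk⟩, hs''⟩
  choose nx hnx using hstep
  let u : (k : ℕ) → {s : TA X k // s ∈ F.G k ∧ (k ≤ n → s = res n k h)} := fun k =>
    Nat.rec (motive := fun k => {s : TA X k // s ∈ F.G k ∧ (k ≤ n → s = res n k h)})
      ⟨1, Subgroup.one_mem _, fun _ => by cases n <;> rfl⟩ (fun k s => nx k s) k
  refine ⟨fun k => (u k).1, fun k => hnx k (u k), fun k => (u k).2.1, ?_⟩
  show (u n).1 = h
  rw [(u n).2.2 le_rfl, res_self]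

/-- the closed group with given finite quotients -/
def groupOf (F : Fam X) : Subgroup (AutT X) where
  carrier := {g | ∀ n, por n g ∈ F.G n}
  one_mem' := fun n => by rw [map_one]; exact Subgroup.one_mem _
  mul_mem' := fun {g h} hg hh n => by rw [map_mul]; exact Subgroup.mul_mem _ (hg n) (hh n)
  inv_mem' := fun {g} hg n => by rw [map_inv]; exact Subgroup.inv_mem _ (hg n)

lemma map_groupOf (F : Fam X) (n : ℕ) : F.G n = (groupOf F).map (por n) := by
  ext h
  constructor
  · intro hh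
    obtain ⟨t, ht1, ht2, ht3⟩ := lift_seq F n h hh
    refine ⟨glueAut t ht1, ?_, ?_⟩
    · intro k
      rw [por_glue]
      exact ht2 k
    · rw [por_glue, ht3]
  · rintro ⟨g, hg, rfl⟩
    exact hg n

lemma groupOf_trans (F : Fam X) : LevelTransitive (groupOf F) := by
  intro n v w
  obtain ⟨v', hv'⟩ := toL_surj n v.1 v.2
  obtain ⟨w', hw'⟩ := toL_surj n w.1 w.2
  obtain ⟨g, hg, hgv⟩ := F.trans n v' w'
  rw [map_groupOf F n] at hg
  obtain ⟨k, hk, rfl⟩ := hg
  refine ⟨k, hk, Subtype.ext ?_⟩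
  show k.1 v.1 = w.1
  rw [← hv', ← hw', ← hgv, toL_act]

end V1188.FP
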