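import Pool.Agent.V1188.FP5
import Mathlib.RingTheory.PowerSeries.Inverse

namespace V1188.FP

open Finset Classical Filter PowerSeries

set_option linter.unusedSectionVars false

variable {X : Type} {F : Type} [Field F] (e : X ≃ F)

/-- remove the constant term and divide by the variable -/
noncomputable def sh (a : PowerSeries F) : PowerSeries F :=
  PowerSeries.mk fun k => PowerSeries.coeff (k + 1) a

noncomputable def cc (a : PowerSeries F) : F := PowerSeries.constantCoeff a

lemma sh_eq (a : PowerSeries F) : a = PowerSeries.C (cc a) + PowerSeries.X * sh a := by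
  have := PowerSeries.eq_X_mul_shift_add_const a
  unfold cc sh
  rw [add_comm]
  exact this

lemma sh_add (a b : PowerSeries F) : sh (a + b) = sh a + sh b := by
  ext k; simp [sh]

lemma sh_unique {a s : PowerSeries F} {c : F} (h : a = PowerSeries.C c + PowerSeries.X * s) :
    cc a = c ∧ sh a = s := by
  constructor
  · unfold cc; rw [h]; simp
  · ext k
    rw [h]
    simp [sh, PowerSeries.coeff_succ_X_mul]

/-- permutation `x ↦ a x + b` of the alphabet -/
noncomputable def aff (a b : F) : Equiv.Perm X :=
  if h : a ≠ 0 then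
    e.trans (((Equiv.mulLeft₀ a h).trans (Equiv.addRight b)).trans e.symm)
  else 1

lemma aff_apply {a : F} (h : a ≠ 0) (b : F) (x : X) : aff e a b x = e.symm (a * e x + b) := by
  unfold aff
  rw [dif_pos h]
  rfl

/-- the affine map `y ↦ a y + b` of the power series ring, as a tree automorphism -/
noncomputable def A : (n : ℕ) → PowerSeries F → PowerSeries F → TA X n
  | 0, _, _ => 1
  | n + 1, a, b => (⟨aff e (cc a) (cc b),
      fun x => A n a (PowerSeries.C (e x) * sh a + sh b)⟩ : Wr X (TA X n))

lemma A_tr : ∀ (n : ℕ) (a b : PowerSeries F), tr n (A e (n + 1) a b) = A e n a b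
  | 0, _, _ => rfl
  | n + 1, a, b => by
    apply Wr.ext
    · rfl
    · funext x
      exact A_tr n a _

lemma A_mul : ∀ (n : ℕ) (a b c d : PowerSeries F), cc a ≠ 0 → cc c ≠ 0 →
    A e n a b * A e n c d = A e n (a * c) (a * d + b)
  | 0, _, _, _, _, _, _ => rfl
  | n + 1, a, b, c, d, ha, hc => by
    have hac : cc (a * c) ≠ 0 := by
      unfold cc at *; rw [map_mul]; exact mul_ne_zero ha hc
    have h1 : ∀ p q : PowerSeries F, sh (p * q) = p * sh q + PowerSeries.C (cc q) * sh p ∧
        cc (p * q) = cc p * cc q := by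
      intro p q
      have : p * q = PowerSeries.C (cc p * cc q) + PowerSeries.X *
          (p * sh q + PowerSeries.C (cc q) * sh p) := by
        rw [map_mul]
        conv_lhs => rw [sh_eq q]
        have hp := sh_eq p
        linear_combination (PowerSeries.C (cc q)) * hp
      exact ⟨(sh_unique this).2, (sh_unique this).1⟩
    have hs : ∀ x, aff e (cc c) (cc d) x = e.symm (cc c * e x + cc d) := aff_apply e hc _
    have hcadd : ∀ p q : PowerSeries F, cc (p + q) = cc p + cc q := by
      intro p q; unfold cc; rw [map_add]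
    apply Wr.ext
    · ext x
      show aff e (cc a) (cc b) (aff e (cc c) (cc d) x) = aff e (cc (a * c)) (cc (a * d + b)) x
      rw [hs, aff_apply e ha, aff_apply e hac, hcadd, (h1 a c).2, (h1 a d).2,
        Equiv.apply_symm_apply]
      congr 1
      ring
    · funext x
      show A e n a (PowerSeries.C (e (aff e (cc c) (cc d) x)) * sh a + sh b) *
        A e n c (PowerSeries.C (e x) * sh c + sh d) =
        A e n (a * c) (PowerSeries.C (e x) * sh (a * c) + sh (a * d + b))
      rw [A_mul n _ _ _ _ ha hc, hs, Equiv.apply_symm_apply, sh_add, (h1 a c).1, (h1 a d).1,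
        map_add, map_mul]
      congr 1
      ring

lemma A_triv : ∀ (n : ℕ) (a b : PowerSeries F), PowerSeries.X ^ n ∣ a - 1 →
    PowerSeries.X ^ n ∣ b → A e n a b = 1
  | 0, _, _, _, _ => rfl
  | n + 1, a, b, ha, hb => by
    obtain ⟨p, hp⟩ := ha
    obtain ⟨q, hq⟩ := hb
    have h1 : a = PowerSeries.C 1 + PowerSeries.X * (PowerSeries.X ^ n * p) := by
      rw [map_one]; linear_combination hp
    have h2 : b = PowerSeries.C 0 + PowerSeries.X * (PowerSeries.X ^ n * q) := by
      rw [map_zero]; linear_combination hq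
    obtain ⟨h3, h4⟩ := sh_unique h1
    obtain ⟨h5, h6⟩ := sh_unique h2
    apply Wr.ext
    · ext x
      show aff e (cc a) (cc b) x = x
      rw [h3, h5, aff_apply e one_ne_zero]
      simp
    · funext x
      show A e n a (PowerSeries.C (e x) * sh a + sh b) = 1
      apply A_triv n
      · exact ⟨PowerSeries.X * p, by rw [hp]; ring⟩
      · rw [h4, h6]
        exact ⟨PowerSeries.C (e x) * p + q, by ring⟩

lemma A_inj_b : ∀ (n : ℕ) (a b a' b' : PowerSeries F), cc a ≠ 0 → cc a' ≠ 0 →
    A e n a b = A e n a' b' → PowerSeries.X ^ n ∣ b - b'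
  | 0, _, _, _, _, _, _, _ => by rw [pow_zero]; exact one_dvd _
  | n + 1, a, b, a', b', ha, ha', h => by
    have h1 : aff e (cc a) (cc b) = aff e (cc a') (cc b') := congrArg Wr.s h
    have h2 : A e n a (PowerSeries.C (e (e.symm 0)) * sh a + sh b) =
        A e n a' (PowerSeries.C (e (e.symm 0)) * sh a' + sh b') :=
      congrFun (congrArg Wr.f h) (e.symm 0)
    have h3 : cc b = cc b' := by
      have := congrFun (congrArg DFunLike.coe h1) (e.symm 0)
      rw [aff_apply e ha, aff_apply e ha'] at this
      have := e.symm.injective this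
      simpa using this
    have h4 := A_inj_b n _ _ _ _ ha ha' h2
    rw [Equiv.apply_symm_apply, map_zero, zero_mul, zero_add, zero_mul, zero_add] at h4
    obtain ⟨q, hq⟩ := h4
    refine ⟨q, ?_⟩
    rw [sh_eq b, sh_eq b', h3]
    linear_combination PowerSeries.X * hq

lemma A_inj_a (n : ℕ) (a b a' b' : PowerSeries F) (ha : cc a ≠ 0) (ha' : cc a' ≠ 0)
    (h : A e (n + 1) a b = A e (n + 1) a' b') : PowerSeries.X ^ (n + 1) ∣ a - a' := by
  have hb := A_inj_b e (n + 1) a b a' b' ha ha' h
  have h1 : aff e (cc a) (cc b) = aff e (cc a') (cc b') := congrArg Wr.s h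
  have h2 : A e n a (PowerSeries.C (e (e.symm 1)) * sh a + sh b) =
      A e n a' (PowerSeries.C (e (e.symm 1)) * sh a' + sh b') :=
    congrFun (congrArg Wr.f h) (e.symm 1)
  have hbc : cc b = cc b' := by
    have := congrFun (congrArg DFunLike.coe h1) (e.symm 0)
    rw [aff_apply e ha, aff_apply e ha'] at this
    have := e.symm.injective this
    simpa using this
  have hac : cc a = cc a' := by
    have := congrFun (congrArg DFunLike.coe h1) (e.symm 1)
    rw [aff_apply e ha, aff_apply e ha'] at this
    have := e.symm.injective this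
    rw [hbc] at this
    simpa using this
  have h4 := A_inj_b e n _ _ _ _ ha ha' h2
  rw [Equiv.apply_symm_apply, map_one, one_mul, one_mul] at h4
  obtain ⟨q, hq⟩ := h4
  obtain ⟨p, hp⟩ := hb
  refine ⟨q - p, ?_⟩
  have e1 : a = PowerSeries.C (cc a) + PowerSeries.X * sh a := sh_eq a
  have e2 : a' = PowerSeries.C (cc a') + PowerSeries.X * sh a' := sh_eq a'
  have e3 : b = PowerSeries.C (cc b) + PowerSeries.X * sh b := sh_eq b
  have e4 : b' = PowerSeries.C (cc b') + PowerSeries.X * sh b' := sh_eq b'
  rw [hac] at e1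
  rw [hbc] at e3
  linear_combination e1 - e2 + PowerSeries.X * hq + e3 - e4 - hp

/-- value of a word -/
noncomputable def ev : (n : ℕ) → W X n → PowerSeries F
  | 0, _ => 0
  | n + 1, w => PowerSeries.C (e w.1) + PowerSeries.X * ev n w.2

lemma act_ev : ∀ (n : ℕ) (a b : PowerSeries F) (w : W X n), cc a ≠ 0 →
    PowerSeries.X ^ n ∣ ev e n (act n (A e n a b) w) - (a * ev e n w + b)
  | 0, _, _, _, _ => by rw [pow_zero]; exact one_dvd _
  | n + 1, a, b, w, ha => by
    obtain ⟨q, hq⟩ := act_ev n a (PowerSeries.C (e w.1) * sh a + sh b) w.2 ha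
    refine ⟨q, ?_⟩
    have h1 : ev e (n + 1) (act (n + 1) (A e (n + 1) a b) w) =
        PowerSeries.C (e (aff e (cc a) (cc b) w.1)) +
        PowerSeries.X * ev e n (act n (A e n a (PowerSeries.C (e w.1) * sh a + sh b)) w.2) := rfl
    have h2 : ev e (n + 1) w = PowerSeries.C (e w.1) + PowerSeries.X * ev e n w.2 := rfl
    rw [h1, h2, aff_apply e ha, Equiv.apply_symm_apply, map_add, map_mul]
    have e1 := sh_eq a
    have e2 := sh_eq b
    linear_combination PowerSeries.X * hq - PowerSeries.C (e w.1) * e1 - e2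

end V1188.FP
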