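import Pool.Agent.V1188.FP5

namespace V1188.FP

open Finset Classical

set_option linter.unusedSectionVars false

section first

variable {X H : Type} [Fintype X] [Group H] [Fintype H]

lemma fib_le (G : Subgroup (Wr X H)) (u : X) (S : Finset X)
    (hinv : ∀ g ∈ G, g.s u = u → ∀ s ∈ S, g.s s ∈ S) (v : X) (hv : v ∈ S) :
    cnt G (fun g => g.s u = u) ≤ S.card * cnt G (fun g => g.s u = u ∧ g.s v = v) := by
  have h0 : cnt G (fun g => g.s u = u) =
      (univ.filter (fun g : Wr X H => g ∈ G ∧ g.s u = u)).card := by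
    unfold cnt; congr
  rw [h0, Finset.card_eq_sum_card_fiberwise (f := fun g : Wr X H => g.s v) (t := S)]
  · have h1 : ∀ w ∈ S,
        ((univ.filter (fun g : Wr X H => g ∈ G ∧ g.s u = u)).filter (fun g => g.s v = w)).card ≤
          cnt G (fun g => g.s u = u ∧ g.s v = v) := by
      intro w _
      by_cases hex : ∃ g0 ∈ G, g0.s u = u ∧ g0.s v = w
      · obtain ⟨g0, hg0, hg0u, hg0v⟩ := hex
        unfold cnt
        apply Finset.card_le_card_of_injOn (fun g => g0⁻¹ * g)
        · intro g hg
          simp only [coe_filter, mem_filter, mem_univ, true_and, Set.mem_ofPred_eq] at hg ⊢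
          refine ⟨G.mul_mem (G.inv_mem hg0) hg.1.1, ?_, ?_⟩
          · rw [Wr.mul_s, Equiv.Perm.mul_apply, hg.1.2, Wr.inv_s, Equiv.Perm.inv_eq_iff_eq]
            exact hg0u.symm
          · rw [Wr.mul_s, Equiv.Perm.mul_apply, hg.2, Wr.inv_s, Equiv.Perm.inv_eq_iff_eq]
            exact hg0v.symm
        · intro a _ b _ hab
          exact mul_left_cancel hab
      · have : ((univ.filter (fun g : Wr X H => g ∈ G ∧ g.s u = u)).filter
            (fun g => g.s v = w)) = ∅ := by
          rw [Finset.filter_eq_empty_iff]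
          intro g hg hgv
          simp only [mem_filter, mem_univ, true_and] at hg
          exact hex ⟨g, hg.1, hg.2, hgv⟩
        rw [this]
        simp
    calc _ ≤ ∑ _w ∈ S, cnt G (fun g => g.s u = u ∧ g.s v = v) := Finset.sum_le_sum h1
      _ = _ := by rw [Finset.sum_const]; simp
  · intro g hg
    simp only [coe_filter, mem_univ, true_and, Set.mem_ofPred_eq] at hg
    exact hinv g hg.1 hg.2 v hv

/-- sums of two-point stabilisers over an invariant set -/
lemma inv_sum (G : Subgroup (Wr X H)) (u : X) (S : Finset X) (hS : S.Nonempty)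
    (hinv : ∀ g ∈ G, g.s u = u → ∀ s ∈ S, g.s s ∈ S) :
    cnt G (fun g => g.s u = u) ≤ ∑ s ∈ S, cnt G (fun g => g.s u = u ∧ g.s s = s) := by
  have h1 := Finset.sum_le_sum (fun s hs => fib_le G u S hinv s hs)
  rw [Finset.sum_const, ← Finset.mul_sum, smul_eq_mul] at h1
  exact Nat.le_of_mul_le_mul_left h1 (Finset.card_pos.mpr hS)

/-- exact count when the point stabiliser is transitive on the rest -/
lemma two_trans (G : Subgroup (Wr X H)) (u v : X) (huv : v ≠ u)
    (htr : ∀ w, w ≠ u → ∃ g ∈ G, g.s u = u ∧ g.s v = w) :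
    cnt G (fun g => g.s u = u) =
      (Fintype.card X - 1) * cnt G (fun g => g.s u = u ∧ g.s v = v) := by
  have h0 : cnt G (fun g => g.s u = u) =
      (univ.filter (fun g : Wr X H => g ∈ G ∧ g.s u = u)).card := by
    unfold cnt; congr
  rw [h0, Finset.card_eq_sum_card_fiberwise (f := fun g : Wr X H => g.s v) (t := univ.erase u)]
  · rw [Finset.sum_const_nat (m := cnt G (fun g => g.s u = u ∧ g.s v = v))]
    · rw [Finset.card_erase_of_mem (mem_univ u), Finset.card_univ]
    · intro w hw
      obtain ⟨g0, hg0, hg0u, hg0v⟩ := htr w (by simpa using hw)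
      unfold cnt
      apply Finset.card_bij (fun g _ => g0⁻¹ * g)
      · intro g hg
        simp only [mem_filter, mem_univ, true_and] at hg ⊢
        refine ⟨G.mul_mem (G.inv_mem hg0) hg.1.1, ?_, ?_⟩
        · rw [Wr.mul_s, Equiv.Perm.mul_apply, hg.1.2, Wr.inv_s, Equiv.Perm.inv_eq_iff_eq]
          exact hg0u.symm
        · rw [Wr.mul_s, Equiv.Perm.mul_apply, hg.2, Wr.inv_s, Equiv.Perm.inv_eq_iff_eq]
          exact hg0v.symm
      · intro a _ b _ hab
        exact mul_left_cancel hab
      · intro k hk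
        simp only [mem_filter, mem_univ, true_and] at hk
        refine ⟨g0 * k, ?_, by group⟩
        simp only [mem_filter, mem_univ, true_and]
        refine ⟨⟨G.mul_mem hg0 hk.1, ?_⟩, ?_⟩
        · rw [Wr.mul_s, Equiv.Perm.mul_apply, hk.2.1, hg0u]
        · rw [Wr.mul_s, Equiv.Perm.mul_apply, hk.2.2, hg0v]
  · intro g hg
    simp only [coe_filter, mem_univ, true_and, Set.mem_ofPred_eq] at hg
    rw [mem_coe, mem_erase]
    refine ⟨?_, mem_univ _⟩
    intro h
    apply huv
    rw [← hg.2] at h
    exact g.s.injective h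

/-- A transitive group with at least a proportion `(d-2)/(d-1)` of elements with a fixed point is
sharply 2-transitive. -/
lemma first_level (G : Subgroup (Wr X H)) (hH : ∀ h : H, h = 1) (d : ℕ) (hd : d = Fintype.card X)
    (hd3 : 3 ≤ d) (htr : ∀ u v, ∃ g ∈ G, g.s u = v)
    (h5 : ((d : ℤ) - 2) * cnt G (fun _ => True) ≤
      ((d : ℤ) - 1) * cnt G (Wr.Fix (fun _ : H => True))) :
    cnt G (fun _ => True) = d * (d - 1) ∧
    cnt G (fun g => ¬ Wr.Fix (fun _ : H => True) g) = d - 1 ∧
    Sep (fun _ : H => True) G := by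
  have hne : Nonempty X := by
    rw [← Fintype.card_pos_iff, ← hd]; omega
  obtain ⟨u0⟩ := hne
  set r := cnt G (fun g => g.s u0 = u0) with hr
  have hN : ∀ u, cnt G (fun _ => True) = d * cnt G (fun g => g.s u = u) := by
    intro u; rw [hd]; exact orbit_stab G htr u
  have hru : ∀ u, cnt G (fun g => g.s u = u) = r := by
    intro u
    have h1 := hN u
    rw [hN u0] at h1
    exact (Nat.eq_of_mul_eq_mul_left (by omega) h1).symm
  set δ := cnt G (fun g => ¬ Wr.Fix (fun _ : H => True) g) with hδdef
  have hsplit : cnt G (fun _ => True) = cnt G (Wr.Fix (fun _ : H => True)) + δ := by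
    rw [cnt_split G _ (Wr.Fix (fun _ : H => True))]
    congr 1
    · exact cnt_congr G (fun g _ => by simp)
    · exact cnt_congr G (fun g _ => by simp)
  set N := cnt G (fun _ => True) with hNdef
  set Γ : Finset (Wr X H) := univ.filter (fun g => g ∈ G) with hΓ
  set Wt : Wr X H → ℕ := fun g => (univ.filter (fun u : X => g.s u = u)).card with hWt
  have hΓc : Γ.card = N := by
    rw [hNdef]; unfold cnt; congr 1; ext g; simp [hΓ]
  have h1Γ : (1 : Wr X H) ∈ Γ := by simp [hΓ, G.one_mem]
  have hW1 : Wt 1 = d := by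
    simp only [hWt]
    rw [Finset.filter_true_of_mem (by intro u _; rfl), Finset.card_univ, hd]
  have hWlt : ∀ g ∈ Γ, g ≠ 1 → Wt g + 2 ≤ d := by
    intro g _ hg1
    have hex : ∃ x, g.s x ≠ x := by
      by_contra hcon
      push Not at hcon
      apply hg1
      ext x
      · exact hcon x
      · rw [hH (g.f x)]; rfl
    obtain ⟨x, hx⟩ := hex
    have h1 : univ.filter (fun u : X => g.s u = u) ⊆ (univ.erase x).erase (g.s x) := by
      intro y hy
      simp only [mem_filter, mem_univ, true_and] at hy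
      simp only [mem_erase, mem_univ, and_true]
      constructor
      · rintro rfl
        exact hx (g.s.injective hy)
      · rintro rfl
        exact hx hy
    have h2 := Finset.card_le_card h1
    rw [Finset.card_erase_of_mem (by simp [hx]), Finset.card_erase_of_mem (mem_univ x),
      Finset.card_univ, ← hd] at h2
    show (univ.filter (fun u : X => g.s u = u)).card + 2 ≤ d
    omega
  have hsum : ∑ g ∈ Γ, Wt g = N := by
    have h1 : ∑ g ∈ Γ, Wt g = ∑ u : X, cnt G (fun g => g.s u = u) := by
      simp only [hWt, Finset.card_filter]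
      rw [Finset.sum_comm]
      apply Finset.sum_congr rfl
      intro u _
      rw [← Finset.card_filter]
      unfold cnt
      congr 1
      ext g
      simp [hΓ]
    rw [h1, Finset.sum_congr rfl (fun u _ => hru u), Finset.sum_const, Finset.card_univ, ← hd]
    rw [smul_eq_mul]
    exact (hN u0).symm
  have hδ : ((Γ.filter (fun g => Wt g = 0)).card) = δ := by
    rw [hδdef]
    unfold cnt
    congr 1
    ext g
    simp [hΓ, hWt, Finset.filter_eq_empty_iff, Wr.Fix]
  set Q := ∑ g ∈ Γ, (Wt g : ℤ) * ((Wt g : ℤ) - 1) with hQ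
  have hdZ : (3 : ℤ) ≤ d := by exact_mod_cast hd3
  have hsumZ : (∑ g ∈ Γ, (Wt g : ℤ)) = Γ.card := by rw [hΓc]; exact_mod_cast hsum
  have hQle : Q ≤ ((d : ℤ) - 2) * δ + 2 * (d - 1) := by
    have hpt : ∀ g ∈ Γ, ((Wt g : ℤ) - 1) * ((Wt g : ℤ) - (d - 2)) ≤
        (if Wt g = 0 then ((d : ℤ) - 2) else 0) + (if g = 1 then 2 * ((d : ℤ) - 1) else 0) := by
      intro g hg
      by_cases hg1 : g = 1
      · subst hg1
        rw [hW1]
        have : ¬ (d = 0) := by omega
        simp only [this, if_false, if_true]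
        nlinarith
      · rw [if_neg hg1]
        by_cases h0 : Wt g = 0
        · rw [if_pos h0, h0]; push_cast; nlinarith
        · rw [if_neg h0]
          have h1 : (1 : ℤ) ≤ Wt g := by exact_mod_cast Nat.one_le_iff_ne_zero.mpr h0
          have h2 : (Wt g : ℤ) + 2 ≤ d := by exact_mod_cast hWlt g hg hg1
          nlinarith
    have hs := Finset.sum_le_sum hpt
    rw [Finset.sum_add_distrib, ← Finset.sum_filter, Finset.sum_const, Finset.sum_ite_eq' Γ 1,
      if_pos h1Γ, hδ] at hs
    have hexp : (∑ g ∈ Γ, ((Wt g : ℤ) - 1) * ((Wt g : ℤ) - (d - 2))) = Q := by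
      have : ∀ g ∈ Γ, ((Wt g : ℤ) - 1) * ((Wt g : ℤ) - (d - 2)) =
          (Wt g : ℤ) * ((Wt g : ℤ) - 1) - (d - 2) * (Wt g : ℤ) + (d - 2) * 1 := by
        intro g _; ring
      rw [Finset.sum_congr rfl this, Finset.sum_add_distrib, Finset.sum_sub_distrib,
        ← Finset.mul_sum, ← Finset.mul_sum, hsumZ, hQ]
      simp
    rw [hexp] at hs
    simp only [nsmul_eq_mul] at hs
    linarith
  have hpairs : Q = ∑ p ∈ (univ : Finset X).offDiag,
      ((cnt G (fun g => g.s p.1 = p.1 ∧ g.s p.2 = p.2) : ℕ) : ℤ) := by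
    rw [hQ, pair_sum Γ (fun g u => g.s u = u)]
    apply Finset.sum_congr rfl
    intro p _
    unfold cnt
    congr 2
    ext g
    simp [hΓ]
  have hQ1 : (d : ℤ) * (d - 1) ≤ Q := by
    have h1 : (Wt (1 : Wr X H) : ℤ) * ((Wt (1 : Wr X H) : ℤ) - 1) ≤ Q := by
      rw [hQ]
      apply Finset.single_le_sum (f := fun g => (Wt g : ℤ) * ((Wt g : ℤ) - 1)) _ h1Γ
      intro g _
      show 0 ≤ (Wt g : ℤ) * ((Wt g : ℤ) - 1)
      rcases Nat.eq_zero_or_pos (Wt g) with h | h
      · rw [h]; simp
      · have : (1 : ℤ) ≤ Wt g := by exact_mod_cast h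
        nlinarith
    rw [hW1] at h1
    exact h1
  have hδlow : (d : ℤ) - 1 ≤ δ := by
    have h1 : ((d : ℤ) - 2) * (d - 1) ≤ (d - 2) * δ := by nlinarith
    exact le_of_mul_le_mul_left h1 (by linarith)
  have hδup : ((d : ℤ) - 1) * δ ≤ N := by
    have e1 : (N : ℤ) = cnt G (Wr.Fix (fun _ : H => True)) + δ := by exact_mod_cast hsplit
    have e2 : (cnt G (Wr.Fix (fun _ : H => True)) : ℤ) = N - δ := by linarith
    rw [e2] at h5
    linarith
  have hNr : (N : ℤ) = d * r := by exact_mod_cast hN u0
  -- sum over rows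
  have hoff : ∀ f : X × X → ℤ, ∑ p ∈ (univ : Finset X).offDiag, f p =
      ∑ u : X, ∑ v ∈ univ.erase u, f (u, v) := by
    intro f
    rw [← Finset.sum_finset_product' (univ : Finset X).offDiag univ (fun u => univ.erase u)
      (by intro p; simp [mem_offDiag, ne_comm]) (f := fun a b => f (a, b))]
  have hpZ : Q = ∑ u : X, ∑ v ∈ univ.erase u,
      ((cnt G (fun g => g.s u = u ∧ g.s v = v) : ℕ) : ℤ) := by
    rw [hpairs, hoff]
  have hQN : ∀ k : ℤ, (∀ u : X, k * r ≤ ∑ v ∈ univ.erase u,
      ((cnt G (fun g => g.s u = u ∧ g.s v = v) : ℕ) : ℤ)) → k * N ≤ Q := by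
    intro k hk
    rw [hpZ, hNr]
    calc k * (d * r) = ∑ _u : X, k * r := by
          rw [Finset.sum_const, Finset.card_univ, ← hd]; simp; ring
      _ ≤ _ := Finset.sum_le_sum (fun u _ => hk u)
  by_cases hA : ∀ u v w, v ≠ u → w ≠ u → ∃ g ∈ G, g.s u = u ∧ g.s v = w
  · -- 2-transitive
    have hex2 : ∀ u : X, ∃ v : X, v ≠ u := by
      intro u
      have : 1 < Fintype.card X := by omega
      exact Fintype.exists_ne_of_one_lt_card this u
    have hNQ : (1 : ℤ) * N ≤ Q := by
      apply hQN
      intro u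
      rw [one_mul]
      obtain ⟨v, hv⟩ := hex2 u
      have h1 := inv_sum G u (univ.erase u) ⟨v, by simp [hv]⟩ (by
        intro g _ hgu s hs
        rw [mem_erase] at hs ⊢
        refine ⟨?_, mem_univ _⟩
        intro h
        apply hs.1
        apply g.s.injective
        rw [h, hgu])
      rw [hru u] at h1
      exact_mod_cast h1
    have hm : ∀ u v, v ≠ u → r = (d - 1) * cnt G (fun g => g.s u = u ∧ g.s v = v) := by
      intro u v huv
      rw [← hru u, hd]
      exact two_trans G u v huv (fun w hw => hA u v w huv hw)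
    have hN2 : (N : ℤ) ≤ 2 * (d - 1) ^ 2 := by
      have h1 : ((d : ℤ) - 1) * N ≤ (d - 1) * ((d - 2) * δ + 2 * (d - 1)) :=
        mul_le_mul_of_nonneg_left (by linarith) (by linarith)
      nlinarith
    have hm1 : ∀ u v, v ≠ u → cnt G (fun g => g.s u = u ∧ g.s v = v) = 1 := by
      intro u v huv
      have h1 := hm u v huv
      have hpos : 0 < cnt G (fun g => g.s u = u ∧ g.s v = v) := cnt_one_pos _ _ ⟨rfl, rfl⟩
      by_contra hcon
      have h2 : (2 : ℤ) ≤ cnt G (fun g => g.s u = u ∧ g.s v = v) := by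
        have : 2 ≤ cnt G (fun g => g.s u = u ∧ g.s v = v) := by omega
        exact_mod_cast this
      have h3 : (r : ℤ) = (d - 1) * cnt G (fun g => g.s u = u ∧ g.s v = v) := by
        zify [show 1 ≤ d by omega] at h1
        exact h1
      have h4 : ((d : ℤ) - 1) * 2 ≤ r := by
        rw [h3]; exact mul_le_mul_of_nonneg_left h2 (by linarith)
      have h5 : (d : ℤ) * ((d - 1) * 2) ≤ N := by
        rw [hNr]; exact mul_le_mul_of_nonneg_left h4 (by linarith)
      nlinarith
    obtain ⟨v0, hv0⟩ := hex2 u0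
    have hr1 : r = d - 1 := by rw [hm u0 v0 hv0, hm1 u0 v0 hv0, mul_one]
    have hsep : Sep (fun _ : H => True) G := by
      intro g hg u v huv hu _ hv _
      by_contra hne
      have h1 := hm1 u v huv.symm
      have h2 : 1 < cnt G (fun g => g.s u = u ∧ g.s v = v) := by
        unfold cnt
        apply Finset.one_lt_card.mpr
        exact ⟨1, by simp [G.one_mem], g, by simp [hg, hu, hv], fun h => hne h.symm⟩
      omega
    refine ⟨by rw [hN u0, hru u0, hr1], ?_, hsep⟩
    have hWle : ∀ g ∈ Γ, g ≠ 1 → Wt g ≤ 1 := by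
      intro g hg hg1
      simp only [hWt]
      rw [Finset.card_le_one]
      intro u hu v hv
      simp only [mem_filter, mem_univ, true_and] at hu hv
      by_contra huv
      exact hg1 (hsep g (by simpa [hΓ] using hg) u v huv hu trivial hv trivial)
    have hpt : ∀ g ∈ Γ, (1 : ℤ) - Wt g =
        (if Wt g = 0 then (1 : ℤ) else 0) + (if g = 1 then (1 - (d : ℤ)) else 0) := by
      intro g hg
      by_cases hg1 : g = 1
      · subst hg1
        rw [hW1]
        have : ¬ (d = 0) := by omega
        simp [this]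
      · rw [if_neg hg1]
        have := hWle g hg hg1
        interval_cases h : Wt g <;> simp
    have hs := Finset.sum_congr rfl hpt
    rw [Finset.sum_sub_distrib, hsumZ, Finset.sum_add_distrib, ← Finset.sum_filter,
      Finset.sum_ite_eq' Γ 1, if_pos h1Γ, Finset.sum_const, Finset.sum_const, hδ] at hs
    simp at hs
    omega
  · -- not 2-transitive: impossible
    exfalso
    push Not at hA
    obtain ⟨u1, v1, w1, hv1, hw1, hno⟩ := hA
    have h2N : (2 : ℤ) * N ≤ Q := by
      apply hQN
      intro u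
      obtain ⟨c, hc, hcu⟩ := htr u1 u
      have hno' : ∀ g ∈ G, g.s u = u → g.s (c.s v1) ≠ c.s w1 := by
        intro g hg hgu hgv
        have h1 := hno (c⁻¹ * g * c) (G.mul_mem (G.mul_mem (G.inv_mem hc) hg) hc)
        have h2 : (c⁻¹ * g * c).s u1 = u1 := by
          rw [Wr.mul_s, Wr.mul_s, Wr.inv_s, Equiv.Perm.mul_apply, Equiv.Perm.mul_apply, hcu, hgu,
            Equiv.Perm.inv_eq_iff_eq]
          exact hcu.symm
        apply h1 h2
        rw [Wr.mul_s, Wr.mul_s, Wr.inv_s, Equiv.Perm.mul_apply, Equiv.Perm.mul_apply, hgv,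
            Equiv.Perm.inv_eq_iff_eq]
      set v := c.s v1 with hv
      set w := c.s w1 with hw
      have hvu : v ≠ u := by rw [hv, ← hcu]; exact fun h => hv1 (c.s.injective h)
      have hwu : w ≠ u := by rw [hw, ← hcu]; exact fun h => hw1 (c.s.injective h)
      set O : Finset X := univ.filter (fun x => ∃ g ∈ G, g.s u = u ∧ g.s v = x) with hO
      have hOinv : ∀ g ∈ G, g.s u = u → ∀ s ∈ O, g.s s ∈ O := by
        intro g hg hgu s hs
        simp only [hO, mem_filter, mem_univ, true_and] at hs ⊢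
        obtain ⟨k, hk, hku, hkv⟩ := hs
        exact ⟨g * k, G.mul_mem hg hk, by rw [Wr.mul_s, Equiv.Perm.mul_apply, hku, hgu],
          by rw [Wr.mul_s, Equiv.Perm.mul_apply, hkv]⟩
      have hOu : O ⊆ univ.erase u := by
        intro x hx
        simp only [hO, mem_filter, mem_univ, true_and] at hx
        obtain ⟨k, hk, hku, hkv⟩ := hx
        rw [mem_erase]
        refine ⟨?_, mem_univ _⟩
        intro h
        apply hvu
        apply k.s.injective
        rw [hkv, hku, h]
      have hvO : v ∈ O := by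
        simp only [hO, mem_filter, mem_univ, true_and]
        exact ⟨1, G.one_mem, rfl, rfl⟩
      have hwO : w ∉ O := by
        simp only [hO, mem_filter, mem_univ, true_and]
        rintro ⟨k, hk, hku, hkv⟩
        exact hno' k hk hku hkv
      have h1 := inv_sum G u O ⟨v, hvO⟩ hOinv
      have h2 := inv_sum G u ((univ.erase u) \ O) ⟨w, by simp [hwu, hwO]⟩ (by
        intro g hg hgu s hs
        rw [mem_sdiff, mem_erase] at hs ⊢
        refine ⟨⟨?_, mem_univ _⟩, ?_⟩
        · intro h
          apply hs.1.1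
          apply g.s.injective
          rw [h, hgu]
        · intro h
          apply hs.2
          have hinv : (g⁻¹).s u = u := by
            rw [Wr.inv_s, Equiv.Perm.inv_eq_iff_eq]; exact hgu.symm
          have := hOinv g⁻¹ (G.inv_mem hg) hinv _ h
          rw [Wr.inv_s, ← Equiv.Perm.mul_apply, inv_mul_cancel] at this
          exact this)
      rw [hru u] at h1 h2
      have h3 := Finset.sum_sdiff (f := fun v => cnt G (fun g => g.s u = u ∧ g.s v = v)) hOu
      have h4 : 2 * r ≤ ∑ v ∈ univ.erase u, cnt G (fun g => g.s u = u ∧ g.s v = v) := by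
        rw [← h3]; omega
      exact_mod_cast h4
    have h1 : ((d : ℤ) - 1) * (2 * N) ≤ (d - 1) * ((d - 2) * δ + 2 * (d - 1)) :=
      mul_le_mul_of_nonneg_left (by linarith) (by linarith)
    have h2 : (d : ℤ) * N ≤ 2 * (d - 1) ^ 2 := by nlinarith
    have hr1 : (r : ℤ) ≤ 1 := by
      by_contra hcon
      push Not at hcon
      have : (2 : ℤ) ≤ r := by linarith
      have h3 : (d : ℤ) * (d * 2) ≤ d * N := by
        rw [hNr]
        exact mul_le_mul_of_nonneg_left (mul_le_mul_of_nonneg_left this (by linarith)) (by linarith)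
      nlinarith
    have hNd : (N : ℤ) ≤ d := by
      rw [hNr]
      nlinarith
    have h3 : ((d : ℤ) - 1) * (d - 1) ≤ (d - 1) * δ :=
      mul_le_mul_of_nonneg_left hδlow (by linarith)
    nlinarith

end first

end V1188.FP
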