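import Pool.Agent.V1188.FPA
import Pool.Agent.V1188.FP7

namespace V1188.FP

open Finset Classical Filter

set_option linter.unusedSectionVars false

section level2

variable {X : Type} [Fintype X] [Nonempty X]

/-- first level of a family -/
lemma first_fam (F : Fam X) (d : ℕ) (hd : d = Fintype.card X) (hd3 : 3 ≤ d)
    (h : ((d : ℤ) - 2) * F.a 1 ≤ ((d : ℤ) - 1) * F.fx 1) :
    F.a 1 = d * (d - 1) ∧ cnt (F.G 1) (fun g => ¬ HasFix 1 g) = d - 1 ∧
      Sep (HasFix 0) (F.G 1) :=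
  first_level (X := X) (H := TA X 0) (F.G 1) (fun _ => rfl) d hd hd3 (F.trans1 0) h

lemma first_prime (F : Fam X) (d : ℕ) (hd : d = Fintype.card X) (hd3 : 3 ≤ d)
    (h : ((d : ℤ) - 2) * F.a 1 ≤ ((d : ℤ) - 1) * F.fx 1) : IsPrimePow d := by
  obtain ⟨h1, h2, h3⟩ := first_fam F d hd hd3 h
  let σ : TA X 1 →* Equiv.Perm X := ⟨⟨fun g => Wr.s g, rfl⟩, fun _ _ => rfl⟩
  apply sharp2 (F.G 1) σ d (by omega)
  · exact h1
  · rw [← h2]
    apply cnt_congr
    intro g _
    constructor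
    · rintro h ⟨u, hu, -⟩
      exact h u hu
    · intro h u hu
      exact h ⟨u, hu, trivial⟩
  · intro g hg u v huv hu hv
    exact h3 g hg u v huv hu trivial hv trivial

lemma fx_one (F : Fam X) (d : ℕ) (hd3 : 3 ≤ d)
    (h1 : F.a 1 = d * (d - 1)) (h2 : cnt (F.G 1) (fun g => ¬ HasFix 1 g) = d - 1) :
    (F.fx 1 : ℤ) = (d - 1) ^ 2 := by
  have h3 : F.a 1 = F.fx 1 + cnt (F.G 1) (fun g => ¬ HasFix 1 g) := by
    unfold Fam.a Fam.fx
    rw [cnt_split (F.G 1) (fun _ => True) (HasFix 1)]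
    congr 1
    · exact cnt_congr _ (fun g _ => by simp)
    · exact cnt_congr _ (fun g _ => by simp)
  rw [h2] at h3
  zify [show 1 ≤ d by omega] at h1 h3
  rw [h1] at h3
  linarith

/-- on a set of three elements an even permutation with a fixed point is trivial -/
lemma even_fix (hX : Fintype.card X = 3) (σ : Equiv.Perm X) (hσ : Equiv.Perm.sign σ = 1) (v : X)
    (hv : σ v = v) : σ = 1 := by
  by_contra hne
  have h1 : σ.support ⊆ univ.erase v := by
    intro x hx
    rw [Equiv.Perm.mem_support] at hx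
    rw [mem_erase]
    refine ⟨?_, mem_univ _⟩
    rintro rfl
    exact hx hv
  have h2 : σ.support.card ≤ 2 := by
    refine (Finset.card_le_card h1).trans ?_
    rw [Finset.card_erase_of_mem (mem_univ v), Finset.card_univ, hX]
  have h3 : σ.support.card ≠ 0 := by
    rw [Ne, Equiv.Perm.card_support_eq_zero]
    exact hne
  have h4 := Equiv.Perm.card_support_ne_one σ
  have h5 : σ.support.card = 2 := by omega
  rw [Equiv.Perm.card_support_eq_two] at h5
  rw [h5.sign_eq] at hσ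
  exact absurd hσ (by decide)

/-- the case of degree three -/
lemma three_fpf (hX : Fintype.card X = 3) (K : Subgroup (Wr X (TA X 1)))
    (hs : ∀ g ∈ K, g.s = 1) (h3 : ∀ u, 3 ∣ Nat.card (Wr.sec K u)) :
    0 < cnt K (fun k => ∀ u, ¬ HasFix 1 (k.f u)) := by
  let sg : TA X 1 →* ℤˣ := (Equiv.Perm.sign).comp
    (⟨⟨fun g => Wr.s g, rfl⟩, fun _ _ => rfl⟩ : TA X 1 →* Equiv.Perm X)
  have hsg : ∀ b : TA X 1, sg b = Equiv.Perm.sign (Wr.s b) := fun _ => rfl
  let T : Subgroup (Wr X (TA X 1)) := {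
    carrier := {k | k ∈ K ∧ ∀ u, sg (k.f u) = 1}
    one_mem' := ⟨K.one_mem, fun u => map_one _⟩
    mul_mem' := by
      rintro a b ⟨ha, ha'⟩ ⟨hb, hb'⟩
      refine ⟨K.mul_mem ha hb, fun u => ?_⟩
      rw [Wr.mul_f, map_mul, ha', hb', mul_one]
    inv_mem' := by
      rintro a ⟨ha, ha'⟩
      refine ⟨K.inv_mem ha, fun u => ?_⟩
      rw [Wr.inv_f, map_inv, ha', inv_one] }
  have hTm : ∀ k, k ∈ T ↔ k ∈ K ∧ ∀ u, sg (k.f u) = 1 := fun k => Iff.rfl
  have hpow : ∀ k ∈ K, ∀ (n : ℕ) u, (k ^ n).f u = (k.f u) ^ n := by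
    intro k hk n u
    induction n with
    | zero => rfl
    | succ n ih =>
      rw [pow_succ, Wr.mul_f, hs k hk, pow_succ, Equiv.Perm.one_apply, ih]
  have hT3 : ∀ u, 3 * cnt T (fun k => k.f u = 1) ≤ cnt T (fun _ => True) := by
    intro u
    have : Fact (Nat.Prime 3) := ⟨Nat.prime_three⟩
    obtain ⟨b, hb⟩ := exists_prime_orderOf_dvd_card' 3 (h3 u)
    obtain ⟨k, hk, hku, hkb⟩ := b.2
    have hb3 : orderOf (b : TA X 1) = 3 := by rw [← hb]; exact Subgroup.orderOf_coe b
    have hb4 : (b : TA X 1) ^ 4 = b := by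
      have : (b : TA X 1) ^ 3 = 1 := by rw [← hb3]; exact pow_orderOf_eq_one _
      rw [pow_succ, this, one_mul]
    have hmem : (b : TA X 1) ∈ Wr.sec T u := by
      refine ⟨k ^ 4, ⟨K.pow_mem hk 4, fun v => ?_⟩, ?_, ?_⟩
      · rw [hpow k hk, map_pow]
        rcases Int.units_eq_one_or (sg (k.f v)) with h | h
        · rw [h, one_pow]
        · rw [h]; decide
      · rw [hs _ (K.pow_mem hk 4)]; rfl
      · rw [hpow k hk, hkb, hb4]
    have hdvd : 3 ∣ Nat.card (Wr.sec T u) := by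
      rw [← hb3]
      exact Subgroup.orderOf_dvd_natCard _ hmem
    have hge : 3 ≤ Nat.card (Wr.sec T u) := Nat.le_of_dvd Nat.card_pos hdvd
    have f1 := sec_count T u (fun _ => True)
    have f2 : cnt T (fun g => g.s u = u ∧ True) = cnt T (fun _ => True) :=
      cnt_congr T (fun g hg => by rw [hs g hg.1]; simp)
    have f3 : cnt T (fun g => g.s u = u ∧ g.f u = 1) = cnt T (fun k => k.f u = 1) :=
      cnt_congr T (fun g hg => by rw [hs g hg.1]; simp)
    rw [f2, f3] at f1
    rw [f1, mul_comm, cnt_true (Wr.sec T u)]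
    exact Nat.mul_le_mul_left _ hge
  by_contra hcon
  have hzero : cnt K (fun k => ∀ u, ¬ HasFix 1 (k.f u)) = 0 := by omega
  have hall : ∀ t ∈ T, ∃ u, t.f u = 1 := by
    intro t ht
    by_contra hno
    push Not at hno
    have : t ∈ univ.filter (fun k : Wr X (TA X 1) => k ∈ K ∧ ∀ u, ¬ HasFix 1 (k.f u)) := by
      simp only [mem_filter, mem_univ, true_and]
      refine ⟨ht.1, ?_⟩
      rintro u ⟨v, hv, -⟩
      apply hno u
      have h1 := even_fix hX (Wr.s (t.f u)) (ht.2 u) v hv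
      apply Wr.ext
      · exact h1
      · funext x; rfl
    have h2 : univ.filter (fun k : Wr X (TA X 1) => k ∈ K ∧ ∀ u, ¬ HasFix 1 (k.f u)) = ∅ := by
      rw [← Finset.card_eq_zero, ← hzero]
      unfold cnt
      congr
    rw [h2] at this
    simp at this
  set Γ : Finset (Wr X (TA X 1)) := univ.filter (fun g => g ∈ T) with hΓ
  have hΓc : Γ.card = cnt T (fun _ => True) := by unfold cnt; congr 1; ext g; simp [hΓ]
  have h1Γ : (1 : Wr X (TA X 1)) ∈ Γ := by simp [hΓ, T.one_mem]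
  have hsum : ∑ g ∈ Γ, (univ.filter (fun u : X => g.f u = 1)).card =
      ∑ u : X, cnt T (fun k => k.f u = 1) := by
    simp only [Finset.card_filter]
    rw [Finset.sum_comm]
    apply Finset.sum_congr rfl
    intro u _
    rw [← Finset.card_filter]
    unfold cnt
    congr 1
    ext g
    simp [hΓ]
  have hup : 3 * ∑ u : X, cnt T (fun k => k.f u = 1) ≤ 3 * cnt T (fun _ => True) := by
    rw [Finset.mul_sum]
    calc _ ≤ ∑ _u : X, cnt T (fun _ => True) := Finset.sum_le_sum (fun u _ => hT3 u)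
      _ = _ := by rw [Finset.sum_const, Finset.card_univ, hX, smul_eq_mul]
  have hlow : Γ.card + 2 ≤ ∑ g ∈ Γ, (univ.filter (fun u : X => g.f u = 1)).card := by
    rw [← Finset.add_sum_erase _ _ h1Γ]
    have g1 : (univ.filter (fun u : X => (1 : Wr X (TA X 1)).f u = 1)).card = 3 := by
      rw [← hX, ← Finset.card_univ]
      congr 1
      ext u
      simp
    have g2 : (Γ.erase 1).card ≤ ∑ g ∈ Γ.erase 1, (univ.filter (fun u : X => g.f u = 1)).card := by
      rw [Finset.card_eq_sum_ones]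
      apply Finset.sum_le_sum
      intro g hg
      rw [Nat.one_le_iff_ne_zero, ← Nat.pos_iff_ne_zero, Finset.card_pos]
      obtain ⟨u, hu⟩ := hall g (by
        have := (mem_erase.mp hg).2
        simpa [hΓ] using this)
      exact ⟨u, by simp [hu]⟩
    rw [Finset.card_erase_of_mem h1Γ] at g2
    have g3 : 1 ≤ Γ.card := Finset.card_pos.mpr ⟨1, h1Γ⟩
    omega
  rw [hsum, hΓc] at hlow
  omega

/-- behaviour of the sections on the second level -/
lemma star (F : Fam X) (d : ℕ) (hd : d = Fintype.card X) (hd4 : 3 ≤ d)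
    (h0 : ((d : ℤ) - 2) * F.a 1 ≤ ((d : ℤ) - 1) * F.fx 1)
    (hs : ∀ u, ((d : ℤ) - 2) * (F.sec u).a 1 ≤ ((d : ℤ) - 1) * (F.sec u).fx 1)
    (h2 : ((d : ℤ) - 2) * F.a 2 ≤ ((d : ℤ) - 1) * F.fx 2) :
    ∀ g ∈ F.G 2, ∀ u, Wr.s g u = u → Wr.s g ≠ 1 →
      (Wr.s (Wr.f g u) ≠ 1 ∧ ∃ v, Wr.s (Wr.f g u) v = v) := by
  have hdZ : (3 : ℤ) ≤ d := by exact_mod_cast hd4
  obtain ⟨e1, e2, e3⟩ := first_fam F d hd (by omega) h0
  have hsec := fun u => first_fam (F.sec u) d hd (by omega) (hs u)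
  have hf1 := fx_one F d (by omega) e1 e2
  -- notation
  let T : TA X 1 →* TA X 0 := tr 0
  let G : Subgroup (Wr X (TA X 1)) := F.G 2
  have hmap : G.map (Wr.map T) = F.G 1 := F.compat 1
  set K := ker T G with hK
  set N := cnt K (fun _ => True) with hN
  have htr : ∀ u v, ∃ g ∈ G, g.s u = v := F.trans1 1
  have ha2 : cnt G (fun _ => True) = N * (d * (d - 1)) := by
    have := map_count T G (fun _ => True)
    rw [hmap] at this
    rw [this]
    congr 1
  have hr' : ∀ u, N = d * cnt G (fun g => g.s u = u ∧ g.f u = 1) := by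
    intro u
    have f1 := sec_count G u (fun _ => True)
    have f2 : cnt G (fun g => g.s u = u ∧ True) = cnt G (fun g => g.s u = u) :=
      cnt_congr G (fun g _ => by simp)
    have f3 : cnt (Wr.sec G u) (fun _ => True) = d * (d - 1) := (hsec u).1
    rw [f2, f3] at f1
    have f4 := orbit_stab G htr u
    rw [f1, ← hd, ha2] at f4
    have : N * (d * (d - 1)) = (d * cnt G (fun g => g.s u = u ∧ g.f u = 1)) * (d * (d - 1)) := by
      rw [f4]; ring
    exact Nat.eq_of_mul_eq_mul_right (Nat.mul_pos (by omega) (by omega)) this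
  have hne : Nonempty X := inferInstance
  obtain ⟨u0⟩ := hne
  set r := cnt G (fun g => g.s u0 = u0 ∧ g.f u0 = 1) with hr
  have hNr : N = d * r := hr' u0
  have hru : ∀ u, cnt G (fun g => g.s u = u ∧ g.f u = 1) = r := by
    intro u
    have := hr' u
    rw [hNr] at this
    exact (Nat.eq_of_mul_eq_mul_left (by omega) this).symm
  have hrpos : 0 < r := by
    rcases Nat.eq_zero_or_pos r with h | h
    · have : 0 < N := cnt_one_pos _ _ trivial
      rw [h] at hNr; omega
    · exact h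
  have hmem : ∀ g, g ∈ K ↔ g ∈ G ∧ g.s = 1 := by
    intro g
    rw [hK, mem_ker]
    constructor
    · rintro ⟨h1, h2⟩
      exact ⟨h1, (map_eq_one h2).1⟩
    · rintro ⟨h1, h2⟩
      refine ⟨h1, ?_⟩
      apply Wr.ext
      · exact h2
      · funext x; rfl
  set κ := cnt K (fun g => g.f u0 = 1) with hκ
  have hκle : ∀ u v, cnt K (fun g => g.f u = 1) ≤ cnt K (fun g => g.f v = 1) := by
    intro u v
    obtain ⟨c, hc, hcu⟩ := htr u v
    rw [hK, cnt_ker, cnt_ker]
    apply cnt_conj G hc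
    rintro g hg ⟨hg1, hg2⟩
    have hs := (map_eq_one hg1).1
    refine ⟨?_, ?_⟩
    · rw [map_mul, map_mul, hg1, map_inv]; group
    · rw [conj_f hs hcu, hg2]; group
  have hκu : ∀ u, cnt K (fun g => g.f u = 1) = κ := fun u =>
    le_antisymm (hκle u u0) (hκle u0 u)
  have hκcard : ∀ u, κ = Nat.card (K ⊓ rist G u : Subgroup (Wr X (TA X 1))) := by
    intro u
    rw [← cnt_true, ← hκu u]
    unfold cnt
    congr 1
    ext g
    simp only [mem_filter, mem_univ, true_and, Subgroup.mem_inf, mem_rist, and_true]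
    constructor
    · rintro ⟨hg, hg'⟩
      have := (hmem g).mp hg
      refine ⟨hg, this.1, ?_, hg'⟩
      rw [this.2]; rfl
    · rintro ⟨hg, -, -, hg'⟩
      exact ⟨hg, hg'⟩
  have hrcard : ∀ u, r = Nat.card (rist G u) := by
    intro u
    rw [← cnt_true, cnt_rist, ← hru u]
    exact cnt_congr G (fun g _ => by simp)
  have hκr : κ ∣ r := by
    rw [hκcard u0, hrcard u0]
    exact Subgroup.card_dvd_of_le inf_le_right
  have hκpos : 0 < κ := cnt_one_pos K (fun g => g.f u0 = 1) rfl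
  have hKs : ∀ g ∈ K, g.s = 1 := fun g hg => ((hmem g).mp hg).2
  have hKm : ∀ u, ∀ g ∈ K, ∀ h ∈ K, (g * h).f u = g.f u * h.f u := by
    intro u g _ h hh
    simp [hKs h hh]
  have hKz : ∀ u, cnt K (fun g => ¬ HasFix 1 (g.f u)) ≤ κ * (d - 1) := by
    intro u
    have f1 := fiber_count' K (fun g : Wr X (TA X 1) => g.f u) (hKm u) (fun b => ¬ HasFix 1 b)
    rw [hκu u] at f1
    rw [f1]
    apply Nat.mul_le_mul_left
    have f3 : cnt (Wr.sec G u) (fun b => ¬ HasFix 1 b) = d - 1 := (hsec u).2.1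
    rw [← f3]
    unfold img cnt
    apply Finset.card_le_card
    intro b hb
    simp only [mem_filter, mem_univ, true_and] at hb ⊢
    obtain ⟨⟨g, hg, rfl⟩, hb2⟩ := hb
    exact ⟨⟨g, ((hmem g).mp hg).1, by rw [hKs g hg]; rfl, rfl⟩, hb2⟩
  -- lost elements
  set L := cnt G (fun g => Wr.Fix (HasFix 0) (Wr.map T g) ∧ ¬ Wr.Fix (HasFix 1) g) with hL
  have hFL : N * F.fx 1 = F.fx 2 + L := by
    have f1 := map_count T G (Wr.Fix (HasFix 0))
    rw [hmap] at f1
    have f2 : cnt G (fun g => Wr.Fix (HasFix 0) (Wr.map T g)) = N * F.fx 1 := f1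
    rw [← f2, cnt_split G _ (Wr.Fix (HasFix 1))]
    congr 1
    exact cnt_congr G (fun g _ => ⟨fun h => h.2, fun h => ⟨hasFix_tr 1 g h, h⟩⟩)
  have hLN : (L : ℤ) ≤ N := by
    have f1 : (N : ℤ) * F.fx 1 = F.fx 2 + L := by exact_mod_cast hFL
    have f2 : (F.a 2 : ℤ) = N * (d * (d - 1)) := by
      have : F.a 2 = N * (d * (d - 1)) := ha2
      zify [show 1 ≤ d by omega] at this
      exact this
    rw [hf1] at f1
    rw [f2] at h2
    have f3 : ((d : ℤ) - 1) * L ≤ (d - 1) * N := by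
      have : (F.fx 2 : ℤ) = N * (d - 1) ^ 2 - L := by linarith
      rw [this] at h2
      nlinarith
    exact le_of_mul_le_mul_left f3 (by linarith)
  have hsep1 : ∀ g ∈ G, ∀ u v, u ≠ v → g.s u = u → g.s v = v → g.s = 1 := by
    intro g hg u v huv hu hv
    have hg' : Wr.map T g ∈ F.G 1 := by rw [← hmap]; exact ⟨g, hg, rfl⟩
    have := e3 (Wr.map T g) hg' u v huv hu trivial hv trivial
    exact congrArg Wr.s this
  set δK := cnt K (fun k => ∀ u, ¬ HasFix 1 (k.f u)) with hδK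
  have hLlow : d * (r * (d - 1)) + δK ≤ L + d * (κ * (d - 1)) := by
    have f1 : ∀ u, r * (d - 1) ≤
        cnt G (fun g => g.s u = u ∧ g.s ≠ 1 ∧ ¬ HasFix 1 (g.f u)) + κ * (d - 1) := by
      intro u
      have f2 : cnt G (fun g => g.s u = u ∧ ¬ HasFix 1 (g.f u)) = r * (d - 1) := by
        rw [sec_count G u (fun b => ¬ HasFix 1 b), hru u]
        congr 1
        exact (hsec u).2.1
      have f3 : cnt G (fun g => g.s u = u ∧ ¬ HasFix 1 (g.f u)) =
          cnt G (fun g => (g.s u = u ∧ ¬ HasFix 1 (g.f u)) ∧ g.s ≠ 1) +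
          cnt G (fun g => (g.s u = u ∧ ¬ HasFix 1 (g.f u)) ∧ ¬ g.s ≠ 1) := cnt_split G _ _
      have f4 : cnt G (fun g => (g.s u = u ∧ ¬ HasFix 1 (g.f u)) ∧ ¬ g.s ≠ 1) =
          cnt K (fun g => ¬ HasFix 1 (g.f u)) := by
        unfold cnt
        congr 1
        ext g
        simp only [mem_filter, mem_univ, true_and, hmem, not_not]
        constructor
        · rintro ⟨h1, ⟨h2, h3⟩, h4⟩
          exact ⟨⟨h1, h4⟩, h3⟩
        · rintro ⟨⟨h1, h4⟩, h3⟩
          exact ⟨h1, ⟨by rw [h4]; rfl, h3⟩, h4⟩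
      have f5 : cnt G (fun g => (g.s u = u ∧ ¬ HasFix 1 (g.f u)) ∧ g.s ≠ 1) =
          cnt G (fun g => g.s u = u ∧ g.s ≠ 1 ∧ ¬ HasFix 1 (g.f u)) :=
        cnt_congr G (fun g _ => by tauto)
      have := hKz u
      omega
    have f2 : ∑ u : X, cnt G (fun g => g.s u = u ∧ g.s ≠ 1 ∧ ¬ HasFix 1 (g.f u)) + δK ≤ L := by
      have k1 : L = cnt G (fun g => (Wr.Fix (HasFix 0) (Wr.map T g) ∧ ¬ Wr.Fix (HasFix 1) g) ∧
          g.s ≠ 1) + cnt G (fun g => (Wr.Fix (HasFix 0) (Wr.map T g) ∧ ¬ Wr.Fix (HasFix 1) g) ∧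
          ¬ g.s ≠ 1) := cnt_split G _ _
      have k2 : δK ≤ cnt G (fun g => (Wr.Fix (HasFix 0) (Wr.map T g) ∧ ¬ Wr.Fix (HasFix 1) g) ∧
          ¬ g.s ≠ 1) := by
        rw [hδK]
        unfold cnt
        apply Finset.card_le_card
        intro g hg
        simp only [mem_filter, mem_univ, true_and, hmem, not_not] at hg ⊢
        refine ⟨hg.1.1, ⟨⟨u0, ?_, trivial⟩, ?_⟩, hg.1.2⟩
        · show g.s u0 = u0
          rw [hg.1.2]; rfl
        · rintro ⟨v, _, hv⟩
          exact hg.2 v hv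
      rw [k1]
      refine Nat.add_le_add ?_ k2
      have g1 : ∀ u : X, cnt G (fun g => g.s u = u ∧ g.s ≠ 1 ∧ ¬ HasFix 1 (g.f u)) =
          (univ.filter (fun g : Wr X (TA X 1) => g ∈ G ∧
            (g.s u = u ∧ g.s ≠ 1 ∧ ¬ HasFix 1 (g.f u)))).card := by
        intro u; unfold cnt; congr
      rw [Finset.sum_congr rfl (fun u _ => g1 u), ← Finset.card_biUnion]
      · unfold cnt
        apply Finset.card_le_card
        intro g hg
        simp only [mem_biUnion, mem_filter, mem_univ, true_and] at hg ⊢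
        obtain ⟨u, hg1, hg2, hg3, hg4⟩ := hg
        refine ⟨hg1, ⟨⟨u, hg2, trivial⟩, ?_⟩, hg3⟩
        rintro ⟨v, hv1, hv2⟩
        by_cases huv : u = v
        · subst huv; exact hg4 hv2
        · exact hg3 (hsep1 g hg1 u v huv hg2 hv1)
      · intro u _ v _ huv
        show Disjoint _ _
        rw [Finset.disjoint_left]
        intro g hg hg'
        simp only [mem_filter, mem_univ, true_and] at hg hg'
        exact hg.2.2.1 (hsep1 g hg.1 u v huv hg.2.1 hg'.2.1)
    have f3 : ∑ _u : X, r * (d - 1) ≤ ∑ u : X,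
        (cnt G (fun g => g.s u = u ∧ g.s ≠ 1 ∧ ¬ HasFix 1 (g.f u)) + κ * (d - 1)) :=
      Finset.sum_le_sum (fun u _ => f1 u)
    rw [Finset.sum_add_distrib, Finset.sum_const, Finset.sum_const, Finset.card_univ, ← hd,
      smul_eq_mul, smul_eq_mul] at f3
    omega
  have hκr' : κ = r := by
    by_contra hne
    obtain ⟨m, hm⟩ := hκr
    have hm2 : 2 ≤ m := by
      rcases m with _ | _ | m
      · omega
      · exfalso; apply hne; rw [hm]; simp
      · omega
    have f1 : (r : ℤ) ≥ 2 * κ := by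
      have : 2 * κ ≤ r := by rw [hm]; nlinarith
      exact_mod_cast this
    have f2 : (d : ℤ) * (r * (d - 1)) + δK ≤ L + d * (κ * (d - 1)) := by
      have := hLlow
      zify [show 1 ≤ d by omega] at this
      exact this
    have f3 : (N : ℤ) = d * r := by exact_mod_cast hNr
    have f6 : (0 : ℤ) < κ := by exact_mod_cast hκpos
    have f8 : (0 : ℤ) ≤ δK := by positivity
    rcases Nat.lt_or_ge 3 d with h4d | h3d
    · have h4Z : (4 : ℤ) ≤ d := by exact_mod_cast h4d
      have f4 : (d : ℤ) * ((d - 1) * (r - κ)) ≤ d * r := by nlinarith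
      have f5 : ((d : ℤ) - 1) * (r - κ) ≤ r := le_of_mul_le_mul_left f4 (by linarith)
      have f7 : (3 : ℤ) * (r - κ) ≤ (d - 1) * (r - κ) := by
        apply mul_le_mul_of_nonneg_right (by linarith) (by linarith)
      linarith
    · have hd3 : d = 3 := by omega
      have hpos : 0 < δK := by
        apply three_fpf (by rw [← hd, hd3]) K hKs
        intro u
        have g1 := sec_count K u (fun _ => True)
        have g2 : cnt K (fun g => g.s u = u ∧ True) = N := by
          rw [hN]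
          exact cnt_congr K (fun g hg => by rw [hKs g hg]; simp)
        have g3 : cnt K (fun g => g.s u = u ∧ g.f u = 1) = κ := by
          rw [← hκu u]
          exact cnt_congr K (fun g hg => by rw [hKs g hg]; simp)
        rw [g2, g3, hNr, cnt_true, hm, hd3] at g1
        have g4 : κ * (3 * m) = κ * Nat.card (Wr.sec K u) := by rw [← g1]; ring
        have g5 := Nat.eq_of_mul_eq_mul_left hκpos g4
        rw [← g5]
        exact dvd_mul_right 3 m
      have hposZ : (0 : ℤ) < δK := by exact_mod_cast hpos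
      have hd3Z : (d : ℤ) = 3 := by exact_mod_cast hd3
      rw [f3] at hLN
      rw [hd3Z] at f2 hLN
      linarith
  have hrist : ∀ u, ∀ g ∈ rist G u, g ∈ K := by
    intro u g hg
    have f1 : (K ⊓ rist G u : Subgroup (Wr X (TA X 1))) = rist G u := by
      apply Subgroup.eq_of_le_of_card_ge inf_le_right
      rw [← hκcard u, ← hrcard u, hκr']
    rw [← f1] at hg
    exact hg.1
  -- conclusion
  suffices key : ∀ g : Wr X (TA X 1), g ∈ G → ∀ u, g.s u = u → g.s ≠ 1 →
      (Wr.s (g.f u) ≠ 1 ∧ ∃ v, Wr.s (g.f u) v = v) from key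
  intro g hg u hgu hgs
  set h := Wr.f g u with hh
  have hhB : h ∈ (F.sec u).G 1 := ⟨g, hg, hgu, rfl⟩
  have hh1 : h ≠ 1 := by
    intro hh1
    have : g ∈ rist G u := ⟨hg, hgu, hh1⟩
    exact hgs (hKs g (hrist u g this))
  have hTA1 : ∀ b : TA X 1, Wr.s b = 1 → b = 1 := by
    intro b hb
    apply Wr.ext
    · exact hb
    · funext x; rfl
  refine ⟨fun hcon => hh1 (hTA1 h hcon), ?_⟩
  by_contra hnofix
  have hnofix' : ¬ HasFix 1 h := by
    rintro ⟨v, hv, -⟩
    exact hnofix ⟨v, hv⟩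
  -- the image of the kernel
  set Q := Wr.sec K u with hQ
  have hQB : Q ≤ (F.sec u).G 1 := by
    rintro b ⟨k, hk, hku, rfl⟩
    exact ⟨k, ((hmem k).mp hk).1, hku, rfl⟩
  have hQd : Nat.card Q = d := by
    have f1 := sec_count K u (fun _ => True)
    have f2 : cnt K (fun g => g.s u = u ∧ True) = N := by
      rw [hN]
      exact cnt_congr K (fun g hg => by rw [hKs g hg]; simp)
    have f3 : cnt K (fun g => g.s u = u ∧ g.f u = 1) = r := by
      rw [← hκr', ← hκu u]
      exact cnt_congr K (fun g hg => by rw [hKs g hg]; simp)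
    rw [f2, f3, hNr, cnt_true, mul_comm d] at f1
    exact (Nat.eq_of_mul_eq_mul_left hrpos f1).symm
  have hQfix : ∀ q ∈ Q, HasFix 1 q → q = 1 := by
    rintro q hq ⟨v, hv, -⟩
    have f1 : orderOf q ∣ d := by
      rw [← hQd]
      exact Subgroup.orderOf_dvd_natCard Q hq
    have f2 : Nat.card (stab (X := X) (H := TA X 0) ((F.sec u).G 1) v) = d - 1 := by
      rw [← cnt_true, cnt_stab]
      have g1 := orbit_stab (X := X) (H := TA X 0) ((F.sec u).G 1) ((F.sec u).trans1 0) v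
      have g2 : cnt ((F.sec u).G 1) (fun _ => True) = d * (d - 1) := (hsec u).1
      have g3 : (cnt ((F.sec u).G 1) (fun _ => True) : ℕ) =
        Fintype.card X * cnt ((F.sec u).G 1) (fun g => Wr.s g v = v) := g1
      rw [g2, ← hd] at g3
      have g4 := Nat.eq_of_mul_eq_mul_left (by omega) g3
      rw [g4]
      exact cnt_congr _ (fun g _ => by simp)
    have f3 : orderOf q ∣ d - 1 := by
      rw [← f2]
      exact Subgroup.orderOf_dvd_natCard _ (⟨hQB hq, hv⟩ : q ∈ stab ((F.sec u).G 1) v)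
    have f4 : orderOf q ∣ 1 := by
      have f5 := Nat.dvd_sub f1 f3
      rwa [show d - (d - 1) = 1 by omega] at f5
    rw [← orderOf_eq_one_iff]
    exact Nat.dvd_one.mp f4
  have hhQ : h ∈ Q := by
    have f1 : (univ.filter (fun b : TA X 1 => b ∈ Q)).erase 1 ⊆
        univ.filter (fun b : TA X 1 => b ∈ (F.sec u).G 1 ∧ ¬ HasFix 1 b) := by
      intro b hb
      simp only [mem_erase, mem_filter, mem_univ, true_and] at hb ⊢
      exact ⟨hQB hb.2, fun hf => hb.1 (hQfix b hb.2 hf)⟩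
    have f2 : ((univ.filter (fun b : TA X 1 => b ∈ Q)).erase 1).card = d - 1 := by
      rw [Finset.card_erase_of_mem (by simp [Q.one_mem])]
      congr 1
      rw [← hQd, ← cnt_true]
      unfold cnt
      congr 1
      ext b
      simp
    have f3 : (univ.filter (fun b : TA X 1 => b ∈ (F.sec u).G 1 ∧ ¬ HasFix 1 b)).card = d - 1 := by
      rw [← (hsec u).2.1]
      unfold cnt
      congr
    have f4 := Finset.eq_of_subset_of_card_le f1 (by rw [f2, f3])
    have f5 : h ∈ univ.filter (fun b : TA X 1 => b ∈ (F.sec u).G 1 ∧ ¬ HasFix 1 b) := by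
      simp only [mem_filter, mem_univ, true_and]
      exact ⟨hhB, hnofix'⟩
    rw [← f4] at f5
    simp only [mem_erase, mem_filter, mem_univ, true_and] at f5
    exact f5.2
  obtain ⟨k, hk, hku, hkh⟩ := hhQ
  have hks := hKs k hk
  have f1 : k⁻¹ * g ∈ rist G u := by
    refine ⟨G.mul_mem (G.inv_mem ((hmem k).mp hk).1) hg, ?_, ?_⟩
    · rw [Wr.mul_s, Wr.inv_s, hks, Equiv.Perm.mul_apply]
      exact hgu
    · rw [Wr.mul_f, Wr.inv_f, hks, hgu]
      show (k.f u)⁻¹ * g.f u = 1
      rw [hkh, ← hh, inv_mul_cancel]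
  have f2 := hKs _ (hrist u _ f1)
  rw [Wr.mul_s, Wr.inv_s, hks] at f2
  apply hgs
  simpa using f2

end level2

end V1188.FP
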