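import Pool.Agent.V1188.FPB

namespace V1188.FP

open Finset Classical Filter

set_option linter.unusedSectionVars false

section gap

variable {X : Type} [Fintype X] [Nonempty X]

/-- the threshold `(d-2)/(d-1)` -/
noncomputable def thr (d : ℕ) : ℝ := ((d : ℝ) - 2) / ((d : ℝ) - 1)

lemma above_iff (F : Fam X) (d : ℕ) (hd3 : 3 ≤ d) (n : ℕ) :
    ((d : ℤ) - 2) * F.a n ≤ ((d : ℤ) - 1) * F.fx n ↔ thr d ≤ F.P n := by
  unfold thr Fam.P
  have h1 : (3 : ℝ) ≤ d := by exact_mod_cast hd3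
  rw [div_le_div_iff₀ (by linarith) (by exact_mod_cast a_pos F n), mul_comm (F.fx n : ℝ)]
  constructor
  · intro h; exact_mod_cast h
  · intro h; exact_mod_cast h

lemma P_sec (F : Fam X) (n : ℕ) (u : X) : F.P (n + 1) ≤ (F.sec u).P n := by
  unfold Fam.P
  have h1 := fx_le F n u
  have h2 := a_eq F n u
  set r := cnt (F.G (n + 1)) (fun g => Wr.s g u = u ∧ Wr.f g u = 1) with hr
  rw [div_le_div_iff₀ (by exact_mod_cast a_pos F (n + 1)) (by exact_mod_cast a_pos (F.sec u) n)]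
  rw [h2]
  have h3 : F.fx (n + 1) * (F.sec u).a n ≤
      (F.sec u).fx n * (Fintype.card X * (r * (F.sec u).a n)) := by
    calc F.fx (n + 1) * (F.sec u).a n ≤ (Fintype.card X * (r * (F.sec u).fx n)) * (F.sec u).a n :=
          Nat.mul_le_mul_right _ h1
      _ = _ := by ring
  exact_mod_cast h3

/-- families all of whose ratios are at least `c` -/
def Cls (c : ℝ) (F : Fam X) : Prop := ∀ n, c ≤ F.P n

lemma Cls.sec {c : ℝ} {F : Fam X} (h : Cls c F) (u : X) : Cls c (F.sec u) :=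
  fun n => (h (n + 1)).trans (P_sec F n u)

lemma card_Wr (H : Type) [Group H] [Fintype H] :
    Nat.card (Wr X H) = (Fintype.card X).factorial * (Fintype.card H) ^ (Fintype.card X) := by
  have e : Wr X H ≃ Equiv.Perm X × (X → H) :=
    ⟨fun g => (g.s, g.f), fun p => ⟨p.1, p.2⟩, fun _ => rfl, fun _ => rfl⟩
  rw [Nat.card_congr e, Nat.card_prod, Nat.card_fun, Nat.card_eq_fintype_card,
    Nat.card_eq_fintype_card, Nat.card_eq_fintype_card, Fintype.card_perm]

lemma card_TA1 : Nat.card (TA X 1) = (Fintype.card X).factorial := by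
  have h : Nat.card (Wr X (TA X 0)) = _ := card_Wr (X := X) (TA X 0)
  have h0 : Fintype.card (TA X 0) = 1 := rfl
  rw [h0, one_pow, mul_one] at h
  exact h

lemma card_TA2 : Nat.card (TA X 2) = (Fintype.card X).factorial ^ (Fintype.card X + 1) := by
  have h : Nat.card (Wr X (TA X 1)) = _ := card_Wr (X := X) (TA X 1)
  rw [← Nat.card_eq_fintype_card (α := TA X 1), card_TA1] at h
  have h' : Nat.card (TA X 2) = (Fintype.card X).factorial *
      (Fintype.card X).factorial ^ Fintype.card X := h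
  rw [h', pow_succ, mul_comm]

lemma a_le_card (F : Fam X) (n : ℕ) : F.a n ≤ Nat.card (TA X n) := by
  unfold Fam.a
  rw [cnt_true]
  exact Nat.card_le_card_of_injective _ Subtype.val_injective

/-- width of the gap -/
noncomputable def eps (d : ℕ) : ℝ := 1 / (((d : ℝ) - 1) * (d.factorial : ℝ) ^ (d + 1))

lemma below (F : Fam X) (d : ℕ) (hd3 : 3 ≤ d) (n : ℕ)
    (hn : F.a n ≤ d.factorial ^ (d + 1)) (h : F.P n < thr d) : F.P n ≤ thr d - eps d := by
  have h1 : (3 : ℝ) ≤ d := by exact_mod_cast hd3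
  have ha : (0 : ℝ) < F.a n := by exact_mod_cast a_pos F n
  have h2 : ¬ ((d : ℤ) - 2) * F.a n ≤ ((d : ℤ) - 1) * F.fx n := by
    rw [above_iff F d hd3 n]; exact not_le.mpr h
  have h3 : ((d : ℤ) - 1) * F.fx n + 1 ≤ ((d : ℤ) - 2) * F.a n := by
    push Not at h2; linarith
  have h3' : ((d : ℝ) - 1) * F.fx n + 1 ≤ ((d : ℝ) - 2) * F.a n := by exact_mod_cast h3
  have h4 : (F.a n : ℝ) ≤ (d.factorial : ℝ) ^ (d + 1) := by exact_mod_cast hn
  have h5 : eps d ≤ 1 / (((d : ℝ) - 1) * F.a n) := by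
    unfold eps
    apply one_div_le_one_div_of_le (mul_pos (by linarith) ha)
    exact mul_le_mul_of_nonneg_left h4 (by linarith)
  have h6 : F.P n ≤ thr d - 1 / (((d : ℝ) - 1) * F.a n) := by
    unfold thr Fam.P
    have hd1 : (0 : ℝ) < (d : ℝ) - 1 := by linarith
    have : ((d : ℝ) - 2) / ((d : ℝ) - 1) - 1 / (((d : ℝ) - 1) * F.a n) =
        (((d : ℝ) - 2) * F.a n - 1) / (((d : ℝ) - 1) * F.a n) := by
      field_simp
    rw [this, div_le_div_iff₀ ha (mul_pos hd1 ha)]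
    nlinarith
  linarith

/-- inside the class the first two levels are above the threshold -/
lemma Cls.above {c : ℝ} {F : Fam X} (h : Cls c F) (d : ℕ) (hd : d = Fintype.card X) (hd3 : 3 ≤ d)
    (hc : thr d - eps d < c) (n : ℕ) (hn : n = 1 ∨ n = 2) :
    ((d : ℤ) - 2) * F.a n ≤ ((d : ℤ) - 1) * F.fx n := by
  rw [above_iff F d hd3 n]
  by_contra hcon
  push Not at hcon
  have h1 : F.a n ≤ d.factorial ^ (d + 1) := by
    refine (a_le_card F n).trans ?_
    rcases hn with rfl | rfl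
    · rw [card_TA1, ← hd]
      exact Nat.le_self_pow (by omega) _
    · rw [card_TA2, ← hd]
  have := below F d hd3 n h1 hcon
  have := h n
  linarith

/-- elements acting on the first level non-trivially with a fixed point have fixed words at all
levels -/
lemma Cls.fixed {c : ℝ} (d : ℕ) (hd : d = Fintype.card X) (hd4 : 3 ≤ d)
    (hc : thr d - eps d < c) : ∀ (n : ℕ) (F : Fam X), Cls c F → ∀ g ∈ F.G (n + 1),
      Wr.s g ≠ 1 → (∃ u, Wr.s g u = u) → HasFix (n + 1) g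
  | 0, _, _, g, _, _, ⟨u, hu⟩ => ⟨u, hu, trivial⟩
  | n + 1, F, hF, g, hg, hg1, ⟨u, hu⟩ => by
    have hstar := star F d hd hd4 (hF.above d hd (by omega) hc 1 (Or.inl rfl))
      (fun u => (hF.sec u).above d hd (by omega) hc 1 (Or.inl rfl))
      (hF.above d hd (by omega) hc 2 (Or.inr rfl))
    have h1 : res (n + 2) 2 g ∈ F.G 2 := res_mem F (n + 2) g hg n 2 (by omega)
    obtain ⟨h2, v, h3⟩ := hstar _ h1 u hu hg1
    exact ⟨u, hu, Cls.fixed d hd hd4 hc n (F.sec u) (hF.sec u) (Wr.f g u) ⟨g, hg, hu, rfl⟩ h2 ⟨v, h3⟩⟩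

/-- the proportion of non-trivially acting elements with a fixed letter -/
lemma middle (F : Fam X) (d : ℕ) (hd : d = Fintype.card X) (hd3 : 3 ≤ d)
    (h : ((d : ℤ) - 2) * F.a 1 ≤ ((d : ℤ) - 1) * F.fx 1) (n : ℕ) :
    ((d : ℤ) - 1) * cnt (F.G (n + 1)) (fun g => Wr.s g ≠ 1 ∧ ∃ u, Wr.s g u = u) =
      ((d : ℤ) - 2) * F.a (n + 1) := by
  have hdZ : (3 : ℤ) ≤ d := by exact_mod_cast hd3
  induction n with
  | zero =>
    obtain ⟨h1, h2, h3⟩ := first_fam F d hd hd3 h
    have hTA1 : ∀ b : TA X 1, Wr.s b = 1 → b = 1 := by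
      intro b hb
      apply Wr.ext
      · exact hb
      · funext x; rfl
    have e1 : F.a 1 = F.fx 1 + cnt (F.G 1) (fun g => ¬ HasFix 1 g) := by
      unfold Fam.a Fam.fx
      rw [cnt_split (F.G 1) (fun _ => True) (HasFix 1)]
      congr 1
      · exact cnt_congr _ (fun g _ => by simp)
      · exact cnt_congr _ (fun g _ => by simp)
    have e2 : F.fx 1 = cnt (F.G 1) (fun g => HasFix 1 g ∧ Wr.s g = 1) +
        cnt (F.G 1) (fun g => HasFix 1 g ∧ ¬ Wr.s g = 1) := cnt_split _ _ _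
    have e3 : cnt (F.G 1) (fun g => HasFix 1 g ∧ Wr.s g = 1) = 1 := by
      unfold cnt
      rw [Finset.card_eq_one]
      refine ⟨1, ?_⟩
      ext g
      simp only [mem_filter, mem_univ, true_and, mem_singleton]
      constructor
      · rintro ⟨_, _, h⟩; exact hTA1 g h
      · rintro rfl; exact ⟨Subgroup.one_mem _, hasFix_one 1, rfl⟩
    have e4 : cnt (F.G 1) (fun g => HasFix 1 g ∧ ¬ Wr.s g = 1) =
        cnt (F.G (0 + 1)) (fun g => Wr.s g ≠ 1 ∧ ∃ u, Wr.s g u = u) := by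
      apply cnt_congr
      intro g _
      constructor
      · rintro ⟨⟨u, hu, _⟩, h⟩; exact ⟨h, u, hu⟩
      · rintro ⟨h, u, hu⟩; exact ⟨⟨u, hu, trivial⟩, h⟩
    have e5 : F.a (0 + 1) = F.a 1 := rfl
    rw [← e4, e5]
    rw [h2] at e1
    rw [e3] at e2
    rw [h1] at e1 ⊢
    zify [show 1 ≤ d by omega] at e1 e2 ⊢
    rw [e2] at e1
    have : (cnt (F.G 1) (fun g => HasFix 1 g ∧ ¬ Wr.s g = 1) : ℤ) = d * (d - 1) - 1 - (d - 1) := by
      linarith
    rw [this]; ring
  | succ n ih =>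
    have h1 := fiber_count' (F.G (n + 2)) (fun g => tr (n + 1) g)
      (by intro g _ h _; exact map_mul _ _ _) (fun g => Wr.s g ≠ 1 ∧ ∃ u, Wr.s g u = u)
    have h2 := fiber_count' (F.G (n + 2)) (fun g => tr (n + 1) g)
      (by intro g _ h _; exact map_mul _ _ _) (fun _ => True)
    have h3 : ∀ C : TA X (n + 1) → Prop, img (F.G (n + 2)) (fun g => tr (n + 1) g) C =
        cnt (F.G (n + 1)) C := by
      intro C
      unfold img cnt
      congr 1
      ext b
      simp only [mem_filter, mem_univ, true_and]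
      rw [← F.compat (n + 1), Subgroup.mem_map]
    rw [h3] at h1 h2
    have h4 : cnt (F.G (n + 1 + 1)) (fun g => Wr.s g ≠ 1 ∧ ∃ u, Wr.s g u = u) =
        cnt (F.G (n + 2)) (fun g => tr (n + 1) g = 1) *
        cnt (F.G (n + 1)) (fun g => Wr.s g ≠ 1 ∧ ∃ u, Wr.s g u = u) := h1
    have h5 : F.a (n + 1 + 1) = cnt (F.G (n + 2)) (fun g => tr (n + 1) g = 1) *
        F.a (n + 1) := h2
    rw [h4, h5]
    push_cast
    have : ((d : ℤ) - 1) * (cnt (F.G (n + 2)) (fun g => tr (n + 1) g = 1) *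
        cnt (F.G (n + 1)) (fun g => Wr.s g ≠ 1 ∧ ∃ u, Wr.s g u = u)) =
        cnt (F.G (n + 2)) (fun g => tr (n + 1) g = 1) * (((d : ℤ) - 1) *
        cnt (F.G (n + 1)) (fun g => Wr.s g ≠ 1 ∧ ∃ u, Wr.s g u = u)) := by ring
    rw [this, ih]; ring

/-- the gap -/
lemma gap (F : Fam X) (d : ℕ) (hd : d = Fintype.card X) (hd4 : 3 ≤ d) {c : ℝ}
    (hc : Tendsto F.P atTop (nhds c)) : c ≤ thr d - eps d ∨ thr d ≤ c := by
  by_contra hcon
  push Not at hcon
  obtain ⟨h1, h2⟩ := hcon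
  have hF : Cls c F := fun n => lim_le_P F hc n
  have hab := hF.above d hd (by omega) h1 1 (Or.inl rfl)
  have h3 : ∀ n, thr d ≤ F.P (n + 1) := by
    intro n
    rw [← above_iff F d (by omega) (n + 1), ← middle F d hd (by omega) hab n]
    have hdZ : (3 : ℤ) ≤ d := by exact_mod_cast hd4
    apply mul_le_mul_of_nonneg_left _ (by linarith)
    have : cnt (F.G (n + 1)) (fun g => Wr.s g ≠ 1 ∧ ∃ u, Wr.s g u = u) ≤ F.fx (n + 1) :=
      cnt_mono _ (fun g hg hg' => Cls.fixed d hd hd4 h1 n F hF g hg hg'.1 hg'.2)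
    exact_mod_cast this
  have h4 : thr d ≤ c := ge_of_tendsto' ((tendsto_add_atTop_iff_nat 1).mpr hc) h3
  linarith

end gap

end V1188.FP
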