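import Pool.Agent.V1188.FPC
import Pool.Agent.V1188.FP9

namespace V1188.FP

open Finset Classical Filter PowerSeries

set_option linter.unusedSectionVars false

variable {X : Type} {F : Type} [Field F] (e : X ≃ F)

lemma cc_C (c : F) : cc (PowerSeries.C c) = c := by unfold cc; simp

lemma sh_C (c : F) : sh (PowerSeries.C c) = 0 := by
  have : (PowerSeries.C c : PowerSeries F) = PowerSeries.C c + PowerSeries.X * 0 := by ring
  exact (sh_unique this).2

/-- the group generated by translations and scalar dilations -/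
noncomputable def dilFam : Fam X where
  G n := {
    carrier := {g | ∃ (α : F) (b : PowerSeries F), α ≠ 0 ∧ g = A e n (PowerSeries.C α) b}
    one_mem' := ⟨1, 0, one_ne_zero, by rw [map_one, A_one]⟩
    mul_mem' := by
      rintro g h ⟨a, b, ha, rfl⟩ ⟨c, d, hc, rfl⟩
      refine ⟨a * c, PowerSeries.C a * d + b, mul_ne_zero ha hc, ?_⟩
      rw [A_mul e n _ b _ d (by rwa [cc_C]) (by rwa [cc_C]), map_mul]
    inv_mem' := by
      rintro g ⟨a, b, ha, rfl⟩
      refine ⟨a⁻¹, -(PowerSeries.C a⁻¹ * b), inv_ne_zero ha, ?_⟩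
      apply inv_eq_of_mul_eq_one_right
      rw [A_mul e n _ b _ _ (by rwa [cc_C]) (by rw [cc_C]; exact inv_ne_zero ha)]
      have h1 : (PowerSeries.C a * PowerSeries.C a⁻¹ : PowerSeries F) = 1 := by
        rw [← map_mul, mul_inv_cancel₀ ha, map_one]
      have h2 : PowerSeries.C a * -(PowerSeries.C a⁻¹ * b) + b = 0 := by
        have : PowerSeries.C a * -(PowerSeries.C a⁻¹ * b) + b =
          -((PowerSeries.C a * PowerSeries.C a⁻¹) * b) + b := by ring
        rw [this, h1]; ring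
      rw [h1, h2, A_one] }
  compat n := by
    ext g
    rw [Subgroup.mem_map]
    constructor
    · rintro ⟨_, ⟨a, b, ha, rfl⟩, rfl⟩
      exact ⟨a, b, ha, A_tr e n _ b⟩
    · rintro ⟨a, b, ha, rfl⟩
      exact ⟨_, ⟨a, b, ha, rfl⟩, A_tr e n _ b⟩
  trans n v w := by
    obtain ⟨b, hb⟩ := A_trans e n v w
    exact ⟨_, ⟨1, b, one_ne_zero, rfl⟩, by rw [map_one]; exact hb⟩

lemma dil_fix : ∀ (n : ℕ) (α : F) (b : PowerSeries F), α ≠ 0 → α ≠ 1 →
    HasFix n (A e n (PowerSeries.C α) b)
  | 0, _, _, _, _ => trivial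
  | n + 1, α, b, h0, h1 => by
    have h2 : α - 1 ≠ 0 := sub_ne_zero.mpr h1
    refine ⟨e.symm (-(cc b) / (α - 1)), ?_, ?_⟩
    · show aff e (cc (PowerSeries.C α)) (cc b) (e.symm (-(cc b) / (α - 1))) = _
      rw [cc_C, aff_apply e h0, Equiv.apply_symm_apply]
      congr 1
      field_simp
      ring
    · show HasFix n (A e n (PowerSeries.C α)
        (PowerSeries.C (e (e.symm (-(cc b) / (α - 1)))) * sh (PowerSeries.C α) + sh b))
      exact dil_fix n α _ h0 h1

lemma trans_fix (n : ℕ) (b : PowerSeries F) (h : HasFix n (A e n (PowerSeries.C 1) b)) :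
    A e n (PowerSeries.C 1) b = 1 := by
  obtain ⟨w, hw⟩ := fix_word n _ h
  have h1 := act_ev e n (PowerSeries.C 1) b w (by rw [cc_C]; exact one_ne_zero)
  rw [hw] at h1
  apply A_triv
  · rw [map_one, sub_self]; exact dvd_zero _
  · have h2 : ev e n w - (PowerSeries.C 1 * ev e n w + b) = -b := by rw [map_one]; ring
    rwa [h2, dvd_neg] at h1

variable [Fintype X] [Nonempty X]

lemma dil_one (n : ℕ) (hn : n ≤ 1) : (dilFam e).G n = (affFam e).G n := by
  ext g
  rcases Nat.le_one_iff_eq_zero_or_eq_one.mp hn with rfl | rfl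
  · constructor
    · rintro ⟨a, b, ha, rfl⟩
      exact ⟨PowerSeries.C a, b, by rwa [cc_C], rfl⟩
    · rintro ⟨a, b, ha, rfl⟩
      exact ⟨1, b, one_ne_zero, rfl⟩
  · constructor
    · rintro ⟨a, b, ha, rfl⟩
      exact ⟨PowerSeries.C a, b, by rwa [cc_C], rfl⟩
    · rintro ⟨a, b, ha, rfl⟩
      refine ⟨cc a, b, ha, ?_⟩
      apply Wr.ext
      · show aff e (cc a) (cc b) = aff e (cc (PowerSeries.C (cc a))) (cc b)
        rw [cc_C]
      · funext x; rfl

lemma dil_lim (d : ℕ) (hd : d = Fintype.card X) (hd3 : 3 ≤ d) :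
    Tendsto (dilFam e).P atTop (nhds (thr d)) := by
  have hdR : (3 : ℝ) ≤ d := by exact_mod_cast hd3
  have hdZ : (3 : ℤ) ≤ d := by exact_mod_cast hd3
  set D := dilFam e with hD
  have ha1 : D.a 1 = (affFam e).a 1 := by unfold Fam.a; rw [hD, dil_one e 1 le_rfl]
  have hf1 : D.fx 1 = (affFam e).fx 1 := by unfold Fam.fx; rw [hD, dil_one e 1 le_rfl]
  have h1 : ((d : ℤ) - 2) * D.a 1 ≤ ((d : ℤ) - 1) * D.fx 1 := by
    have hg := aff_good e d hd (by omega) 1
    rw [ha1, hf1]
    have ha0 : (0 : ℤ) < (affFam e).a 1 := by exact_mod_cast a_pos (affFam e) 1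
    have h2 : ((d : ℤ) + 1) * (((d : ℤ) - 2) * (affFam e).a 1) ≤
        ((d : ℤ) + 1) * (((d : ℤ) - 1) * (affFam e).fx 1) := by nlinarith
    exact le_of_mul_le_mul_left h2 (by linarith)
  have hmid := middle D d hd hd3 h1
  have hinc : ∀ n, cnt (D.G (n + 1)) (fun g => Wr.s g ≠ 1 ∧ ∃ u, Wr.s g u = u) ≤ D.fx (n + 1) := by
    intro n
    apply cnt_mono
    rintro g ⟨α, b, hα, rfl⟩ ⟨hs, u, hu⟩
    apply dil_fix e (n + 1) α b hα
    rintro rfl
    apply hs
    have hu' : aff e (cc (PowerSeries.C 1)) (cc b) u = u := hu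
    rw [cc_C, aff_apply e one_ne_zero, Equiv.symm_apply_eq, one_mul] at hu'
    have hb0 : cc b = 0 := by simpa using hu'
    show aff e (cc (PowerSeries.C 1)) (cc b) = 1
    rw [cc_C, hb0]
    ext x
    rw [aff_apply e one_ne_zero]
    simp
  have hout : ∀ n, D.fx (n + 1) ≤
      cnt (D.G (n + 1)) (fun g => Wr.s g ≠ 1 ∧ ∃ u, Wr.s g u = u) + 1 := by
    intro n
    have e2 : D.fx (n + 1) = cnt (D.G (n + 1)) (fun g => HasFix (n + 1) g ∧ Wr.s g ≠ 1) +
        cnt (D.G (n + 1)) (fun g => HasFix (n + 1) g ∧ ¬ Wr.s g ≠ 1) := cnt_split _ _ _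
    have e3 : cnt (D.G (n + 1)) (fun g => HasFix (n + 1) g ∧ ¬ Wr.s g ≠ 1) ≤ 1 := by
      unfold cnt
      rw [Finset.card_le_one]
      have key : ∀ g ∈ D.G (n + 1), HasFix (n + 1) g → Wr.s g = 1 → g = 1 := by
        rintro g ⟨α, b, hα, rfl⟩ hfix hs
        have hs' : aff e (cc (PowerSeries.C α)) (cc b) = 1 := hs
        rw [cc_C] at hs'
        have h0 := congrFun (congrArg DFunLike.coe hs') (e.symm 0)
        have h1 := congrFun (congrArg DFunLike.coe hs') (e.symm 1)
        rw [aff_apply e hα, Equiv.Perm.one_apply, Equiv.apply_symm_apply] at h0 h1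
        have h0' := e.symm.injective h0
        have h1' := e.symm.injective h1
        have hα1 : α = 1 := by
          rw [mul_zero, zero_add] at h0'
          rw [h0'] at h1'
          simpa using h1'
        subst hα1
        exact trans_fix e (n + 1) b hfix
      intro g hg k hk
      simp only [mem_filter, mem_univ, true_and, not_not] at hg hk
      rw [key g hg.1 hg.2.1 hg.2.2, key k hk.1 hk.2.1 hk.2.2]
    have e4 : cnt (D.G (n + 1)) (fun g => HasFix (n + 1) g ∧ Wr.s g ≠ 1) ≤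
        cnt (D.G (n + 1)) (fun g => Wr.s g ≠ 1 ∧ ∃ u, Wr.s g u = u) := by
      apply cnt_mono
      rintro g _ ⟨⟨u, hu, _⟩, hs⟩
      exact ⟨hs, u, hu⟩
    omega
  have hlow : ∀ n, thr d ≤ D.P (n + 1) := by
    intro n
    rw [← above_iff D d hd3 (n + 1), ← hmid n]
    apply mul_le_mul_of_nonneg_left _ (by linarith)
    exact_mod_cast hinc n
  have hup : ∀ n, D.P (n + 1) ≤ thr d + 1 / (D.a (n + 1) : ℝ) := by
    intro n
    have ha : (0 : ℝ) < D.a (n + 1) := by exact_mod_cast a_pos D (n + 1)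
    have h2 : ((d : ℝ) - 1) * cnt (D.G (n + 1)) (fun g => Wr.s g ≠ 1 ∧ ∃ u, Wr.s g u = u) =
      ((d : ℝ) - 2) * D.a (n + 1) := by exact_mod_cast hmid n
    have h3 : (D.fx (n + 1) : ℝ) ≤
      cnt (D.G (n + 1)) (fun g => Wr.s g ≠ 1 ∧ ∃ u, Wr.s g u = u) + 1 := by exact_mod_cast hout n
    have h4 : thr d * D.a (n + 1) =
        cnt (D.G (n + 1)) (fun g => Wr.s g ≠ 1 ∧ ∃ u, Wr.s g u = u) := by
      unfold thr
      have hd1 : (d : ℝ) - 1 ≠ 0 := by linarith
      field_simp
      linarith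
    unfold Fam.P
    rw [div_le_iff₀ ha, add_mul, h4, one_div, inv_mul_cancel₀ ha.ne']
    exact h3
  have hagrow : ∀ n, d ^ n ≤ D.a n := by
    intro n
    induction n with
    | zero => rw [pow_zero]; exact a_pos D 0
    | succ n ih =>
      obtain ⟨u⟩ := ‹Nonempty X›
      have h2 : D.a (n + 1) = Fintype.card X *
        (cnt (D.G (n + 1)) (fun g => Wr.s g u = u ∧ Wr.f g u = 1) * (D.sec u).a n) := a_eq D n u
      have h3 : 0 < cnt (D.G (n + 1)) (fun g => Wr.s g u = u ∧ Wr.f g u = 1) :=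
        cnt_one_pos _ _ ⟨rfl, rfl⟩
      have h4 : d ^ n ≤ (D.sec u).a n := by
        have : (D.sec u).G n = D.G n := by
          ext h
          constructor
          · rintro ⟨g, ⟨a, b, ha, rfl⟩, hgu, rfl⟩
            exact ⟨a, _, ha, rfl⟩
          · rintro ⟨a, b', ha, rfl⟩
            set b : PowerSeries F := PowerSeries.C (e u - a * e u) + PowerSeries.X * b' with hb
            obtain ⟨h1, h2⟩ := sh_unique hb
            refine ⟨A e (n + 1) (PowerSeries.C a) b, ⟨a, b, ha, rfl⟩, ?_, ?_⟩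
            · show aff e (cc (PowerSeries.C a)) (cc b) u = u
              rw [cc_C, aff_apply e ha, h1, Equiv.symm_apply_eq]
              ring
            · show A e n (PowerSeries.C a) (PowerSeries.C (e u) * sh (PowerSeries.C a) + sh b) =
                A e n (PowerSeries.C a) b'
              rw [h2, sh_C]
              congr 1
              ring
        have h5 : (D.sec u).a n = D.a n := by unfold Fam.a; rw [this]
        rw [h5]; exact ih
      rw [h2, ← hd, pow_succ, mul_comm]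
      apply Nat.mul_le_mul_left
      calc d ^ n ≤ (D.sec u).a n := h4
        _ = 1 * (D.sec u).a n := by ring
        _ ≤ _ := Nat.mul_le_mul_right _ h3
  rw [← tendsto_add_atTop_iff_nat 1]
  have h5 : Tendsto (fun n => (D.a (n + 1) : ℝ)) atTop atTop := by
    apply tendsto_natCast_atTop_atTop.comp
    apply tendsto_atTop_mono (f := fun n => n) _ tendsto_id
    intro n
    have h2 : n < d ^ n := Nat.lt_pow_self (by omega)
    have h3 : d ^ n ≤ d ^ (n + 1) := Nat.pow_le_pow_right (by omega) (by omega)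
    have := hagrow (n + 1)
    omega
  have h6 := (tendsto_const_nhds (x := (1 : ℝ)) (f := atTop)).div_atTop h5
  have h7 := (tendsto_const_nhds (x := thr d) (f := atTop)).add h6
  rw [add_zero] at h7
  exact tendsto_of_tendsto_of_tendsto_of_le_of_le tendsto_const_nhds h7 hlow hup

end V1188.FP
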