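import Mathlib

open Filter Topology

namespace Pool.Agent.V1188.SD

/-- partial sums of `(j+1)^(-t)` for `0 ≤ t < 1` -/
lemma sum_le {t : ℝ} (ht0 : 0 ≤ t) (ht1 : t < 1) (n : ℕ) :
    ∑ j ∈ Finset.range n, ((j : ℝ) + 1) ^ (-t) ≤ (n : ℝ) ^ (1 - t) / (1 - t) := by
  have h1 : 0 < 1 - t := by linarith
  induction n with
  | zero => simp [Real.zero_rpow h1.ne']
  | succ n ih =>
    rw [Finset.sum_range_succ]
    push_cast
    have hn : (0 : ℝ) < (n : ℝ) + 1 := by positivity
    have hb : (1 + (-(1 / ((n : ℝ) + 1)))) ^ (1 - t) ≤ 1 + (1 - t) * (-(1 / ((n : ℝ) + 1))) := by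
      apply _root_.rpow_one_add_le_one_add_mul_self
      · rw [neg_le_neg_iff, div_le_one hn]
        linarith [Nat.cast_nonneg (α := ℝ) n]
      · exact h1.le
      · linarith
    have he : (n : ℝ) = ((n : ℝ) + 1) * (1 + (-(1 / ((n : ℝ) + 1)))) := by
      field_simp
      ring
    have h0 : (0 : ℝ) ≤ 1 + (-(1 / ((n : ℝ) + 1))) := by
      have : 1 / ((n : ℝ) + 1) ≤ 1 := by
        rw [div_le_one hn]
        linarith [Nat.cast_nonneg (α := ℝ) n]
      linarith
    have h2 : (n : ℝ) ^ (1 - t) ≤ ((n : ℝ) + 1) ^ (1 - t)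
        - (1 - t) * ((n : ℝ) + 1) ^ (-t) := by
      calc (n : ℝ) ^ (1 - t) = (((n : ℝ) + 1) * (1 + (-(1 / ((n : ℝ) + 1))))) ^ (1 - t) := by
            rw [← he]
        _ = ((n : ℝ) + 1) ^ (1 - t) * (1 + (-(1 / ((n : ℝ) + 1)))) ^ (1 - t) :=
            Real.mul_rpow hn.le h0
        _ ≤ ((n : ℝ) + 1) ^ (1 - t) * (1 + (1 - t) * (-(1 / ((n : ℝ) + 1)))) :=
            mul_le_mul_of_nonneg_left hb (by positivity)
        _ = ((n : ℝ) + 1) ^ (1 - t) - (1 - t) * (((n : ℝ) + 1) ^ (1 - t) / ((n : ℝ) + 1)) := by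
            ring
        _ = _ := by
            rw [← Real.rpow_sub_one hn.ne']
            congr 3
            ring
    have h3 : (n : ℝ) ^ (1 - t) / (1 - t) ≤
        (((n : ℝ) + 1) ^ (1 - t) - (1 - t) * ((n : ℝ) + 1) ^ (-t)) / (1 - t) :=
      div_le_div_of_nonneg_right h2 h1.le
    have h4 : (((n : ℝ) + 1) ^ (1 - t) - (1 - t) * ((n : ℝ) + 1) ^ (-t)) / (1 - t) =
        ((n : ℝ) + 1) ^ (1 - t) / (1 - t) - ((n : ℝ) + 1) ^ (-t) := by
      field_simp
    linarith

/-- absorbing lemma -/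
lemma absorb (x b : ℕ → ℝ) (hb : ∀ n, 0 ≤ b n)
    (hs : Tendsto (fun n => ∑ j ∈ Finset.range n, b j) atTop atTop) (δ : ℝ) (N : ℕ)
    (h : ∀ n, N ≤ n → x (n + 1) ≤ δ ∨ x (n + 1) ≤ x n - b n) :
    ∃ M, ∀ n, M ≤ n → x n ≤ δ := by
  have h1 : ∃ n, N ≤ n ∧ x n ≤ δ := by
    by_contra hcon
    push Not at hcon
    have h2 : ∀ k, x (N + k) ≤ x N - (∑ j ∈ Finset.range (N + k), b j
        - ∑ j ∈ Finset.range N, b j) := by
      intro k
      induction k with
      | zero => simp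
      | succ k ih =>
        have h3 := h (N + k) (by omega)
        have h4 := hcon (N + k + 1) (by omega)
        rcases h3 with h3 | h3
        · linarith
        · rw [show N + (k + 1) = N + k + 1 by omega, Finset.sum_range_succ]
          linarith
    obtain ⟨K, hK⟩ := (tendsto_atTop_atTop.1 hs) (x N - δ + ∑ j ∈ Finset.range N, b j + 1)
    have h5 := hK (N + K) (by omega)
    have h6 := h2 K
    have h7 := hcon (N + K) (by omega)
    linarith
  obtain ⟨n0, hn0, hx⟩ := h1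
  refine ⟨n0, fun n hn => ?_⟩
  induction n, hn using Nat.le_induction with
  | base => exact hx
  | succ n hn ih =>
    rcases h n (by omega) with h2 | h2
    · exact h2
    · have := hb n
      linarith

section

variable {a b : ℝ}

/-- the weight -/
noncomputable def W (a b : ℝ) (n : ℕ) : ℝ := ((n : ℝ) + 1) ^ (a - b)

noncomputable def pw (a : ℝ) (n : ℕ) : ℝ := ((n : ℝ) + 1) ^ (-a)

lemma W_pos (n : ℕ) : 0 < W a b n := by
  unfold W
  positivity

lemma pw_pos (n : ℕ) : 0 < pw a n := by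
  unfold pw
  positivity

lemma W_mul (n : ℕ) : W a b n * pw a n = pw b n := by
  unfold W pw
  rw [← Real.rpow_add (by positivity)]
  congr 1
  ring

lemma one_le_W (hab : b ≤ a) (n : ℕ) : 1 ≤ W a b n := by
  unfold W
  apply Real.one_le_rpow
  · linarith [Nat.cast_nonneg (α := ℝ) n]
  · linarith

lemma W_mono (hab : b ≤ a) : Monotone (W a b) := by
  intro m n hmn
  unfold W
  apply Real.rpow_le_rpow (by positivity)
  · have : (m : ℝ) ≤ n := by exact_mod_cast hmn
    linarith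
  · linarith

lemma pw_le_one (ha : 0 ≤ a) (n : ℕ) : pw a n ≤ 1 := by
  unfold pw
  apply Real.rpow_le_one_of_one_le_of_nonpos
  · linarith [Nat.cast_nonneg (α := ℝ) n]
  · linarith

lemma pw_anti (ha : 0 ≤ a) {m n : ℕ} (h : m ≤ n) : pw a n ≤ pw a m := by
  unfold pw
  apply Real.rpow_le_rpow_of_nonpos (by positivity)
  · have : (m : ℝ) ≤ n := by exact_mod_cast h
    linarith
  · linarith

lemma pw_le_pw {t : ℝ} (h : t ≤ a) (n : ℕ) : pw a n ≤ pw t n := by
  unfold pw
  apply Real.rpow_le_rpow_of_exponent_le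
  · linarith [Nat.cast_nonneg (α := ℝ) n]
  · linarith

lemma pw_tendsto (ha : 0 < a) : Tendsto (pw a) atTop (𝓝 0) := by
  have h1 : Tendsto (fun n : ℕ => ((n : ℝ) + 1)) atTop atTop :=
    tendsto_atTop_add_const_right _ _ tendsto_natCast_atTop_atTop
  exact (tendsto_rpow_neg_atTop ha).comp h1

lemma harm_le (ha : a ≤ 1) (n : ℕ) : 1 / ((n : ℝ) + 1) ≤ pw a n := by
  unfold pw
  rw [one_div, ← Real.rpow_neg_one]
  apply Real.rpow_le_rpow_of_exponent_le
  · linarith [Nat.cast_nonneg (α := ℝ) n]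
  · linarith

lemma pw_sum_tendsto (ha : a ≤ 1) :
    Tendsto (fun n => ∑ j ∈ Finset.range n, pw a j) atTop atTop := by
  refine tendsto_atTop_mono (fun n => ?_) Real.tendsto_sum_range_one_div_nat_succ_atTop
  exact Finset.sum_le_sum fun i _ => harm_le ha i

/-- growth of the weight, upper bound -/
lemma D_le (hab : b ≤ a) (h1 : a - b ≤ 1) (n : ℕ) :
    W a b (n + 1) - W a b n ≤ W a b n * ((a - b) / ((n : ℝ) + 1)) := by
  have hn : (0 : ℝ) < (n : ℝ) + 1 := by positivity
  have hb : (1 + 1 / ((n : ℝ) + 1)) ^ (a - b) ≤ 1 + (a - b) * (1 / ((n : ℝ) + 1)) := by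
    apply _root_.rpow_one_add_le_one_add_mul_self
    · have : 0 ≤ 1 / ((n : ℝ) + 1) := by positivity
      linarith
    · linarith
    · exact h1
  have h2 : W a b (n + 1) = W a b n * (1 + 1 / ((n : ℝ) + 1)) ^ (a - b) := by
    unfold W
    rw [← Real.mul_rpow hn.le (by positivity)]
    congr 1
    push_cast
    field_simp
  rw [h2]
  have := mul_le_mul_of_nonneg_left hb (W_pos (a := a) (b := b) n).le
  calc W a b n * (1 + 1 / ((n : ℝ) + 1)) ^ (a - b) - W a b n
      ≤ W a b n * (1 + (a - b) * (1 / ((n : ℝ) + 1))) - W a b n := by linarith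
    _ = _ := by ring

/-- growth of the weight, lower bound -/
lemma D_ge (hab : b ≤ a) (h1 : a - b ≤ 1) (n : ℕ) :
    W a b n * ((a - b) / (2 * ((n : ℝ) + 1))) ≤ W a b (n + 1) - W a b n := by
  have hn : (0 : ℝ) < (n : ℝ) + 2 := by positivity
  have hb : (1 + (-(1 / ((n : ℝ) + 2)))) ^ (a - b) ≤ 1 + (a - b) * (-(1 / ((n : ℝ) + 2))) := by
    apply _root_.rpow_one_add_le_one_add_mul_self
    · rw [neg_le_neg_iff, div_le_one hn]
      linarith [Nat.cast_nonneg (α := ℝ) n]
    · linarith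
    · exact h1
  have h0 : (0 : ℝ) ≤ 1 + (-(1 / ((n : ℝ) + 2))) := by
    have : 1 / ((n : ℝ) + 2) ≤ 1 := by
      rw [div_le_one hn]
      linarith [Nat.cast_nonneg (α := ℝ) n]
    linarith
  have h2 : W a b n = W a b (n + 1) * (1 + (-(1 / ((n : ℝ) + 2)))) ^ (a - b) := by
    unfold W
    rw [← Real.mul_rpow (by positivity) h0]
    congr 1
    push_cast
    field_simp
    ring
  have h3 : W a b n ≤ W a b (n + 1) * (1 + (a - b) * (-(1 / ((n : ℝ) + 2)))) := by
    rw [h2]
    exact mul_le_mul_of_nonneg_left hb (W_pos _).le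
  have h4 : W a b n * ((a - b) / (2 * ((n : ℝ) + 1))) ≤
      W a b (n + 1) * ((a - b) * (1 / ((n : ℝ) + 2))) := by
    apply mul_le_mul (W_mono hab (Nat.le_succ n)) _ _ (W_pos _).le
    · rw [mul_one_div]
      apply div_le_div_of_nonneg_left (by linarith) hn
      linarith [Nat.cast_nonneg (α := ℝ) n]
    · apply div_nonneg (by linarith) (by positivity)
  linarith

end

end Pool.Agent.V1188.SD
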