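import Pool.Agent.V1188.SD1

open Filter Topology

namespace Pool.Agent.V1188.SD

section

variable {a b : ℝ}

/-- the switching function -/
noncomputable def sw (a b : ℝ) (ξ η : ℕ → ℝ) (n : ℕ) : ℝ := 3 * W a b n * ξ n - η n

lemma sw_succ {ξ η ε : ℕ → ℝ} (hξ : ∀ n, ξ (n + 1) = ξ n - ε n * pw a n)
    (hη : ∀ n, η (n + 1) = η n - ε n * pw b n) (n : ℕ) :
    sw a b ξ η (n + 1) = sw a b ξ η n - 2 * ε n * pw b n
      + 3 * ((W a b (n + 1) - W a b n) * ξ (n + 1)) := by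
  unfold sw
  have h1 := W_mul (a := a) (b := b) n
  have h2 : W a b n * ξ (n + 1) = W a b n * ξ n - ε n * pw b n := by
    rw [hξ, mul_sub, ← h1]
    ring
  have h3 := hη n
  have h4 : 3 * W a b (n + 1) * ξ (n + 1) - η (n + 1) =
      3 * (W a b n * ξ (n + 1)) - η (n + 1) + 3 * ((W a b (n + 1) - W a b n) * ξ (n + 1)) := by
    ring
  rw [h4, h2, h3]
  ring

lemma abs_bound {ξ ε : ℕ → ℝ} {t : ℝ} (hε : ∀ n, |ε n| = 1)
    (hξ : ∀ n, ξ (n + 1) = ξ n - ε n * pw t n) (n : ℕ) :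
    |ξ n| ≤ |ξ 0| + ∑ j ∈ Finset.range n, pw t j := by
  induction n with
  | zero => simp
  | succ n ih =>
    rw [hξ, Finset.sum_range_succ]
    have h1 : |ξ n - ε n * pw t n| ≤ |ξ n| + |ε n * pw t n| := abs_sub _ _
    rw [abs_mul, hε, one_mul, abs_of_pos (pw_pos n)] at h1
    linarith

lemma pow_tendsto {s c : ℝ} (hs : s < 0) : Tendsto (fun n : ℕ => c * ((n : ℝ) + 1) ^ s)
    atTop (𝓝 0) := by
  have h1 : Tendsto (fun n : ℕ => ((n : ℝ) + 1)) atTop atTop :=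
    tendsto_atTop_add_const_right _ _ tendsto_natCast_atTop_atTop
  have h2 := (tendsto_rpow_neg_atTop (y := -s) (by linarith)).comp h1
  have h3 := h2.const_mul c
  simpa using h3

/-- the drift is eventually small -/
lemma drift_small (hb : 0 < b) (hab : b < a) (ha : a ≤ 1) {ξ ε : ℕ → ℝ} (hε : ∀ n, |ε n| = 1)
    (hξ : ∀ n, ξ (n + 1) = ξ n - ε n * pw a n) :
    ∃ N, ∀ n, N ≤ n → |3 * ((W a b (n + 1) - W a b n) * ξ (n + 1))| ≤ 1 := by
  set t : ℝ := a - b / 2 with ht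
  have ht0 : 0 ≤ t := by rw [ht]; linarith
  have ht1 : t < 1 := by rw [ht]; linarith
  have h1 : Tendsto (fun n : ℕ => (3 * |ξ 0|) * ((n : ℝ) + 1) ^ (a - b - 1)
      + (3 / (1 - t)) * ((n : ℝ) + 1) ^ (-(b / 2))) atTop (𝓝 0) := by
    have := (pow_tendsto (s := a - b - 1) (c := 3 * |ξ 0|) (by linarith)).add
      (pow_tendsto (s := -(b / 2)) (c := 3 / (1 - t)) (by linarith))
    simpa using this
  have h2 := h1.eventually (gt_mem_nhds (show (0 : ℝ) < 1 by norm_num))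
  obtain ⟨N, hN⟩ := eventually_atTop.1 h2
  refine ⟨N, fun n hn => ?_⟩
  have h3 := hN n hn
  have hn1 : (0 : ℝ) < (n : ℝ) + 1 := by positivity
  have h4 := abs_bound hε hξ (n + 1)
  have h5 : ∑ j ∈ Finset.range (n + 1), pw a j ≤ ((n : ℝ) + 1) ^ (1 - t) / (1 - t) := by
    calc ∑ j ∈ Finset.range (n + 1), pw a j ≤ ∑ j ∈ Finset.range (n + 1), pw t j :=
          Finset.sum_le_sum fun j _ => pw_le_pw (by rw [ht]; linarith) j
      _ ≤ _ := by
          have := sum_le ht0 ht1 (n + 1)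
          push_cast at this
          exact this
  have hD0 : 0 ≤ W a b (n + 1) - W a b n := by
    have := W_mono hab.le (Nat.le_succ n)
    linarith
  have hD1 : W a b (n + 1) - W a b n ≤ ((n : ℝ) + 1) ^ (a - b - 1) := by
    refine (D_le hab.le (by linarith) n).trans ?_
    have h6 : W a b n * ((a - b) / ((n : ℝ) + 1)) = (a - b) * (((n : ℝ) + 1) ^ (a - b) / ((n : ℝ) + 1)) := by
      unfold W
      ring
    rw [h6, Real.rpow_sub_one hn1.ne']
    have h7 : 0 ≤ ((n : ℝ) + 1) ^ (a - b) / ((n : ℝ) + 1) := by positivity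
    nlinarith
  rw [abs_mul, abs_mul, abs_of_nonneg hD0, abs_of_pos (show (0 : ℝ) < 3 by norm_num)]
  have h8 : (W a b (n + 1) - W a b n) * |ξ (n + 1)| ≤ ((n : ℝ) + 1) ^ (a - b - 1) *
      (|ξ 0| + ((n : ℝ) + 1) ^ (1 - t) / (1 - t)) :=
    mul_le_mul hD1 (by linarith) (abs_nonneg _) (by positivity)
  have h9 : ((n : ℝ) + 1) ^ (a - b - 1) * (((n : ℝ) + 1) ^ (1 - t) / (1 - t)) =
      (1 / (1 - t)) * ((n : ℝ) + 1) ^ (-(b / 2)) := by
    rw [← mul_div_assoc, ← Real.rpow_add hn1]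
    have : a - b - 1 + (1 - t) = -(b / 2) := by rw [ht]; ring
    rw [this]
    ring
  have h10 : ((n : ℝ) + 1) ^ (a - b - 1) * (|ξ 0| + ((n : ℝ) + 1) ^ (1 - t) / (1 - t)) =
      |ξ 0| * ((n : ℝ) + 1) ^ (a - b - 1) + (1 / (1 - t)) * ((n : ℝ) + 1) ^ (-(b / 2)) := by
    rw [mul_add, h9]
    ring
  have h11 : 3 * ((W a b (n + 1) - W a b n) * |ξ (n + 1)|) ≤
      (3 * |ξ 0|) * ((n : ℝ) + 1) ^ (a - b - 1) + (3 / (1 - t)) * ((n : ℝ) + 1) ^ (-(b / 2)) := by
    have h12 : (3 / (1 - t)) * ((n : ℝ) + 1) ^ (-(b / 2)) =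
      3 * ((1 / (1 - t)) * ((n : ℝ) + 1) ^ (-(b / 2))) := by ring
    rw [h12]
    nlinarith
  linarith

/-- near the switching surface the drift is dominated by the push -/
lemma drift_slide (hb : 0 < b) (hab : b < a) (ha : a ≤ 1) {ξ η ε : ℕ → ℝ} (hε : ∀ n, |ε n| = 1)
    (hξ : ∀ n, ξ (n + 1) = ξ n - ε n * pw a n)
    (hη : ∀ n, η (n + 1) = η n - ε n * pw b n) :
    ∃ N, ∀ n, N ≤ n → |sw a b ξ η n| ≤ 4 →
      |3 * ((W a b (n + 1) - W a b n) * ξ (n + 1))| ≤ (3 / 2) * pw b n := by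
  have h1 := (pow_tendsto (s := b - 1) (c := |η 0| + 7) (by linarith)).eventually
    (gt_mem_nhds (show (0 : ℝ) < 1 / 2 by norm_num))
  obtain ⟨N, hN⟩ := eventually_atTop.1 h1
  refine ⟨N, fun n hn hs => ?_⟩
  have h3 := hN n hn
  have hn1 : (0 : ℝ) < (n : ℝ) + 1 := by positivity
  have hD0 : 0 ≤ W a b (n + 1) - W a b n := by
    have := W_mono hab.le (Nat.le_succ n)
    linarith
  have h4 := abs_bound hε hη n
  have h1b : 0 < 1 - b := by linarith
  have h5 : ∑ j ∈ Finset.range n, pw b j ≤ ((n : ℝ) + 1) ^ (1 - b) / (1 - b) := by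
    refine (sum_le hb.le (by linarith) n).trans ?_
    apply div_le_div_of_nonneg_right _ h1b.le
    apply Real.rpow_le_rpow (by positivity) (by linarith) h1b.le
  have hW := W_pos (a := a) (b := b) n
  have h6 : 3 * (W a b n * |ξ n|) ≤ |η n| + 4 := by
    have h7 : 3 * W a b n * ξ n = sw a b ξ η n + η n := by
      unfold sw
      ring
    have h8 : |3 * W a b n * ξ n| ≤ |sw a b ξ η n| + |η n| := by
      rw [h7]
      exact abs_add_le _ _
    rw [abs_mul, abs_mul, abs_of_pos hW, abs_of_pos (show (0 : ℝ) < 3 by norm_num)] at h8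
    linarith
  have h7 : W a b n * |ξ (n + 1)| ≤ W a b n * |ξ n| + 1 := by
    have h8 : |ξ (n + 1)| ≤ |ξ n| + pw a n := by
      rw [hξ]
      refine (abs_sub _ _).trans ?_
      rw [abs_mul, hε, one_mul, abs_of_pos (pw_pos n)]
    have h9 := mul_le_mul_of_nonneg_left h8 hW.le
    rw [mul_add, W_mul] at h9
    have := pw_le_one hb.le n
    linarith
  have h8 : 3 * (W a b n * |ξ (n + 1)|) ≤ |η 0| + 7 + ((n : ℝ) + 1) ^ (1 - b) / (1 - b) := by
    linarith
  rw [abs_mul, abs_mul, abs_of_nonneg hD0, abs_of_pos (show (0 : ℝ) < 3 by norm_num)]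
  have h9 : (W a b (n + 1) - W a b n) * |ξ (n + 1)| ≤
      W a b n * ((a - b) / ((n : ℝ) + 1)) * |ξ (n + 1)| :=
    mul_le_mul_of_nonneg_right (D_le hab.le (by linarith) n) (abs_nonneg _)
  have h10 : 3 * ((W a b (n + 1) - W a b n) * |ξ (n + 1)|) ≤
      ((a - b) / ((n : ℝ) + 1)) * (|η 0| + 7 + ((n : ℝ) + 1) ^ (1 - b) / (1 - b)) := by
    calc 3 * ((W a b (n + 1) - W a b n) * |ξ (n + 1)|)
        ≤ 3 * (W a b n * ((a - b) / ((n : ℝ) + 1)) * |ξ (n + 1)|) := by linarith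
      _ = ((a - b) / ((n : ℝ) + 1)) * (3 * (W a b n * |ξ (n + 1)|)) := by ring
      _ ≤ _ := mul_le_mul_of_nonneg_left h8 (div_nonneg (by linarith) hn1.le)
  refine h10.trans ?_
  -- split
  have h11 : ((a - b) / ((n : ℝ) + 1)) * (((n : ℝ) + 1) ^ (1 - b) / (1 - b)) ≤ pw b n := by
    have h12 : pw b n = (1 / ((n : ℝ) + 1)) * ((n : ℝ) + 1) ^ (1 - b) := by
      unfold pw
      rw [one_div, ← Real.rpow_neg_one, ← Real.rpow_add hn1]
      congr 1
      ring
    rw [h12]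
    have h13 : ((a - b) / ((n : ℝ) + 1)) * (((n : ℝ) + 1) ^ (1 - b) / (1 - b)) =
        ((a - b) / (1 - b)) * ((1 / ((n : ℝ) + 1)) * ((n : ℝ) + 1) ^ (1 - b)) := by
      field_simp
    rw [h13]
    have h14 : (a - b) / (1 - b) ≤ 1 := by
      rw [div_le_one h1b]
      linarith
    have h15 : 0 ≤ (1 / ((n : ℝ) + 1)) * ((n : ℝ) + 1) ^ (1 - b) := by positivity
    nlinarith
  have h12 : ((a - b) / ((n : ℝ) + 1)) * (|η 0| + 7) ≤ (1 / 2) * pw b n := by
    have h13 : (|η 0| + 7) * ((n : ℝ) + 1) ^ (b - 1) * pw b n = (|η 0| + 7) / ((n : ℝ) + 1) := by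
      unfold pw
      rw [mul_assoc, ← Real.rpow_add hn1]
      have : b - 1 + -b = -1 := by ring
      rw [this, Real.rpow_neg_one]
      rfl
    have h14 : ((a - b) / ((n : ℝ) + 1)) * (|η 0| + 7) = (a - b) * ((|η 0| + 7) / ((n : ℝ) + 1)) := by
      ring
    rw [h14, ← h13]
    have hp := pw_pos (a := b) n
    have h15 : 0 ≤ (|η 0| + 7) * ((n : ℝ) + 1) ^ (b - 1) := by positivity
    have h16 : (|η 0| + 7) * ((n : ℝ) + 1) ^ (b - 1) * pw b n ≤ (1 / 2) * pw b n :=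
      mul_le_mul_of_nonneg_right h3.le hp.le
    have h17 : 0 ≤ (|η 0| + 7) * ((n : ℝ) + 1) ^ (b - 1) * pw b n := by positivity
    nlinarith
  rw [mul_add]
  linarith

/-- with all later signs positive the switching function becomes negative -/
lemma no_escape (hb : 0 < b) (hab : b < a) (ha : a ≤ 1) {ξ η ε : ℕ → ℝ} (N : ℕ)
    (hε : ∀ n, N ≤ n → ε n = 1)
    (hξ : ∀ n, ξ (n + 1) = ξ n - ε n * pw a n)
    (hη : ∀ n, η (n + 1) = η n - ε n * pw b n) :
    ∃ n, N ≤ n ∧ sw a b ξ η n < 0 := by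
  have h1 : ∀ k, ξ (N + k) = ξ N - (∑ j ∈ Finset.range (N + k), pw a j
      - ∑ j ∈ Finset.range N, pw a j) := by
    intro k
    induction k with
    | zero => simp
    | succ k ih =>
      rw [← add_assoc, hξ, hε _ (by omega), ih, Finset.sum_range_succ]
      ring
  have h2 : ∀ k, -η (N + k) ≤ -η N + W a b (N + k) * (∑ j ∈ Finset.range (N + k), pw a j
      - ∑ j ∈ Finset.range N, pw a j) := by
    intro k
    induction k with
    | zero => simp
    | succ k ih =>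
      rw [← add_assoc, hη, hε _ (by omega), Finset.sum_range_succ]
      have h3 : W a b (N + k) * (∑ j ∈ Finset.range (N + k), pw a j
        - ∑ j ∈ Finset.range N, pw a j) ≤ W a b (N + k + 1) *
          (∑ j ∈ Finset.range (N + k), pw a j - ∑ j ∈ Finset.range N, pw a j) := by
        apply mul_le_mul_of_nonneg_right (W_mono hab.le (Nat.le_succ _))
        have : ∑ j ∈ Finset.range N, pw a j ≤ ∑ j ∈ Finset.range (N + k), pw a j :=
          Finset.sum_le_sum_of_subset_of_nonneg (Finset.range_mono (by omega))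
            (fun i _ _ => (pw_pos i).le)
        linarith
      have h4 : pw b (N + k) ≤ W a b (N + k + 1) * pw a (N + k) := by
        rw [← W_mul (a := a) (b := b)]
        exact mul_le_mul_of_nonneg_right (W_mono hab.le (Nat.le_succ _)) (pw_pos _).le
      nlinarith
  obtain ⟨K, hK⟩ := (tendsto_atTop_atTop.1 (pw_sum_tendsto ha))
    (∑ j ∈ Finset.range N, pw a j + 3 * |ξ N| + |η N| + 1)
  have h3 := hK (N + K) (by omega)
  refine ⟨N + K, by omega, ?_⟩
  unfold sw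
  have h4 := h1 K
  have h5 := h2 K
  have hW := one_le_W (a := a) (b := b) hab.le (N + K)
  obtain ⟨P, hP⟩ : ∃ P, P = ∑ j ∈ Finset.range (N + K), pw a j - ∑ j ∈ Finset.range N, pw a j :=
    ⟨_, rfl⟩
  rw [← hP] at h4 h5
  have h6 : 3 * |ξ N| + |η N| + 1 ≤ P := by
    rw [hP]
    linarith
  rw [h4]
  have h7 : ξ N ≤ |ξ N| := le_abs_self _
  have h8 : -η N ≤ |η N| := neg_le_abs _
  have h9 : 0 ≤ |ξ N| := abs_nonneg _
  have h10 : 0 ≤ |η N| := abs_nonneg _
  have h11 : 3 * W a b (N + K) * (ξ N - P) + W a b (N + K) * P ≤ W a b (N + K) * (3 * |ξ N| - 2 * P) := by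
    nlinarith
  have h12 : W a b (N + K) * (3 * |ξ N| - 2 * P) ≤ -(|η N| + 1) := by
    have : 3 * |ξ N| - 2 * P ≤ -(|η N| + 1) := by linarith
    nlinarith
  linarith

end

end Pool.Agent.V1188.SD
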