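import Pool.Agent.V1188.SD2

open Filter Topology

namespace Pool.Agent.V1188.SD

section

variable {a b : ℝ}

/-- the switching function comes close to zero arbitrarily late -/
lemma hits (hb : 0 < b) (hab : b < a) (ha : a ≤ 1) {ξ η ε : ℕ → ℝ}
    (hε : ∀ n, (ε n = 1 ∧ 0 ≤ sw a b ξ η n) ∨ (ε n = -1 ∧ sw a b ξ η n < 0))
    (hξ : ∀ n, ξ (n + 1) = ξ n - ε n * pw a n)
    (hη : ∀ n, η (n + 1) = η n - ε n * pw b n) (N : ℕ) :
    ∃ n, N ≤ n ∧ |sw a b ξ η n| ≤ 4 := by
  have habs : ∀ n, |ε n| = 1 := by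
    intro n
    rcases hε n with h | h <;> rw [h.1] <;> simp
  obtain ⟨N1, hN1⟩ := drift_small hb hab ha habs hξ
  by_contra hcon
  push Not at hcon
  obtain ⟨M, hM⟩ : ∃ M, M = max N N1 := ⟨_, rfl⟩
  have hjump : ∀ n, M ≤ n → |sw a b ξ η (n + 1) - sw a b ξ η n| ≤ 3 := by
    intro n hn
    have h1 := hN1 n (by omega)
    have h2 := sw_succ hξ hη n
    have h3 : sw a b ξ η (n + 1) - sw a b ξ η n = - (2 * ε n * pw b n)
      + 3 * ((W a b (n + 1) - W a b n) * ξ (n + 1)) := by
      rw [h2]
      ring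
    rw [h3]
    refine (abs_add_le _ _).trans ?_
    have h4 : |-(2 * ε n * pw b n)| ≤ 2 := by
      rw [abs_neg, abs_mul, abs_mul, habs, abs_of_pos (pw_pos n)]
      have := pw_le_one hb.le n
      norm_num
      exact this
    linarith
  have hbig : ∀ n, M ≤ n → 4 < |sw a b ξ η n| := fun n hn => hcon n (by omega)
  rcases le_or_gt 0 (sw a b ξ η M) with h0 | h0
  · have hpos : ∀ n, M ≤ n → 4 < sw a b ξ η n := by
      intro n hn
      induction n, hn using Nat.le_induction with
      | base =>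
        have := hbig M le_rfl
        rwa [abs_of_nonneg h0] at this
      | succ n hn ih =>
        have h1 := hjump n hn
        have h2 := hbig (n + 1) (by omega)
        have h3 := (abs_le.1 h1).1
        have h4 : 0 ≤ sw a b ξ η (n + 1) := by linarith
        rwa [abs_of_nonneg h4] at h2
    obtain ⟨n, hn, hneg⟩ := no_escape hb hab ha M (fun n hn => by
      rcases hε n with h | h
      · exact h.1
      · have := hpos n hn
        linarith [h.2]) hξ hη
    have := hpos n hn
    linarith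
  · have hneg : ∀ n, M ≤ n → sw a b ξ η n < -4 := by
      intro n hn
      induction n, hn using Nat.le_induction with
      | base =>
        have := hbig M le_rfl
        rw [abs_of_neg h0] at this
        linarith
      | succ n hn ih =>
        have h1 := hjump n hn
        have h2 := hbig (n + 1) (by omega)
        have h3 := (abs_le.1 h1).2
        have h4 : sw a b ξ η (n + 1) < 0 := by linarith
        rw [abs_of_neg h4] at h2
        linarith
    have hsw : ∀ n, sw a b (fun n => -ξ n) (fun n => -η n) n = - sw a b ξ η n := by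
      intro n
      unfold sw
      ring
    obtain ⟨n, hn, hn2⟩ := no_escape (ξ := fun n => -ξ n) (η := fun n => -η n)
      (ε := fun n => -ε n) hb hab ha M (fun n hn => by
      rcases hε n with h | h
      · have := hneg n hn
        linarith [h.2]
      · simp [h.1]) (fun n => by rw [hξ]; ring) (fun n => by rw [hη]; ring)
    rw [hsw] at hn2
    have := hneg n hn
    linarith

/-- the greedy rule: the switching function tends to zero -/
lemma sw_tendsto (hb : 0 < b) (hab : b < a) (ha : a ≤ 1) {ξ η ε : ℕ → ℝ}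
    (hε : ∀ n, (ε n = 1 ∧ 0 ≤ sw a b ξ η n) ∨ (ε n = -1 ∧ sw a b ξ η n < 0))
    (hξ : ∀ n, ξ (n + 1) = ξ n - ε n * pw a n)
    (hη : ∀ n, η (n + 1) = η n - ε n * pw b n) :
    Tendsto (sw a b ξ η) atTop (𝓝 0) := by
  have habs : ∀ n, |ε n| = 1 := by
    intro n
    rcases hε n with h | h <;> rw [h.1] <;> simp
  obtain ⟨N2, hN2⟩ := drift_slide hb hab ha habs hξ hη
  -- one step
  have hstep : ∀ n, N2 ≤ n → |sw a b ξ η n| ≤ 4 →
      |sw a b ξ η (n + 1)| ≤ (7 / 2) * pw b n ∨
      |sw a b ξ η (n + 1)| ≤ |sw a b ξ η n| - (1 / 2) * pw b n := by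
    intro n hn h4
    have h1 := hN2 n hn h4
    obtain ⟨h1a, h1b⟩ := abs_le.1 h1
    have h2 := sw_succ hξ hη n
    have hp := pw_pos (a := b) n
    rcases hε n with ⟨he, hs⟩ | ⟨he, hs⟩
    · rw [he] at h2
      rw [abs_of_nonneg hs]
      rcases le_or_gt 0 (sw a b ξ η (n + 1)) with h5 | h5
      · right
        rw [abs_of_nonneg h5]
        linarith
      · left
        rw [abs_of_neg h5]
        linarith
    · rw [he] at h2
      rw [abs_of_neg hs]
      rcases le_or_gt 0 (sw a b ξ η (n + 1)) with h5 | h5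
      · left
        rw [abs_of_nonneg h5]
        linarith
      · right
        rw [abs_of_neg h5]
        linarith
  obtain ⟨N3, hN3, h3⟩ := hits hb hab ha hε hξ hη N2
  have hkeep : ∀ n, N3 ≤ n → |sw a b ξ η n| ≤ 4 := by
    intro n hn
    induction n, hn using Nat.le_induction with
    | base => exact h3
    | succ n hn ih =>
      rcases hstep n (by omega) ih with h | h
      · have := pw_le_one hb.le n
        linarith
      · have := pw_pos (a := b) n
        linarith
  rw [Metric.tendsto_atTop]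
  intro δ hδ
  have h4 := ((pw_tendsto hb).const_mul (7 / 2)).eventually
    (gt_mem_nhds (show (7 / 2 : ℝ) * 0 < δ / 2 by linarith))
  obtain ⟨N4, hN4⟩ := eventually_atTop.1 h4
  have hdiv : Tendsto (fun n => ∑ j ∈ Finset.range n, (1 / 2) * pw b j) atTop atTop := by
    have h5 := (pw_sum_tendsto (a := b) (by linarith)).const_mul_atTop
      (show (0 : ℝ) < 1 / 2 by norm_num)
    refine h5.congr fun n => ?_
    rw [Finset.mul_sum]
  obtain ⟨M, hM⟩ := absorb (fun n => |sw a b ξ η n|) (fun n => (1 / 2) * pw b n)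
    (fun n => by
      have := pw_pos (a := b) n
      positivity) hdiv (δ / 2) (max N3 N4) (fun n hn => by
      rcases hstep n (by omega) (hkeep n (by omega)) with h | h
      · left
        have := hN4 n (by omega)
        linarith
      · right
        exact h)
  refine ⟨M, fun n hn => ?_⟩
  rw [Real.dist_eq, sub_zero]
  have := hM n hn
  linarith

/-- the greedy rule steers both coordinates to zero -/
theorem greedy (hb : 0 < b) (hab : b < a) (ha : a ≤ 1) {ξ η ε : ℕ → ℝ}
    (hε : ∀ n, (ε n = 1 ∧ 0 ≤ sw a b ξ η n) ∨ (ε n = -1 ∧ sw a b ξ η n < 0))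
    (hξ : ∀ n, ξ (n + 1) = ξ n - ε n * pw a n)
    (hη : ∀ n, η (n + 1) = η n - ε n * pw b n) :
    Tendsto ξ atTop (𝓝 0) ∧ Tendsto η atTop (𝓝 0) := by
  have habs : ∀ n, |ε n| = 1 := by
    intro n
    rcases hε n with h | h <;> rw [h.1] <;> simp
  have hsw := sw_tendsto hb hab ha hε hξ hη
  obtain ⟨σ, hσ⟩ : ∃ σ : ℕ → ℝ, ∀ n, σ n = sw a b ξ η n - 2 * ε n * pw b n := ⟨_, fun _ => rfl⟩
  obtain ⟨w, hw⟩ : ∃ w : ℕ → ℝ, ∀ n, w n = W a b n * ξ n - η n := ⟨_, fun _ => rfl⟩
  have hσ0 : Tendsto σ atTop (𝓝 0) := by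
    have h1 : Tendsto (fun n => 2 * ε n * pw b n) atTop (𝓝 0) := by
      apply squeeze_zero_norm (a := fun n => 2 * pw b n)
      · intro n
        rw [Real.norm_eq_abs, abs_mul, abs_mul, habs, abs_of_pos (pw_pos n)]
        norm_num
      · simpa using (pw_tendsto hb).const_mul 2
    have h2 := hsw.sub h1
    rw [sub_zero] at h2
    exact h2.congr fun n => (hσ n).symm
  have hWξ : ∀ n, W a b n * ξ (n + 1) = W a b n * ξ n - ε n * pw b n := by
    intro n
    have h1 := W_mul (a := a) (b := b) n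
    rw [hξ, mul_sub, ← h1]
    ring
  have hσ' : ∀ n, σ n = 3 * (W a b n * ξ (n + 1)) - η (n + 1) := by
    intro n
    rw [hσ, hWξ, hη]
    unfold sw
    ring
  have hw' : ∀ n, w n = W a b n * ξ (n + 1) - η (n + 1) := by
    intro n
    rw [hw, hWξ, hη]
    ring
  have hu : ∀ n, W a b n * ξ (n + 1) = (σ n - w n) / 2 := by
    intro n
    rw [hσ', hw']
    ring
  obtain ⟨ρ, hρ⟩ : ∃ ρ : ℕ → ℝ, ∀ n, ρ n = (W a b (n + 1) - W a b n) / (2 * W a b n) :=
    ⟨_, fun _ => rfl⟩
  have hws : ∀ n, w (n + 1) = (1 - ρ n) * w n + ρ n * σ n := by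
    intro n
    have hW := W_pos (a := a) (b := b) n
    have h1 : w (n + 1) = w n + (W a b (n + 1) - W a b n) * ξ (n + 1) := by
      rw [hw (n + 1), hw' n]
      ring
    have h2 : (W a b (n + 1) - W a b n) * ξ (n + 1) =
        (W a b (n + 1) - W a b n) / (W a b n) * (W a b n * ξ (n + 1)) := by
      field_simp
    rw [h1, h2, hu, hρ]
    field_simp
    ring
  have hρ1 : ∀ n, ρ n ≤ 1 := by
    intro n
    have hW := W_pos (a := a) (b := b) n
    rw [hρ, div_le_one (by positivity)]
    refine (D_le hab.le (by linarith) n).trans ?_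
    have h1 : (a - b) / ((n : ℝ) + 1) ≤ 2 := by
      rw [div_le_iff₀ (by positivity)]
      have : (0 : ℝ) ≤ n := Nat.cast_nonneg n
      linarith
    nlinarith
  have hρ2 : ∀ n : ℕ, (a - b) / 4 * (1 / ((n : ℝ) + 1)) ≤ ρ n := by
    intro n
    have hW := W_pos (a := a) (b := b) n
    rw [hρ, le_div_iff₀ (by positivity)]
    refine le_trans (le_of_eq ?_) (D_ge hab.le (by linarith) n)
    field_simp
    ring
  have hρ0 : ∀ n, 0 ≤ ρ n := fun n => le_trans (by
    have : 0 < a - b := by linarith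
    positivity) (hρ2 n)
  have hw0 : Tendsto w atTop (𝓝 0) := by
    rw [Metric.tendsto_atTop]
    intro δ hδ
    have h1 := (Metric.tendsto_atTop.1 hσ0) (δ / 4) (by linarith)
    obtain ⟨N, hN⟩ := h1
    have hdiv : Tendsto (fun n => ∑ j ∈ Finset.range n,
        (δ / 4) * ((a - b) / 4) * (1 / ((j : ℝ) + 1))) atTop atTop := by
      have h5 := Real.tendsto_sum_range_one_div_nat_succ_atTop.const_mul_atTop
        (show (0 : ℝ) < (δ / 4) * ((a - b) / 4) by
          have : 0 < a - b := by linarith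
          positivity)
      refine h5.congr fun n => ?_
      rw [Finset.mul_sum]
    obtain ⟨M, hM⟩ := absorb (fun n => |w n|) (fun n => (δ / 4) * ((a - b) / 4) *
      (1 / ((n : ℝ) + 1))) (fun n => by
        have : 0 < a - b := by linarith
        positivity) hdiv (δ / 2) N (fun n hn => by
        have h2 := hN n hn
        rw [Real.dist_eq, sub_zero] at h2
        have h3 : |w (n + 1)| ≤ (1 - ρ n) * |w n| + ρ n * |σ n| := by
          rw [hws]
          refine (abs_add_le _ _).trans ?_
          rw [abs_mul, abs_mul, abs_of_nonneg (hρ0 n), abs_of_nonneg (sub_nonneg.2 (hρ1 n))]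
        have h4 := hρ0 n
        have h5 := hρ1 n
        have h6 := hρ2 n
        rcases le_or_gt (|w n|) (δ / 2) with h7 | h7
        · left
          nlinarith [mul_le_mul_of_nonneg_left h7 (sub_nonneg.2 h5),
            mul_le_mul_of_nonneg_left h2.le h4]
        · right
          have h8 : ρ n * |σ n| ≤ ρ n * (δ / 4) := mul_le_mul_of_nonneg_left h2.le h4
          have h9 : ρ n * (δ / 2) ≤ ρ n * |w n| := mul_le_mul_of_nonneg_left h7.le h4
          have h10 : (δ / 4) * ((a - b) / 4) * (1 / ((n : ℝ) + 1)) ≤ (δ / 4) * ρ n := by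
            rw [mul_assoc]
            exact mul_le_mul_of_nonneg_left h6 (by linarith)
          linarith)
    refine ⟨M, fun n hn => ?_⟩
    rw [Real.dist_eq, sub_zero]
    have := hM n hn
    linarith
  constructor
  · rw [← tendsto_add_atTop_iff_nat 1]
    have h1 : Tendsto (fun n => (σ n - w n) / 2) atTop (𝓝 0) := by
      simpa using (hσ0.sub hw0).div_const 2
    apply squeeze_zero_norm (a := fun n => |(σ n - w n) / 2|)
    · intro n
      rw [Real.norm_eq_abs, ← hu, abs_mul, abs_of_pos (W_pos n)]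
      have hW := one_le_W (a := a) (b := b) hab.le n
      have := abs_nonneg (ξ (n + 1))
      nlinarith
    · simpa using h1.abs
  · rw [← tendsto_add_atTop_iff_nat 1]
    have h1 : Tendsto (fun n => (σ n - 3 * w n) / 2) atTop (𝓝 0) := by
      simpa using (hσ0.sub (hw0.const_mul 3)).div_const 2
    refine h1.congr fun n => ?_
    rw [hσ', hw']
    ring

/-- the state of the greedy algorithm -/
noncomputable def state (a b X Y : ℝ) : ℕ → ℝ × ℝ
  | 0 => (X, Y)
  | n + 1 =>
    ((state a b X Y n).1 - (if 0 ≤ 3 * W a b n * (state a b X Y n).1 - (state a b X Y n).2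
        then 1 else -1) * pw a n,
     (state a b X Y n).2 - (if 0 ≤ 3 * W a b n * (state a b X Y n).1 - (state a b X Y n).2
        then 1 else -1) * pw b n)

/-- every point of the plane is a signed sum -/
theorem exists_signs (hb : 0 < b) (hab : b < a) (ha : a ≤ 1) (X Y : ℝ) :
    ∃ ε : ℕ → ℝ, (∀ n, ε n = 1 ∨ ε n = -1) ∧
      Tendsto (fun N => ∑ n ∈ Finset.range N, ε n * pw a n) atTop (𝓝 X) ∧
      Tendsto (fun N => ∑ n ∈ Finset.range N, ε n * pw b n) atTop (𝓝 Y) := by
  obtain ⟨ξ, hξ⟩ : ∃ ξ : ℕ → ℝ, ∀ n, ξ n = (state a b X Y n).1 := ⟨_, fun _ => rfl⟩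
  obtain ⟨η, hη⟩ : ∃ η : ℕ → ℝ, ∀ n, η n = (state a b X Y n).2 := ⟨_, fun _ => rfl⟩
  obtain ⟨ε, hε⟩ : ∃ ε : ℕ → ℝ, ∀ n, ε n = if 0 ≤ sw a b ξ η n then 1 else -1 :=
    ⟨_, fun _ => rfl⟩
  have h1 : ∀ n, ξ (n + 1) = ξ n - ε n * pw a n := by
    intro n
    rw [hξ (n + 1), hε, hξ n]
    unfold sw
    rw [hξ, hη]
    rfl
  have h2 : ∀ n, η (n + 1) = η n - ε n * pw b n := by
    intro n
    rw [hη (n + 1), hε, hη n]
    unfold sw
    rw [hξ, hη]
    rfl
  have h3 : ∀ n, (ε n = 1 ∧ 0 ≤ sw a b ξ η n) ∨ (ε n = -1 ∧ sw a b ξ η n < 0) := by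
    intro n
    rw [hε]
    split_ifs with h
    · left
      exact ⟨rfl, h⟩
    · right
      exact ⟨rfl, not_le.1 h⟩
  obtain ⟨h4, h5⟩ := greedy hb hab ha h3 h1 h2
  refine ⟨ε, fun n => ?_, ?_, ?_⟩
  · rcases h3 n with h | h
    · exact Or.inl h.1
    · exact Or.inr h.1
  · have h6 : ∀ N, ∑ n ∈ Finset.range N, ε n * pw a n = X - ξ N := by
      intro N
      induction N with
      | zero => rw [hξ]; simp [state]
      | succ N ih =>
        rw [Finset.sum_range_succ, ih, h1]
        ring
    have h7 := h4.const_sub X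
    rw [sub_zero] at h7
    exact h7.congr fun N => (h6 N).symm
  · have h6 : ∀ N, ∑ n ∈ Finset.range N, ε n * pw b n = Y - η N := by
      intro N
      induction N with
      | zero => rw [hη]; simp [state]
      | succ N ih =>
        rw [Finset.sum_range_succ, ih, h2]
        ring
    have h7 := h5.const_sub Y
    rw [sub_zero] at h7
    exact h7.congr fun N => (h6 N).symm

end

end Pool.Agent.V1188.SD
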