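import Pool.Agent.V1188.SD1

open Filter Topology
open scoped ENNReal NNReal

namespace Pool.Agent.V1188.SD

attribute [local instance] PiNat.metricSpace

/-- the cylinder sets -/
def cyl (n : ℕ) (w : Fin n → Bool) : Set (ℕ → Bool) := {x | ∀ i : Fin n, x i = w i}

lemma cyl_diam (n : ℕ) (w : Fin n → Bool) :
    Metric.ediam (cyl n w) ≤ ENNReal.ofReal ((1 / 2) ^ n) := by
  apply Metric.ediam_le
  intro x hx y hy
  rw [edist_dist]
  apply ENNReal.ofReal_le_ofReal
  rw [← PiNat.mem_cylinder_iff_dist_le, PiNat.mem_cylinder_iff]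
  intro i hi
  rw [hx ⟨i, hi⟩, hy ⟨i, hi⟩]

lemma dimH_le_one (E : Set (ℕ → Bool)) : dimH E ≤ 1 := by
  have h1 : MeasureTheory.Measure.hausdorffMeasure (X := ℕ → Bool) (1 : ℝ) E ≤ 1 := by
    have hr : Tendsto (fun n : ℕ => ENNReal.ofReal ((1 / 2) ^ n)) atTop (𝓝 0) := by
      rw [← ENNReal.ofReal_zero]
      apply (ENNReal.continuous_ofReal.tendsto 0).comp
      exact tendsto_pow_atTop_nhds_zero_of_lt_one (by norm_num) (by norm_num)
    refine (MeasureTheory.Measure.hausdorffMeasure_le_liminf_sum (1 : ℝ) E (l := atTop)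
      (fun n : ℕ => ENNReal.ofReal ((1 / 2) ^ n)) hr (fun n (w : Fin n → Bool) => cyl n w)
      (Eventually.of_forall fun n w => cyl_diam n w)
      (Eventually.of_forall fun n x _ => Set.mem_iUnion.2 ⟨fun i => x i, fun i => rfl⟩)).trans ?_
    have h2 : ∀ n : ℕ, ∑ w : Fin n → Bool, Metric.ediam (cyl n w) ^ (1 : ℝ) ≤ 1 := by
      intro n
      calc ∑ w : Fin n → Bool, Metric.ediam (cyl n w) ^ (1 : ℝ)
          ≤ ∑ w : Fin n → Bool, ENNReal.ofReal ((1 / 2) ^ n) := by
            apply Finset.sum_le_sum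
            intro w _
            rw [ENNReal.rpow_one]
            exact cyl_diam n w
        _ = 1 := by
            rw [Finset.sum_const, Finset.card_univ, Fintype.card_fun, Fintype.card_bool,
              Fintype.card_fin, nsmul_eq_mul]
            have h3 : ((2 ^ n : ℕ) : ℝ≥0∞) = ENNReal.ofReal (2 ^ n) := by
              rw [← ENNReal.ofReal_natCast]
              push_cast
              rfl
            rw [h3, ← ENNReal.ofReal_mul (by positivity), ← mul_pow]
            norm_num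
    calc liminf (fun n : ℕ => ∑ w : Fin n → Bool, Metric.ediam (cyl n w) ^ (1 : ℝ)) atTop
        ≤ liminf (fun _ : ℕ => (1 : ℝ≥0∞)) atTop :=
          liminf_le_liminf (Eventually.of_forall h2)
      _ = 1 := liminf_const 1
  have h2 : MeasureTheory.Measure.hausdorffMeasure (X := ℕ → Bool) ((1 : ℝ≥0) : ℝ) E ≠ ⊤ := by
    rw [NNReal.coe_one]
    exact (lt_of_le_of_lt h1 ENNReal.one_lt_top).ne
  have h3 := dimH_le_of_hausdorffMeasure_ne_top h2
  simpa using h3

/-- the sign of a Boolean -/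
def sg (b : Bool) : ℝ := if b then 1 else -1

section Code

variable (l : ℕ)

/-- balanced subsets -/
noncomputable def bal : Finset (Finset (Fin (2 * l))) := Finset.powersetCard l Finset.univ

lemma bal_card : (bal l).card = Nat.centralBinom l := by
  unfold bal
  rw [Finset.card_powersetCard, Finset.card_univ, Fintype.card_fin]
  rfl

noncomputable def balE : bal l ≃ Fin (Nat.centralBinom l) :=
  Finset.equivFinOfCardEq (bal_card l)

noncomputable def enc (c : Fin (Nat.centralBinom l)) : Fin (2 * l) → Bool :=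
  fun i => decide (i ∈ (((balE l).symm c : bal l) : Finset (Fin (2 * l))))

open Classical in
noncomputable def dec (w : Fin (2 * l) → Bool) : Fin (Nat.centralBinom l) :=
  if h : (Finset.univ.filter fun i => w i = true) ∈ bal l then balE l ⟨_, h⟩
  else ⟨0, Nat.centralBinom_pos l⟩

lemma dec_enc (c : Fin (Nat.centralBinom l)) : dec l (enc l c) = c := by
  have h1 : (Finset.univ.filter fun i => enc l c i = true) =
      (((balE l).symm c : bal l) : Finset (Fin (2 * l))) := by
    ext i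
    simp [enc]
  unfold dec
  have h2 : (Finset.univ.filter fun i => enc l c i = true) ∈ bal l := by
    rw [h1]
    exact ((balE l).symm c).2
  rw [dif_pos h2]
  have h3 : (⟨_, h2⟩ : bal l) = (balE l).symm c := Subtype.ext h1
  rw [h3, Equiv.apply_symm_apply]

lemma enc_sum (c : Fin (Nat.centralBinom l)) : ∑ i, sg (enc l c i) = 0 := by
  obtain ⟨s, hs⟩ : ∃ s : Finset (Fin (2 * l)), s = (((balE l).symm c : bal l) : Finset _) :=
    ⟨_, rfl⟩
  have hcard : s.card = l := by
    have := ((balE l).symm c).2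
    rw [← hs] at this
    exact (Finset.mem_powersetCard.1 this).2
  have h1 : ∀ i, sg (enc l c i) = 2 * (if i ∈ s then (1 : ℝ) else 0) - 1 := by
    intro i
    unfold sg enc
    rw [← hs]
    by_cases h : i ∈ s <;> simp [h]
    norm_num
  rw [Finset.sum_congr rfl fun i _ => h1 i, Finset.sum_sub_distrib, ← Finset.mul_sum]
  simp [hcard]

/-- the decoding map -/
noncomputable def GG (x : ℕ → Bool) : ℝ :=
  Real.ofDigits (fun k => dec l (fun i : Fin (2 * l) => x ((2 * l + 1) * k + i)))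

lemma GG_holder {r : ℝ≥0} (hr : (2 : ℝ) ^ ((r : ℝ) * (2 * l + 1)) ≤ (Nat.centralBinom l : ℝ)) :
    HolderWith ((2 : ℝ≥0) ^ ((r : ℝ) * (2 * l + 1))) r (GG l) := by
  intro x y
  rcases eq_or_ne x y with h | h
  · subst h
    simp
  · obtain ⟨f, hf⟩ : ∃ f, f = PiNat.firstDiff x y := ⟨_, rfl⟩
    have hd : dist x y = (1 / 2) ^ f := by rw [hf]; exact PiNat.dist_eq_of_ne h
    have hagree : ∀ i, i < f → x i = y i := by
      intro i hi
      rw [hf] at hi
      exact PiNat.apply_eq_of_lt_firstDiff hi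
    have h1 : |GG l x - GG l y| ≤ (((Nat.centralBinom l : ℕ) : ℝ) ^ (f / (2 * l + 1)))⁻¹ := by
      apply Real.abs_ofDigits_sub_ofDigits_le
      intro k hk
      congr 1
      funext i
      apply hagree
      have h2 : (k + 1) ≤ f / (2 * l + 1) := hk
      have h3 : (2 * l + 1) * (k + 1) ≤ f :=
        (Nat.mul_le_mul_left _ h2).trans (Nat.mul_div_le f _)
      have h4 := i.2
      nlinarith
    have hB : (0 : ℝ) < (2 : ℝ) ^ ((r : ℝ) * (2 * l + 1)) := by positivity
    have h2 : (((Nat.centralBinom l : ℕ) : ℝ) ^ (f / (2 * l + 1)))⁻¹ ≤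
        (2 : ℝ) ^ ((r : ℝ) * (2 * l + 1)) * (dist x y) ^ (r : ℝ) := by
      have h3 : (((Nat.centralBinom l : ℕ) : ℝ) ^ (f / (2 * l + 1)))⁻¹ ≤
          (((2 : ℝ) ^ ((r : ℝ) * (2 * l + 1))) ^ (f / (2 * l + 1)))⁻¹ := by
        apply inv_anti₀ (by positivity)
        exact pow_le_pow_left₀ hB.le hr _
      refine h3.trans ?_
      rw [hd, ← Real.rpow_natCast ((2 : ℝ) ^ ((r : ℝ) * (2 * l + 1))), ← Real.rpow_mul (by norm_num),
        ← Real.rpow_neg (by norm_num), ← Real.rpow_natCast (1 / 2 : ℝ) f,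
        ← Real.rpow_mul (by norm_num), one_div, Real.inv_rpow (by norm_num),
        ← Real.rpow_neg (by norm_num), ← Real.rpow_add (by norm_num)]
      apply Real.rpow_le_rpow_of_exponent_le (by norm_num)
      have h4 : (f : ℝ) ≤ (2 * l + 1) * ((f / (2 * l + 1) : ℕ) : ℝ) + (2 * l + 1) := by
        have h5 : f < (2 * l + 1) * (f / (2 * l + 1)) + (2 * l + 1) := by
          have h6 := Nat.div_add_mod f (2 * l + 1)
          have h7 := Nat.mod_lt f (show 0 < 2 * l + 1 by omega)
          omega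
        exact_mod_cast h5.le
      have h5 := r.coe_nonneg
      nlinarith
    rw [edist_dist, edist_dist, Real.dist_eq, ENNReal.ofReal_rpow_of_nonneg dist_nonneg
      r.coe_nonneg]
    have h6 : (((2 : ℝ≥0) ^ ((r : ℝ) * (2 * l + 1)) : ℝ≥0) : ℝ≥0∞) =
        ENNReal.ofReal ((2 : ℝ) ^ ((r : ℝ) * (2 * l + 1))) := by
      rw [ENNReal.ofReal, ENNReal.coe_inj]
      ext
      rw [NNReal.coe_rpow, Real.coe_toNNReal _ (by positivity)]
      rfl
    rw [h6, ← ENNReal.ofReal_mul (by positivity)]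
    exact ENNReal.ofReal_le_ofReal (h1.trans h2)

/-- lower bound for the dimension of a set containing all balanced codings -/
lemma dim_lower {r : ℝ≥0} (hr0 : 0 < r) (hl : 0 < l)
    (hr : (2 : ℝ) ^ ((r : ℝ) * (2 * l + 1)) ≤ (Nat.centralBinom l : ℝ))
    (E : Set (ℕ → Bool))
    (hE : ∀ w : ℕ → Fin (2 * l) → Bool, (∀ k, ∑ i, sg (w k i) = 0) →
      ∃ x ∈ E, ∀ k (i : Fin (2 * l)), x ((2 * l + 1) * k + i) = w k i) :
    (r : ℝ≥0∞) ≤ dimH E := by
  have h1 := (GG_holder l hr).dimH_image_le hr0 E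
  have h2 : Set.Ico (0 : ℝ) 1 ⊆ GG l '' E := by
    intro y hy
    have hB : 1 < Nat.centralBinom l := by
      have h3 := Nat.two_le_centralBinom l hl
      omega
    have : NeZero (Nat.centralBinom l) := ⟨by omega⟩
    obtain ⟨x, hx, hx2⟩ := hE (fun k => enc l (Real.digits y (Nat.centralBinom l) k))
      (fun k => enc_sum l _)
    refine ⟨x, hx, ?_⟩
    unfold GG
    have h3 : (fun k => dec l (fun i : Fin (2 * l) => x ((2 * l + 1) * k + i))) =
        Real.digits y (Nat.centralBinom l) := by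
      funext k
      have h4 : (fun i : Fin (2 * l) => x ((2 * l + 1) * k + i)) =
          enc l (Real.digits y (Nat.centralBinom l) k) := by
        funext i
        exact hx2 k i
      rw [h4, dec_enc]
    rw [h3]
    exact Real.ofDigits_digits hB hy
  have h3 : dimH (Set.Ico (0 : ℝ) 1) = 1 := by
    rw [Real.dimH_of_nonempty_interior]
    · simp
    · rw [interior_Ico]
      exact ⟨1 / 2, by norm_num, by norm_num⟩
  have h4 : (1 : ℝ≥0∞) ≤ dimH E / r := by
    rw [← h3]
    exact (dimH_mono h2).trans h1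
  have h5 : ((r : ℝ≥0∞)) ≠ 0 := by
    rw [ENNReal.coe_ne_zero]
    exact hr0.ne'
  rw [ENNReal.le_div_iff_mul_le (Or.inl h5) (Or.inl ENNReal.coe_ne_top), one_mul] at h4
  exact h4

end Code

/-- the block length can be chosen to make the entropy as large as desired -/
lemma exists_len {r : ℝ} (hr : r < 1) :
    ∃ l : ℕ, 0 < l ∧ (2 : ℝ) ^ (r * (2 * l + 1)) ≤ (Nat.centralBinom l : ℝ) := by
  obtain ⟨c, hc⟩ : ∃ c : ℝ, c = (2 : ℝ) ^ (2 * (1 - r)) := ⟨_, rfl⟩
  have hc1 : 1 < c := by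
    rw [hc]
    apply Real.one_lt_rpow (by norm_num)
    linarith
  have h1 := tendsto_pow_const_div_const_pow_of_one_lt 1 hc1
  have h2 : (0 : ℝ) < 1 / (2 * 2 ^ r) := by positivity
  have h3 := h1.eventually (gt_mem_nhds h2)
  obtain ⟨l, hl1, hl2⟩ := (h3.and (eventually_ge_atTop 1)).exists
  refine ⟨l, hl2, ?_⟩
  have hl0 : (0 : ℝ) < l := by exact_mod_cast hl2
  have h4 : (4 : ℝ) ^ l ≤ 2 * l * (Nat.centralBinom l : ℝ) := by
    exact_mod_cast Nat.four_pow_le_two_mul_self_mul_centralBinom l hl2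
  rw [pow_one] at hl1
  have hcl : 0 < c ^ l := by positivity
  have h5 : 2 * 2 ^ r * (l : ℝ) ≤ c ^ l := by
    rw [div_lt_div_iff₀ hcl (by positivity)] at hl1
    linarith
  have h6 : c ^ l * (2 : ℝ) ^ (r * (2 * l)) = 4 ^ l := by
    rw [hc, ← Real.rpow_natCast, ← Real.rpow_mul (by norm_num), ← Real.rpow_add (by norm_num)]
    have h7 : 2 * (1 - r) * (l : ℝ) + r * (2 * l) = 2 * l := by ring
    rw [h7, Real.rpow_mul (by norm_num)]
    norm_num
  have h7 : (2 : ℝ) ^ (r * (2 * l + 1)) = 2 ^ (r * (2 * l)) * 2 ^ r := by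
    rw [← Real.rpow_add (by norm_num)]
    congr 1
    ring
  rw [h7]
  have h8 : 2 * l * (2 ^ (r * (2 * l)) * 2 ^ r) ≤ 2 * l * (Nat.centralBinom l : ℝ) := by
    calc 2 * l * (2 ^ (r * (2 * l)) * 2 ^ r) = (2 * 2 ^ r * (l : ℝ)) * 2 ^ (r * (2 * l)) := by ring
      _ ≤ c ^ l * 2 ^ (r * (2 * l)) := mul_le_mul_of_nonneg_right h5 (by positivity)
      _ = 4 ^ l := h6
      _ ≤ _ := h4
  exact le_of_mul_le_mul_left h8 (by positivity)

end Pool.Agent.V1188.SD
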