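import Pool.Agent.V1188.SD3
import Pool.Agent.V1188.SD4

open Filter Topology
open scoped ENNReal NNReal

namespace Pool.Agent.V1188.SD

section

variable (l : ℕ)

/-- put the free words and the reserved signs together -/
def glue (w : ℕ → Fin (2 * l) → Bool) (τ : ℕ → Bool) (j : ℕ) : Bool :=
  if h : j % (2 * l + 1) < 2 * l then w (j / (2 * l + 1)) ⟨j % (2 * l + 1), h⟩
  else τ (j / (2 * l + 1))

lemma glue_free (w : ℕ → Fin (2 * l) → Bool) (τ : ℕ → Bool) (k : ℕ) (i : Fin (2 * l)) :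
    glue l w τ ((2 * l + 1) * k + i) = w k i := by
  have hi := i.2
  have h1 : ((2 * l + 1) * k + (i : ℕ)) % (2 * l + 1) = i := by
    rw [Nat.mul_add_mod]
    exact Nat.mod_eq_of_lt (by omega)
  have h2 : ((2 * l + 1) * k + (i : ℕ)) / (2 * l + 1) = k := by
    rw [Nat.mul_add_div (by omega), Nat.div_eq_of_lt (by omega), add_zero]
  unfold glue
  rw [dif_pos (by rw [h1]; exact hi)]
  rw [h2]
  exact congrArg (w k) (Fin.ext h1)

lemma glue_res (w : ℕ → Fin (2 * l) → Bool) (τ : ℕ → Bool) (k : ℕ) :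
    glue l w τ ((2 * l + 1) * k + 2 * l) = τ k := by
  have h1 : ((2 * l + 1) * k + 2 * l) % (2 * l + 1) = 2 * l := by
    rw [Nat.mul_add_mod]
    exact Nat.mod_eq_of_lt (by omega)
  have h2 : ((2 * l + 1) * k + 2 * l) / (2 * l + 1) = k := by
    rw [Nat.mul_add_div (by omega), Nat.div_eq_of_lt (by omega), add_zero]
  unfold glue
  rw [dif_neg (by rw [h1]; omega), h2]

/-- the contribution of a free block -/
noncomputable def FB (w : ℕ → Fin (2 * l) → Bool) (t : ℝ) (k : ℕ) : ℝ :=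
  ∑ i : Fin (2 * l), sg (w k i) * pw t ((2 * l + 1) * k + i)

lemma abs_sg (c : Bool) : |sg c| = 1 := by
  unfold sg
  split_ifs <;> simp

lemma FB_le {w : ℕ → Fin (2 * l) → Bool} (hw : ∀ k, ∑ i, sg (w k i) = 0) {t : ℝ} (ht : 0 ≤ t)
    (k : ℕ) : |FB l w t k| ≤
      2 * l * (pw t ((2 * l + 1) * k) - pw t ((2 * l + 1) * (k + 1))) := by
  have h1 : FB l w t k = ∑ i : Fin (2 * l), sg (w k i) *
      (pw t ((2 * l + 1) * k + i) - pw t ((2 * l + 1) * k)) := by
    unfold FB
    simp only [mul_sub]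
    rw [Finset.sum_sub_distrib, ← Finset.sum_mul, hw, zero_mul, sub_zero]
  rw [h1]
  refine (Finset.abs_sum_le_sum_abs _ _).trans ?_
  calc ∑ i : Fin (2 * l), |sg (w k i) * (pw t ((2 * l + 1) * k + i) - pw t ((2 * l + 1) * k))|
      ≤ ∑ i : Fin (2 * l), (pw t ((2 * l + 1) * k) - pw t ((2 * l + 1) * (k + 1))) := by
        apply Finset.sum_le_sum
        intro i _
        rw [abs_mul, abs_sg, one_mul, abs_sub_comm]
        have h2 : pw t ((2 * l + 1) * k + i) ≤ pw t ((2 * l + 1) * k) := pw_anti ht (by omega)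
        have h3 : pw t ((2 * l + 1) * (k + 1)) ≤ pw t ((2 * l + 1) * k + i) := by
          apply pw_anti ht
          have := i.2
          nlinarith
        rw [abs_of_nonneg (by linarith)]
        linarith
    _ = _ := by
        rw [Finset.sum_const, Finset.card_univ, Fintype.card_fin, nsmul_eq_mul]
        push_cast
        ring

lemma FB_summable {w : ℕ → Fin (2 * l) → Bool} (hw : ∀ k, ∑ i, sg (w k i) = 0) {t : ℝ}
    (ht : 0 ≤ t) : Summable (FB l w t) := by
  have h1 : Summable (fun k => 2 * l * (pw t ((2 * l + 1) * k) - pw t ((2 * l + 1) * (k + 1)))) := by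
    apply Summable.mul_left
    apply summable_of_sum_range_le (c := pw t 0)
    · intro k
      have : pw t ((2 * l + 1) * (k + 1)) ≤ pw t ((2 * l + 1) * k) := pw_anti ht (by nlinarith)
      linarith
    · intro n
      rw [Finset.sum_range_sub' (fun k => pw t ((2 * l + 1) * k))]
      have := pw_pos (a := t) ((2 * l + 1) * n)
      simp only [mul_zero]
      linarith
  exact Summable.of_norm_bounded h1 fun k => FB_le l hw ht k

lemma res_eq (t : ℝ) (k : ℕ) :
    pw t ((2 * l + 1) * k + 2 * l) = ((2 : ℝ) * l + 1) ^ (-t) * pw t k := by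
  unfold pw
  rw [← Real.mul_rpow (by positivity) (by positivity)]
  congr 1
  push_cast
  ring

lemma block_sum (w : ℕ → Fin (2 * l) → Bool) (τ : ℕ → Bool) (t : ℝ) (K : ℕ) :
    ∑ j ∈ Finset.range ((2 * l + 1) * K), sg (glue l w τ j) * pw t j =
      ∑ k ∈ Finset.range K, FB l w t k +
      ((2 : ℝ) * l + 1) ^ (-t) * ∑ k ∈ Finset.range K, sg (τ k) * pw t k := by
  induction K with
  | zero => simp
  | succ K ih =>
    rw [Nat.mul_succ, Finset.sum_range_add, ih, Finset.sum_range_succ (fun x =>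
      sg (glue l w τ ((2 * l + 1) * K + x)) * pw t ((2 * l + 1) * K + x)),
      Finset.sum_range_succ (fun k => FB l w t k), Finset.sum_range_succ (fun k => sg (τ k) * pw t k),
      glue_res, res_eq]
    have h1 : ∑ x ∈ Finset.range (2 * l), sg (glue l w τ ((2 * l + 1) * K + x)) *
        pw t ((2 * l + 1) * K + x) = FB l w t K := by
      unfold FB
      rw [Finset.sum_range]
      apply Finset.sum_congr rfl
      intro i _
      rw [glue_free]
    rw [h1]
    ring

/-- from block ends to all indices -/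
lemma tendsto_of_blocks {S : ℕ → ℝ} {L : ℝ} {m : ℕ} (hm : 0 < m)
    (h1 : Tendsto (fun K => S (m * K)) atTop (𝓝 L)) {e : ℕ → ℝ} (he : Tendsto e atTop (𝓝 0))
    (h2 : ∀ K i, i < m → |S (m * K + i) - S (m * K)| ≤ e K) : Tendsto S atTop (𝓝 L) := by
  have hdiv : Tendsto (fun N => N / m) atTop atTop := Nat.tendsto_div_const_atTop hm.ne'
  have h3 := h1.comp hdiv
  have h4 : Tendsto (fun N => S N - S (m * (N / m))) atTop (𝓝 0) := by
    apply squeeze_zero_norm (a := fun N => e (N / m))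
    · intro N
      have := h2 (N / m) (N % m) (Nat.mod_lt _ hm)
      rw [Nat.div_add_mod] at this
      exact this
    · exact he.comp hdiv
  have h5 := h4.add h3
  rw [zero_add] at h5
  refine h5.congr fun N => ?_
  simp

lemma glue_tendsto {w : ℕ → Fin (2 * l) → Bool} (hw : ∀ k, ∑ i, sg (w k i) = 0) {τ : ℕ → Bool}
    {t T : ℝ} (ht : 0 < t)
    (hτ : Tendsto (fun K => ∑ k ∈ Finset.range K, sg (τ k) * pw t k) atTop (𝓝 T)) :
    Tendsto (fun N => ∑ j ∈ Finset.range N, sg (glue l w τ j) * pw t j) atTop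
      (𝓝 (∑' k, FB l w t k + ((2 : ℝ) * l + 1) ^ (-t) * T)) := by
  apply tendsto_of_blocks (m := 2 * l + 1) (by omega)
    (e := fun K => (2 * l + 1) * pw t ((2 * l + 1) * K))
  · have h1 := (FB_summable l hw ht.le).hasSum.tendsto_sum_nat.add
      (hτ.const_mul (((2 : ℝ) * l + 1) ^ (-t)))
    exact h1.congr fun K => (block_sum l w τ t K).symm
  · have h1 : Tendsto (fun K => (2 * l + 1) * K) atTop atTop :=
      tendsto_id.const_mul_atTop' (by omega)
    have h2 := ((pw_tendsto ht).comp h1).const_mul ((2 : ℝ) * l + 1)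
    rw [mul_zero] at h2
    exact h2
  · intro K i hi
    rw [Finset.sum_range_add, add_sub_cancel_left]
    refine (Finset.abs_sum_le_sum_abs _ _).trans ?_
    calc ∑ x ∈ Finset.range i, |sg (glue l w τ ((2 * l + 1) * K + x)) * pw t ((2 * l + 1) * K + x)|
        ≤ ∑ x ∈ Finset.range i, pw t ((2 * l + 1) * K) := by
          apply Finset.sum_le_sum
          intro x _
          rw [abs_mul, abs_sg, one_mul, abs_of_pos (pw_pos _)]
          exact pw_anti ht.le (by omega)
      _ = i * pw t ((2 * l + 1) * K) := by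
          rw [Finset.sum_const, Finset.card_range, nsmul_eq_mul]
      _ ≤ _ := by
          apply mul_le_mul_of_nonneg_right _ (pw_pos _).le
          have : (i : ℝ) ≤ (2 * l + 1 : ℕ) := by exact_mod_cast hi.le
          push_cast at this
          exact this

end

attribute [local instance] PiNat.metricSpace

/-- the set of sign choices with a given pair of sums -/
def SS (a b X Y : ℝ) : Set (ℕ → Bool) :=
  {x | Tendsto (fun N => ∑ n ∈ Finset.range N, sg (x n) * pw a n) atTop (𝓝 X) ∧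
    Tendsto (fun N => ∑ n ∈ Finset.range N, sg (x n) * pw b n) atTop (𝓝 Y)}

lemma SS_nonempty {a b : ℝ} (hb : 0 < b) (hab : b < a) (ha : a ≤ 1) (X Y : ℝ) :
    (SS a b X Y).Nonempty := by
  obtain ⟨ε, h1, h2, h3⟩ := exists_signs hb hab ha X Y
  refine ⟨fun n => decide (ε n = 1), ?_⟩
  have h4 : ∀ n, sg (decide (ε n = 1)) = ε n := by
    intro n
    unfold sg
    rcases h1 n with h | h
    · simp [h]
    · rw [h]
      norm_num
  constructor
  · simpa only [h4] using h2
  · simpa only [h4] using h3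

theorem SS_dim {a b : ℝ} (ha : 0 < a) (hb : 0 < b) (hne : ∀ X Y, (SS a b X Y).Nonempty)
    (X Y : ℝ) : dimH (SS a b X Y) = 1 := by
  apply le_antisymm (dimH_le_one _)
  apply le_of_forall_lt
  intro c hc
  obtain ⟨r, hr1, hr2⟩ := ENNReal.lt_iff_exists_nnreal_btwn.1 hc
  refine lt_of_lt_of_le hr1 ?_
  have hr0 : 0 < r := by
    have := lt_of_le_of_lt (zero_le) hr1
    exact_mod_cast this
  have hr3 : (r : ℝ) < 1 := by exact_mod_cast hr2
  obtain ⟨l, hl, hl2⟩ := exists_len hr3
  apply dim_lower l hr0 hl hl2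
  intro w hw
  obtain ⟨Ca, hCa⟩ : ∃ C : ℝ, C = ((2 : ℝ) * l + 1) ^ (-a) := ⟨_, rfl⟩
  obtain ⟨Cb, hCb⟩ : ∃ C : ℝ, C = ((2 : ℝ) * l + 1) ^ (-b) := ⟨_, rfl⟩
  have hCa0 : Ca ≠ 0 := by rw [hCa]; positivity
  have hCb0 : Cb ≠ 0 := by rw [hCb]; positivity
  obtain ⟨τ, hτ1, hτ2⟩ := hne ((X - ∑' k, FB l w a k) / Ca) ((Y - ∑' k, FB l w b k) / Cb)
  refine ⟨glue l w τ, ⟨?_, ?_⟩, fun k i => glue_free l w τ k i⟩
  · have h1 := glue_tendsto l hw ha hτ1
    rw [← hCa, mul_div_cancel₀ _ hCa0, add_sub_cancel] at h1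
    exact h1
  · have h1 := glue_tendsto l hw hb hτ2
    rw [← hCb, mul_div_cancel₀ _ hCb0, add_sub_cancel] at h1
    exact h1

end Pool.Agent.V1188.SD
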